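import Pool.Agent.Q47.DG.EqdK
import Pool.Agent.Q29.EqDir
import Pool.Agent.Q29.EqRoth

set_option autoImplicit false

/-!
# Properties of a number at a scale which hold when there is no resonance

The arguments of `Q29/EqDir`, `Q29/EqSimul` and `Q29/EqRoth` for an arbitrary property.
-/

namespace Pool.Agent.Q47.DG.Abs

open Finset Filter Topology Pool.Agent.Q29.Eqd

/-- the property `P κ M x` holds if `x` has no rational approximation of small height at the scale `M` -/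
def Engine (P : ℝ → ℕ → ℝ → Prop) : Prop :=
  (∀ δ : ℝ, 0 < δ → δ ≤ 1 → ∃ κ : ℝ, 0 < κ ∧ κ ≤ 1 ∧ ∃ M₀ : ℕ, 2 ≤ M₀ ∧
    ∀ M : ℕ, M₀ ≤ M → ∀ x : ℝ, ¬ Res δ M x → P κ M x) ∧
  (∀ (κ κ' : ℝ) (M : ℕ) (x : ℝ), 1 ≤ M → κ' ≤ κ → P κ M x → P κ' M x)

/-- the property at all scales from `N` to `N ^ A` -/
def PRange (P : ℝ → ℕ → ℝ → Prop) (x : ℝ) (A κ : ℝ) (N : ℕ) : Prop :=
  ∀ M : ℕ, N ≤ M → (M : ℝ) ≤ (N : ℝ) ^ A → P κ M x

/-- polynomials in the elements of a dense set times the elements of another -/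
theorem engine_prod (K : ℕ) (η : ℝ) (hη : 0 < η) : Engine (PGood K η) :=
  ⟨fun δ hδ _ => pgood_engine K η hη δ hδ, fun _ _ _ _ hM hκ h => h.mono hM hκ⟩

theorem multi_engine (P : ℝ → ℕ → ℝ → Prop) (hP : Engine P) (κ₀ A : ℝ) (hκ₀ : 0 ≤ κ₀) (hA : 1 ≤ A) : ∃ κ : ℝ, 0 < κ ∧ ∀ c S : ℝ, 0 < c → 0 < S →
    ∃ N₀ : ℕ, 1 ≤ N₀ ∧ ∀ N : ℕ, N₀ ≤ N → ∀ {ι : Type} (x : ι → ℝ), (∀ Q ε : ℝ, 1 ≤ Q → 0 ≤ ε → ε ≤ 1 → ∀ q : ι → ℕ,
      (∀ k, 1 ≤ q k) → (∀ k, (q k : ℝ) ≤ Q) → ∀ p : ι → ℤ, (∀ k, |(q k : ℝ) * x k - p k| ≤ ε) →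
        c * (Q * (N : ℝ) ^ κ * S) ^ (-κ₀) ≤ ε) →
      ∃ k, PRange P (x k) A κ N := by
  obtain ⟨δ, hδE⟩ : ∃ δ : ℝ, δ = 1 / (4 * (A + 1) * (κ₀ + 1)) := ⟨_, rfl⟩
  have hδ : 0 < δ := by rw [hδE]; positivity
  have hδ8 : δ ≤ 1 / 8 := by
    rw [hδE]
    apply one_div_le_one_div_of_le (by norm_num)
    nlinarith
  have hδA : (A * δ + δ) * κ₀ ≤ 1 / 4 := by
    have e1 : (A * δ + δ) * (κ₀ + 1) = 1 / 4 := by
      rw [hδE]
      field_simp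
    nlinarith
  obtain ⟨κ₁, hκ₁, hκ₁1, M₀, hM₀, hgood⟩ := hP.1 δ hδ (by linarith)
  refine ⟨min κ₁ δ, lt_min hκ₁ hδ, fun c S hc hS0 => ?_⟩
  obtain ⟨M₁, hM₁, hbig⟩ := ev_rpow (1 / 2) (2 * (S ^ κ₀ / c)) (by norm_num)
  refine ⟨max M₀ M₁, hM₁.trans (le_max_right _ _), fun N hN ι x h => ?_⟩
  have hNpos : 1 ≤ N := hM₁.trans ((le_max_right _ _).trans hN)
  have hN1 : (1 : ℝ) ≤ N := by exact_mod_cast hNpos
  have hN0 : (0 : ℝ) < N := by linarith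
  have hbigN := hbig N ((le_max_right _ _).trans hN)
  by_contra hcon
  push Not at hcon
  have key : ∀ k, ∃ q : ℕ, 1 ≤ q ∧ (q : ℝ) ≤ (N : ℝ) ^ (A * δ) ∧
      ∃ a : ℤ, |(q : ℝ) * x k - a| ≤ (N : ℝ) ^ (δ - 1) := by
    intro k
    have hx := hcon k
    unfold PRange at hx
    push Not at hx
    obtain ⟨M, hNM, hMA, hbad⟩ := hx
    have hMpos : 1 ≤ M := hNpos.trans hNM
    have hres : Res δ M (x k) := by
      by_contra hcon
      exact hbad (hP.2 _ _ _ _ hMpos (min_le_left _ _) (hgood M (((le_max_left _ _).trans hN).trans hNM) _ hcon))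
    obtain ⟨q, hq, hqM, a, ha⟩ := hres
    refine ⟨q, hq, ?_, a, ?_⟩
    · refine hqM.trans ?_
      rw [Real.rpow_mul hN0.le]
      exact Real.rpow_le_rpow (by positivity) hMA hδ.le
    · refine ha.trans ?_
      apply Real.rpow_le_rpow_of_nonpos hN0 (by exact_mod_cast hNM) (by linarith)
  choose q hq hqN a ha using key
  have h2 := h ((N : ℝ) ^ (A * δ)) ((N : ℝ) ^ (δ - 1)) (Real.one_le_rpow hN1 (by positivity)) (by positivity)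
    (Real.rpow_le_one_of_one_le_of_nonpos hN1 (by linarith)) q hq hqN a ha
  have h2' : c * ((N : ℝ) ^ (A * δ + δ) * S) ^ (-κ₀) ≤ (N : ℝ) ^ (δ - 1) := by
    refine le_trans (mul_le_mul_of_nonneg_left ?_ hc.le) h2
    apply Real.rpow_le_rpow_of_nonpos (by positivity) _ (by linarith)
    apply mul_le_mul_of_nonneg_right _ hS0.le
    rw [Real.rpow_add hN0]
    apply mul_le_mul_of_nonneg_left _ (by positivity)
    exact Real.rpow_le_rpow_of_exponent_le hN1 (min_le_right _ _)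
  rw [Real.mul_rpow (by positivity) hS0.le, ← Real.rpow_mul hN0.le, Real.rpow_neg hS0.le] at h2'
  have hSκ : 0 < S ^ κ₀ := by positivity
  have h3 : c ≤ S ^ κ₀ * (N : ℝ) ^ ((A * δ + δ) * κ₀ + (δ - 1)) := by
    have e1 : c = (c * ((N : ℝ) ^ ((A * δ + δ) * -κ₀) * (S ^ κ₀)⁻¹)) * ((N : ℝ) ^ ((A * δ + δ) * κ₀) * S ^ κ₀) := by
      have e2 : (N : ℝ) ^ ((A * δ + δ) * -κ₀) * (N : ℝ) ^ ((A * δ + δ) * κ₀) = 1 := by
        rw [← Real.rpow_add hN0, show (A * δ + δ) * -κ₀ + (A * δ + δ) * κ₀ = 0 by ring, Real.rpow_zero]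
      calc c = c * ((N : ℝ) ^ ((A * δ + δ) * -κ₀) * (N : ℝ) ^ ((A * δ + δ) * κ₀)) * ((S ^ κ₀)⁻¹ * S ^ κ₀) := by
            rw [e2, inv_mul_cancel₀ hSκ.ne']
            ring
        _ = _ := by ring
    rw [e1]
    calc (c * ((N : ℝ) ^ ((A * δ + δ) * -κ₀) * (S ^ κ₀)⁻¹)) * ((N : ℝ) ^ ((A * δ + δ) * κ₀) * S ^ κ₀)
        ≤ (N : ℝ) ^ (δ - 1) * ((N : ℝ) ^ ((A * δ + δ) * κ₀) * S ^ κ₀) :=
          mul_le_mul_of_nonneg_right h2' (by positivity)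
      _ = _ := by
          rw [Real.rpow_add hN0]
          ring
  have h4 : (N : ℝ) ^ ((A * δ + δ) * κ₀ + (δ - 1)) ≤ (N : ℝ) ^ (-(1 / 2) : ℝ) :=
    Real.rpow_le_rpow_of_exponent_le hN1 (by linarith)
  have h5 : c * (N : ℝ) ^ (1 / 2 : ℝ) ≤ S ^ κ₀ := by
    have e3 : (N : ℝ) ^ (-(1 / 2) : ℝ) * (N : ℝ) ^ (1 / 2 : ℝ) = 1 := by
      rw [← Real.rpow_add hN0]
      norm_num
    calc c * (N : ℝ) ^ (1 / 2 : ℝ) ≤ (S ^ κ₀ * (N : ℝ) ^ (-(1 / 2) : ℝ)) * (N : ℝ) ^ (1 / 2 : ℝ) := by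
          apply mul_le_mul_of_nonneg_right _ (by positivity)
          exact h3.trans (mul_le_mul_of_nonneg_left h4 hSκ.le)
      _ = S ^ κ₀ := by rw [mul_assoc, e3, mul_one]
  have h6 : 2 * S ^ κ₀ ≤ c * (N : ℝ) ^ (1 / 2 : ℝ) := by
    calc 2 * S ^ κ₀ = c * (2 * (S ^ κ₀ / c)) := by field_simp
      _ ≤ _ := mul_le_mul_of_nonneg_left hbigN hc.le
  linarith

theorem dir_good (P : ℝ → ℕ → ℝ → Prop) (hP : Engine P) (E A : ℝ) (hE : 0 ≤ E) (hA : 1 ≤ A) : ∃ κ : ℝ, 0 < κ ∧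
    ∀ {m r n : ℕ} (θ : Fin m → ℝ) (c : ℝ), 0 < c →
    (∀ (t : Fin r → ℝ) (X : ℝ), 1 ≤ X → ∀ v : Fin n → (Fin (m + 1) → ℤ) × (Fin r → ℤ),
      LinearIndependent ℤ v → (∀ k, ‖v k‖ ≤ X) → ∃ k, c * X ^ (-E) ≤ |lval θ t (v k)|) →
    ∃ N₀ : ℕ, ∀ N : ℕ, N₀ ≤ N → ∀ (t : Fin r → ℝ) (a : Fin n → Fin m → ℤ) (e : Fin n → Fin r → ℤ),
      LinearIndependent ℤ (fun k => (a k, e k)) → (∀ k j, |(a k j : ℝ)| ≤ (N : ℝ) ^ κ) →
      (∀ k j, |(e k j : ℝ)| ≤ (N : ℝ) ^ κ) →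
      ∃ k, PRange P (∑ j, (a k j : ℝ) * θ j + ∑ j, (e k j : ℝ) * t j) A κ N := by
  obtain ⟨κ, hκ, heng⟩ := multi_engine P hP E A hE hA
  refine ⟨κ, hκ, fun {m r n} θ c hc hm => ?_⟩
  obtain ⟨S, hS⟩ : ∃ S : ℝ, S = (∑ j, |θ j|) + r + 2 := ⟨_, rfl⟩
  have hθ0 : 0 ≤ ∑ j, |θ j| := Finset.sum_nonneg fun j _ => abs_nonneg _
  have hS2 : 2 ≤ S := by
    rw [hS]
    have : (0 : ℝ) ≤ r := Nat.cast_nonneg _
    linarith
  obtain ⟨N₀, hN₀1, hN₀⟩ := heng c S hc (by linarith)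
  refine ⟨N₀, fun N hN t a e hli ha he => ?_⟩
  have hNpos : 1 ≤ N := hN₀1.trans hN
  have hN1 : (1 : ℝ) ≤ N := by exact_mod_cast hNpos
  apply hN₀ N hN (fun k => ∑ j, (a k j : ℝ) * θ j + ∑ j, (e k j : ℝ) * t j)
  intro Q ε hQ hε hε1 q hq hqQ p hp
  exact dir_bound E θ c hm S hS _ Q ε (Real.one_le_rpow hN1 hκ.le) hQ hε1 t a e hli ha he q hq hqQ p hp

theorem simul_good' (P : ℝ → ℕ → ℝ → Prop) (hP : Engine P) (T : Finset ℕ) (w : ℝ) (hw : 0 ≤ w) (z : ℕ → ℝ) (c : ℝ) (hc : 0 < c)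
    (h : ∀ q : ℕ, 1 ≤ q → ∀ a : ℕ → ℤ, ∃ j ∈ T, c ≤ (q : ℝ) ^ w * |(q : ℝ) * z j - a j|)
    (A : ℝ) (hA : 1 ≤ A) : ∃ κ : ℝ, 0 < κ ∧ ∃ N₀ : ℕ, 1 ≤ N₀ ∧ ∀ N : ℕ, N₀ ≤ N →
      ∃ j ∈ T, PRange P (z j) A κ N := by
  obtain ⟨κ, hκ, heng⟩ := multi_engine P hP ((T.card : ℝ) * (w + 1)) A (by positivity) hA
  obtain ⟨N₀, hN₀1, hN₀⟩ := heng c 1 hc one_pos
  refine ⟨κ, hκ, N₀, hN₀1, fun N hN => ?_⟩
  have hN1 : (1 : ℝ) ≤ N := by exact_mod_cast hN₀1.trans hN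
  obtain ⟨k, hk⟩ := hN₀ N hN (fun k : T => z k) (by
    intro Q ε hQ hε hε1 q hq hqQ p hp
    obtain ⟨r, hr⟩ : ∃ r : ℕ → ℕ,
        r = fun j => ∏ i ∈ (univ : Finset T).filter (fun i : T => (i : ℕ) ≠ j), q i := ⟨_, rfl⟩
    obtain ⟨D, hD⟩ : ∃ D : ℕ, D = ∏ i : T, q i := ⟨_, rfl⟩
    have hDr : ∀ k : T, D = q k * r k := by
      intro k
      rw [hD, hr, ← Finset.mul_prod_erase univ q (mem_univ k)]
      congr 1
      refine Finset.prod_congr ?_ fun _ _ => rfl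
      ext i
      simp only [mem_erase, mem_univ, and_true, mem_filter, true_and, ne_eq, Subtype.ext_iff]
    have hD0 : 0 < D := by
      rw [hD]
      exact Finset.prod_pos fun i _ => hq i
    have hDR : (0 : ℝ) < D := by exact_mod_cast hD0
    have hDQ : (D : ℝ) ≤ Q ^ T.card := by
      rw [hD]
      push_cast
      calc ∏ i : T, (q i : ℝ) ≤ ∏ _i : T, Q :=
            Finset.prod_le_prod (fun i _ => Nat.cast_nonneg _) fun i _ => hqQ i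
        _ = Q ^ T.card := by rw [Finset.prod_const, Finset.card_univ, Fintype.card_coe]
    obtain ⟨j, hj, hjm⟩ := h D hD0 (fun j => if hj : j ∈ T then p ⟨j, hj⟩ * r j else 0)
    simp only [dif_pos hj] at hjm
    have hqj : (1 : ℝ) ≤ q ⟨j, hj⟩ := by exact_mod_cast hq ⟨j, hj⟩
    have hD' : (D : ℝ) = q ⟨j, hj⟩ * r j := by
      have := hDr ⟨j, hj⟩
      exact_mod_cast this
    have hr0 : (0 : ℝ) ≤ r j := Nat.cast_nonneg _
    have hrD : (r j : ℝ) ≤ D := by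
      rw [hD']
      nlinarith
    have e1 : (D : ℝ) * z j - ((p ⟨j, hj⟩ * r j : ℤ) : ℝ) = r j * ((q ⟨j, hj⟩ : ℝ) * z j - p ⟨j, hj⟩) := by
      rw [hD']
      push_cast
      ring
    rw [e1, abs_mul, Nat.abs_cast] at hjm
    have h2 : (r j : ℝ) * |(q ⟨j, hj⟩ : ℝ) * z j - p ⟨j, hj⟩| ≤ D * ε :=
      mul_le_mul hrD (hp ⟨j, hj⟩) (abs_nonneg _) hDR.le
    have h3 : c ≤ (D : ℝ) ^ (w + 1) * ε := by
      rw [Real.rpow_add hDR, Real.rpow_one, mul_assoc]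
      exact hjm.trans (mul_le_mul_of_nonneg_left h2 (by positivity))
    have hQ0 : 0 < Q := by linarith
    have h4 : (D : ℝ) ^ (w + 1) ≤ Q ^ ((T.card : ℝ) * (w + 1)) := by
      rw [Real.rpow_mul hQ0.le, Real.rpow_natCast]
      exact Real.rpow_le_rpow hDR.le hDQ (by linarith)
    have h5 : c ≤ Q ^ ((T.card : ℝ) * (w + 1)) * ε := h3.trans (mul_le_mul_of_nonneg_right h4 hε)
    have h6 : (Q * (N : ℝ) ^ κ * 1) ^ (-((T.card : ℝ) * (w + 1))) ≤ Q ^ (-((T.card : ℝ) * (w + 1))) := by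
      apply Real.rpow_le_rpow_of_nonpos hQ0
      · rw [mul_one]
        exact le_mul_of_one_le_right (by linarith) (Real.one_le_rpow hN1 hκ.le)
      · have : 0 ≤ (T.card : ℝ) * (w + 1) := by positivity
        linarith
    refine (mul_le_mul_of_nonneg_left h6 hc.le).trans ?_
    rw [Real.rpow_neg hQ0.le, ← div_eq_mul_inv, div_le_iff₀ (by positivity)]
    linarith)
  exact ⟨k, k.2, hk⟩

theorem simul_good (P : ℝ → ℕ → ℝ → Prop) (hP : Engine P) (T : Finset ℕ) (w : ℕ) (z : ℕ → ℝ) (c : ℝ) (hc : 0 < c)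
    (h : ∀ (a : ℕ → ℤ) (q : ℕ), 0 < q → ∃ j ∈ T, c / (q : ℝ) ^ w ≤ |z j - (a j : ℝ) / q|)
    (A : ℝ) (hA : 1 ≤ A) : ∃ κ : ℝ, 0 < κ ∧ ∃ N₀ : ℕ, ∀ N : ℕ, N₀ ≤ N →
      ∃ j ∈ T, PRange P (z j) A κ N := by
  obtain ⟨κ, hκ, N₀, -, h'⟩ := simul_good' P hP T w (Nat.cast_nonneg _) z c hc (fun q hq a => by
    obtain ⟨j, hj, h1⟩ := h a q hq
    refine ⟨j, hj, ?_⟩
    have hq1 : (1 : ℝ) ≤ q := by exact_mod_cast hq
    have hq0 : (0 : ℝ) < q := by linarith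
    rw [div_le_iff₀ (by positivity)] at h1
    rw [Real.rpow_natCast]
    have e1 : |(q : ℝ) * z j - a j| = q * |z j - (a j : ℝ) / q| := by
      rw [← Nat.abs_cast q, ← abs_mul, Nat.abs_cast]
      congr 1
      field_simp
    rw [e1]
    have h2 : |z j - (a j : ℝ) / q| ≤ q * |z j - (a j : ℝ) / q| :=
      le_mul_of_one_le_left (abs_nonneg _) hq1
    calc c ≤ |z j - (a j : ℝ) / q| * (q : ℝ) ^ w := h1
      _ ≤ (q * |z j - (a j : ℝ) / q|) * (q : ℝ) ^ w := mul_le_mul_of_nonneg_right h2 (by positivity)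
      _ = _ := by ring) A hA
  exact ⟨κ, hκ, N₀, h'⟩

/-- Let `x n → β` be such that the rational numbers `p / q ≠ β` with `q ≤ C ^ n` satisfy
`|x n - p / q| > 1 / (q ^ 2 B ^ n)` for large `n`, for every `C` and every `B > 1`, and such that `β` is irrational or
`|x n - β| ≥ c / m ^ n`. Then the multiples of `x n` are uniformly distributed at the scales from `D ^ n` to `C ^ n`
for every `D > m`. -/
theorem roth_good (P : ℝ → ℕ → ℝ → Prop) (hP : Engine P) (x : ℕ → ℝ) (β m : ℝ) (hm : 1 ≤ m)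
    (hR : ∀ C B : ℝ, 1 < B → ∃ n0 : ℕ, ∀ n : ℕ, n0 ≤ n → ∀ p q : ℤ, 1 ≤ q → (q : ℝ) ≤ C ^ n → (p : ℝ) / q ≠ β →
      1 / ((q : ℝ) ^ 2 * B ^ n) < |x n - p / q|)
    (hL : (∀ p q : ℤ, 1 ≤ q → (p : ℝ) / q ≠ β) ∨ ∃ c : ℝ, 0 < c ∧ ∃ n1 : ℕ, ∀ n : ℕ, n1 ≤ n → c / m ^ n ≤ |x n - β|)
    (D C : ℝ) (hD : m < D) (hC : 0 ≤ C) : ∃ κ : ℝ, 0 < κ ∧ ∃ n0 : ℕ, ∀ n : ℕ, n0 ≤ n → ∀ M : ℕ,
      D ^ n ≤ (M : ℝ) → (M : ℝ) ≤ C ^ n → P κ M (x n) := by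
  have hD1 : 1 < D := by linarith
  have hD0 : 0 < D := by linarith
  have hm0 : 0 < m := by linarith
  have hLD : 0 < Real.log D := Real.log_pos hD1
  have hLm : 0 ≤ Real.log m := Real.log_nonneg hm
  have hLL : Real.log m < Real.log D := Real.log_lt_log hm0 hD
  obtain ⟨δ, hδE⟩ : ∃ δ : ℝ, δ = min (1 / 8) ((Real.log D - Real.log m) / (2 * Real.log D)) := ⟨_, rfl⟩
  have hδ : 0 < δ := by
    rw [hδE]
    exact lt_min (by norm_num) (div_pos (by linarith) (by positivity))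
  have hδ8 : δ ≤ 1 / 8 := by rw [hδE]; exact min_le_left _ _
  have hδD : δ * Real.log D ≤ (Real.log D - Real.log m) / 2 := by
    have h1 : δ ≤ (Real.log D - Real.log m) / (2 * Real.log D) := by rw [hδE]; exact min_le_right _ _
    rw [le_div_iff₀ (by positivity)] at h1
    linarith
  obtain ⟨κ, hκ, hκ1, M₀, hM₀, hgood⟩ := hP.1 δ hδ (by linarith)
  obtain ⟨n0, hn0⟩ := hR (max C 1) (Real.sqrt D) (by
    rw [show (1 : ℝ) = Real.sqrt 1 by simp]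
    exact Real.sqrt_lt_sqrt (by norm_num) hD1)
  -- `D ^ n` is large
  have hlim : Tendsto (fun n : ℕ => D ^ n) atTop atTop := tendsto_pow_atTop_atTop_of_one_lt hD1
  obtain ⟨n2, hn2⟩ := (eventually_atTop.1 (hlim.eventually_ge_atTop (M₀ : ℝ)))
  -- `(m D ^ (δ - 1)) ^ n` is small
  have hρ : m * D ^ (δ - 1) < 1 := by
    have h1 : m * D ^ (δ - 1) = Real.exp (Real.log m + Real.log D * (δ - 1)) := by
      rw [Real.exp_add, Real.exp_log hm0, Real.rpow_def_of_pos hD0]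
    rw [h1, Real.exp_lt_one_iff]
    nlinarith
  have hρ0 : 0 < m * D ^ (δ - 1) := by positivity
  have hlim2 : Tendsto (fun n : ℕ => (m * D ^ (δ - 1)) ^ n) atTop (𝓝 0) :=
    tendsto_pow_atTop_nhds_zero_of_lt_one hρ0.le hρ
  have key : ∃ n3 : ℕ, ∀ n : ℕ, n3 ≤ n → ∀ M : ℕ, D ^ n ≤ (M : ℝ) → (M : ℝ) ≤ C ^ n → ∀ q : ℕ, 1 ≤ q →
      (q : ℝ) ≤ (M : ℝ) ^ δ → ∀ a : ℤ, |(q : ℝ) * x n - a| ≤ (M : ℝ) ^ (δ - 1) → (a : ℝ) / q ≠ β := by
    rcases hL with hL | ⟨c, hc, n1, hn1⟩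
    · exact ⟨0, fun n _ M _ _ q hq _ a _ => by
        have := hL a q (by exact_mod_cast hq)
        rwa [Int.cast_natCast] at this⟩
    · obtain ⟨n3, hn3⟩ := eventually_atTop.1 (hlim2.eventually_lt_const hc)
      refine ⟨max n1 n3, fun n hn M hDM hMC q hq hqM a ha heq => ?_⟩
      have h1 := hn1 n ((le_max_left _ _).trans hn)
      have h2 := hn3 n ((le_max_right _ _).trans hn)
      have hq1 : (1 : ℝ) ≤ q := by exact_mod_cast hq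
      have hq0 : (0 : ℝ) < q := by linarith
      have e1 : (q : ℝ) * x n - a = q * (x n - β) := by
        rw [← heq]
        field_simp
      rw [e1, abs_mul, Nat.abs_cast] at ha
      have h3 : c / m ^ n ≤ (M : ℝ) ^ (δ - 1) := by
        calc c / m ^ n ≤ |x n - β| := h1
          _ ≤ q * |x n - β| := le_mul_of_one_le_left (abs_nonneg _) hq1
          _ ≤ _ := ha
      have h4 : (M : ℝ) ^ (δ - 1) ≤ (D ^ (δ - 1)) ^ n := by
        calc (M : ℝ) ^ (δ - 1) ≤ (D ^ n) ^ (δ - 1) :=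
              Real.rpow_le_rpow_of_nonpos (by positivity) hDM (by linarith)
          _ = (D ^ (δ - 1)) ^ n := by
              rw [← Real.rpow_natCast, ← Real.rpow_natCast, ← Real.rpow_mul hD0.le, ← Real.rpow_mul hD0.le,
                mul_comm]
      have h5 : c ≤ (m * D ^ (δ - 1)) ^ n := by
        rw [div_le_iff₀ (by positivity)] at h3
        rw [mul_pow, mul_comm]
        exact h3.trans (mul_le_mul_of_nonneg_right h4 (by positivity))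
      linarith
  obtain ⟨n3, hn3⟩ := key
  refine ⟨κ, hκ, max (max n0 n2) n3, fun n hn M hDM hMC => ?_⟩
  have hn0' := hn0 n (((le_max_left _ _).trans (le_max_left _ _)).trans hn)
  have hn2' := hn2 n (((le_max_right _ _).trans (le_max_left _ _)).trans hn)
  have hn3' := hn3 n ((le_max_right _ _).trans hn) M hDM hMC
  have hM1 : (1 : ℝ) ≤ M := (one_le_pow₀ hD1.le).trans hDM
  have hM0 : (0 : ℝ) < M := by linarith
  refine hgood M (by exact_mod_cast hn2'.trans hDM) _ ?_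
  rintro ⟨q, hq, hqM, a, ha⟩
  have hne := hn3' q hq hqM a ha
  have hq1 : (1 : ℝ) ≤ q := by exact_mod_cast hq
  have hq0 : (0 : ℝ) < q := by linarith
  have hqC : (q : ℝ) ≤ (max C 1) ^ n := by
    calc (q : ℝ) ≤ (M : ℝ) ^ δ := hqM
      _ ≤ (M : ℝ) ^ (1 : ℝ) := Real.rpow_le_rpow_of_exponent_le hM1 (by linarith)
      _ = M := Real.rpow_one _
      _ ≤ max C 1 ^ n := hMC.trans (pow_le_pow_left₀ hC (le_max_left _ _) n)
  have h1 := hn0' a q (by exact_mod_cast hq) (by rw [Int.cast_natCast]; exact hqC) (by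
    rw [Int.cast_natCast]; exact hne)
  rw [Int.cast_natCast] at h1
  have e1 : |x n - a / q| = |(q : ℝ) * x n - a| / q := by
    rw [eq_div_iff hq0.ne', mul_comm, ← Nat.abs_cast q, ← abs_mul, Nat.abs_cast]
    congr 1
    field_simp
  rw [e1] at h1
  have h2 : 1 / ((q : ℝ) ^ 2 * Real.sqrt D ^ n) < (M : ℝ) ^ (δ - 1) / q :=
    h1.trans_le (div_le_div_of_nonneg_right ha hq0.le)
  have hB0 : 0 < Real.sqrt D ^ n := pow_pos (Real.sqrt_pos.2 hD0) n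
  have h3 : 1 < (M : ℝ) ^ (δ - 1) * ((M : ℝ) ^ δ * Real.sqrt D ^ n) := by
    rw [div_lt_div_iff₀ (by positivity) hq0] at h2
    have h4 : (1 : ℝ) * q < (M : ℝ) ^ (δ - 1) * (q * Real.sqrt D ^ n) * q := by
      calc (1 : ℝ) * q < (M : ℝ) ^ (δ - 1) * ((q : ℝ) ^ 2 * Real.sqrt D ^ n) := h2
        _ = _ := by ring
    have h5 := lt_of_mul_lt_mul_right h4 hq0.le
    refine h5.trans_le ?_
    exact mul_le_mul_of_nonneg_left (mul_le_mul_of_nonneg_right hqM hB0.le) (by positivity)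
  have h4 : (M : ℝ) ^ (δ - 1) * (M : ℝ) ^ δ ≤ (D ^ n) ^ (-(1 / 2) : ℝ) := by
    rw [← Real.rpow_add hM0]
    calc (M : ℝ) ^ (δ - 1 + δ) ≤ (M : ℝ) ^ (-(1 / 2) : ℝ) :=
          Real.rpow_le_rpow_of_exponent_le hM1 (by linarith)
      _ ≤ (D ^ n) ^ (-(1 / 2) : ℝ) := Real.rpow_le_rpow_of_nonpos (by positivity) hDM (by norm_num)
  have h5 : (D ^ n) ^ (-(1 / 2) : ℝ) * Real.sqrt D ^ n = 1 := by
    rw [Real.sqrt_eq_rpow, ← Real.rpow_natCast, ← Real.rpow_natCast, ← Real.rpow_mul hD0.le,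
      ← Real.rpow_mul hD0.le, ← Real.rpow_add hD0]
    rw [show (n : ℝ) * -(1 / 2) + 1 / 2 * n = 0 by ring, Real.rpow_zero]
  have h6 : (M : ℝ) ^ (δ - 1) * ((M : ℝ) ^ δ * Real.sqrt D ^ n) ≤ 1 := by
    calc (M : ℝ) ^ (δ - 1) * ((M : ℝ) ^ δ * Real.sqrt D ^ n) = (M : ℝ) ^ (δ - 1) * (M : ℝ) ^ δ * Real.sqrt D ^ n := by
          ring
      _ ≤ (D ^ n) ^ (-(1 / 2) : ℝ) * Real.sqrt D ^ n := mul_le_mul_of_nonneg_right h4 hB0.le
      _ = 1 := h5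
  linarith

end Pool.Agent.Q47.DG.Abs
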