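import Pool.Agent.Q47.DG.Eng

set_option autoImplicit false

/-!
# Normality up to a multiple of `log X` digits if all places are good
-/

namespace Pool.Agent.Q47.DG

open Finset Pool.Agent.W226.MP Pool.Agent.TH869.LPD Filter

lemma occ_le (b k : ℕ) (w : Fin k → Fin b) (y : ℝ) (n l : ℕ) : occ b k w y n l ≤ l := by
  classical
  unfold occ
  refine (card_filter_le _ _).trans ?_
  rw [card_range]

lemma occ_add (b k : ℕ) (w : Fin k → Fin b) (y : ℝ) (n l m : ℕ) :
    occ b k w y n (l + m) = occ b k w y n l + occ b k w y (n + l) m := by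
  classical
  unfold occ
  rw [Finset.card_filter, Finset.card_filter, Finset.card_filter, Finset.sum_range_add]
  congr 1
  apply Finset.sum_congr rfl
  intro j _
  rw [add_assoc]

lemma tile (b k : ℕ) (hb : 2 ≤ b) (w : Fin k → Fin b) (y : ℝ) (l : ℕ) (e : ℝ) (M : ℕ)
    (h : ∀ n ≤ M, |(occ b k w y n l : ℝ) - l / (b:ℝ)^k| ≤ e) (t : ℕ) :
    ∀ n r : ℕ, n + l * t ≤ M + l →
    |(occ b k w y n (l * t + r) : ℝ) - (l * t + r : ℕ) / (b:ℝ)^k| ≤ t * e + r := by
  have hbr : (2:ℝ) ≤ b := by exact_mod_cast hb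
  have hbk : (1:ℝ) ≤ (b:ℝ)^k := one_le_pow₀ (by linarith)
  induction t with
  | zero =>
    intro n r _
    simp only [Nat.mul_zero, Nat.zero_add, Nat.cast_zero, zero_mul, zero_add]
    have h1 : (occ b k w y n r : ℝ) ≤ r := by exact_mod_cast occ_le b k w y n r
    have h2 : (0:ℝ) ≤ occ b k w y n r := Nat.cast_nonneg _
    have h3 : (r:ℝ) / (b:ℝ)^k ≤ r := div_le_self (Nat.cast_nonneg _) hbk
    have h4 : (0:ℝ) ≤ (r:ℝ) / (b:ℝ)^k := by positivity
    rw [abs_le]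
    constructor <;> linarith
  | succ t ih =>
    intro n r hn
    have e1 : l * (t + 1) + r = l + (l * t + r) := by ring
    rw [e1, occ_add]
    have h1 := h n (by
      have : l * (t + 1) = l * t + l := by ring
      omega)
    have h2 := ih (n + l) r (by
      have : l * (t + 1) = l * t + l := by ring
      omega)
    have e2 : ((occ b k w y n l + occ b k w y (n + l) (l * t + r) : ℕ) : ℝ) -
        ((l + (l * t + r) : ℕ) : ℝ) / (b:ℝ)^k =
        ((occ b k w y n l : ℝ) - l / (b:ℝ)^k) +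
        ((occ b k w y (n + l) (l * t + r) : ℝ) - ((l * t + r : ℕ) : ℝ) / (b:ℝ)^k) := by
      push_cast; ring
    rw [e2]
    refine (abs_add_le _ _).trans ?_
    push_cast at h2 ⊢
    linarith

/-- **All places.** -/
theorem all_places {ι : Type} (b k : ℕ) (hb : 2 ≤ b) (hk : 1 ≤ k) (A ε γ : ℝ) (hA : 0 < A)
    (hε : 0 < ε) (hγ : 0 < γ) :
    ∃ c : ℝ, 0 < c ∧ ∃ X0 : ℕ, ∀ X : ℕ, X0 ≤ X → ∀ (s : Finset ι) (v : ι → ℝ),
      (∀ D : ℕ, 1 ≤ D → (D:ℝ) ≤ (X:ℝ)^γ → ∀ n : ℕ, (n:ℝ) ≤ A * Real.log X → Good s v b D n) →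
      ∀ T : Finset ι, (∀ i ∈ T, i ∈ s ∧ ∃ (w : Fin k → Fin b) (n N : ℕ),
        (n:ℝ) + N ≤ A * Real.log X ∧
        ε * Real.log X < |(occ b k w (v i) n N : ℝ) - N / (b:ℝ)^k|) →
      (#T : ℝ) ≤ #s * (X:ℝ)^(-c) := by
  classical
  have hbr : (2:ℝ) ≤ b := by exact_mod_cast hb
  have hkr : (1:ℝ) ≤ k := by exact_mod_cast hk
  have hl2 : 0 < Real.log 2 := Real.log_pos (by norm_num)
  have hlb2 : Real.log 2 ≤ Real.log b := Real.log_le_log (by norm_num) hbr
  have hlb : 0 < Real.log b := by linarith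
  have hbk : (1:ℝ) ≤ (b:ℝ)^k := one_le_pow₀ (by linarith)
  obtain ⟨ε1, hε1⟩ : ∃ ε1, ε1 = min 1 (ε / (3 * A)) := ⟨_, rfl⟩
  have hε10 : 0 < ε1 := by rw [hε1]; positivity
  have hε11 : ε1 ≤ 1 := by rw [hε1]; exact min_le_left _ _
  have hε12 : ε1 * A ≤ ε / 3 := by
    have : ε1 ≤ ε / (3 * A) := by rw [hε1]; exact min_le_right _ _
    calc ε1 * A ≤ ε / (3 * A) * A := by gcongr
      _ = ε / 3 := by field_simp
  obtain ⟨γ1, hγ1⟩ : ∃ γ1, γ1 = min γ (ε / 3 * Real.log 2) := ⟨_, rfl⟩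
  have hγ10 : 0 < γ1 := by rw [hγ1]; positivity
  have hγ11 : γ1 ≤ γ := by rw [hγ1]; exact min_le_left _ _
  have hγ12 : γ1 ≤ ε / 3 * Real.log 2 := by rw [hγ1]; exact min_le_right _ _
  -- the exponents
  obtain ⟨c0, hc0⟩ : ∃ c0, c0 = ε1 ^ 2 / 4 * (γ1 / (k * Real.log b)) := ⟨_, rfl⟩
  have hc00 : 0 < c0 := by rw [hc0]; positivity
  obtain ⟨K, hK⟩ : ∃ K, K = 12 * k * (b:ℝ)^k *
    Real.exp (ε1 ^ 2 / 4 * (Real.log 2 / (k * Real.log b) + 2)) := ⟨_, rfl⟩
  have hK0 : 0 < K := by rw [hK]; positivity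
  have ev1 : ∀ᶠ x : ℝ in atTop, K * (A * Real.log x + 1) ≤ x ^ (c0 / 2) := by
    have h := (isLittleO_log_rpow_atTop (by positivity : (0:ℝ) < c0 / 2)).bound
      (by positivity : (0:ℝ) < 1 / (2 * K * A))
    have h2 := (tendsto_rpow_atTop (by positivity : (0:ℝ) < c0 / 2)).eventually_ge_atTop (2 * K)
    filter_upwards [h, h2, eventually_ge_atTop 1] with x hx hx2 hx1
    have hl : 0 ≤ Real.log x := Real.log_nonneg hx1
    rw [Real.norm_of_nonneg hl, Real.norm_of_nonneg (by positivity)] at hx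
    have h3 : K * A * Real.log x ≤ x ^ (c0/2) / 2 := by
      calc K * A * Real.log x ≤ K * A * (1 / (2 * K * A) * x ^ (c0/2)) := by gcongr
        _ = x ^ (c0/2) / 2 := by field_simp
    linarith
  have ev2 : ∀ᶠ x : ℝ in atTop,
      (2 * k + 3 * k * A / ε + 1) * Real.log b + Real.log 2 ≤ γ1 * Real.log x :=
    (Real.tendsto_log_atTop.const_mul_atTop hγ10).eventually_ge_atTop _
  obtain ⟨x0, hx0⟩ := eventually_atTop.1 ((ev1.and ev2).and (eventually_ge_atTop 2))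
  refine ⟨c0 / 2, by positivity, ⌈x0⌉₊, fun X hX s v hgood T hT => ?_⟩
  obtain ⟨⟨g1, g2⟩, g3⟩ := hx0 X ((Nat.le_ceil x0).trans (by exact_mod_cast hX))
  have hX0 : (0:ℝ) < X := by linarith
  have hX1 : (1:ℝ) ≤ X := by linarith
  have hlX : 0 < Real.log X := Real.log_pos (by linarith)
  have hY1 : (1:ℝ) ≤ (X:ℝ)^γ1 := Real.one_le_rpow hX1 hγ10.le
  obtain ⟨D, hD⟩ : ∃ D, D = ⌊(X:ℝ)^γ1⌋₊ := ⟨_, rfl⟩
  have hD1 : 1 ≤ D := by rw [hD]; exact Nat.floor_pos.2 hY1
  have hDr : (1:ℝ) ≤ D := by exact_mod_cast hD1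
  have hD2 : (D:ℝ) ≤ (X:ℝ)^γ1 := by rw [hD]; exact Nat.floor_le (by linarith)
  have hD3 : (X:ℝ)^γ1 ≤ 2 * D := by
    have := Nat.lt_floor_add_one ((X:ℝ)^γ1)
    rw [← hD] at this
    linarith
  have hlD1 : Real.log D ≤ γ1 * Real.log X := by
    have := Real.log_le_log (by linarith) hD2
    rwa [Real.log_rpow hX0] at this
  have hlD2 : γ1 * Real.log X ≤ Real.log 2 + Real.log D := by
    have := Real.log_le_log (by positivity) hD3
    rwa [Real.log_rpow hX0, Real.log_mul (by norm_num) (by linarith)] at this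
  obtain ⟨L, hL⟩ : ∃ L, L = Nat.log b D := ⟨_, rfl⟩
  have hL1 : b ^ L ≤ D := by rw [hL]; exact Nat.pow_log_le_self b (by omega)
  have hL2 : D < b ^ (L + 1) := by rw [hL]; exact Nat.lt_pow_succ_log_self (by omega) D
  have hL1r : L * Real.log b ≤ Real.log D := by
    rw [← Real.log_pow]
    exact Real.log_le_log (by positivity) (by exact_mod_cast hL1)
  have hL2r : Real.log D ≤ (L + 1) * Real.log b := by
    have h1 : (D:ℝ) ≤ (b:ℝ)^(L+1) := by exact_mod_cast hL2.le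
    have := Real.log_le_log (by linarith) h1
    rw [Real.log_pow] at this
    push_cast at this
    exact this
  have hLbig : 2 * k + 3 * k * A / ε + 1 ≤ (L:ℝ) + 1 := by
    have h1 : (2 * k + 3 * k * A / ε + 1) * Real.log b ≤ (L + 1) * Real.log b := by linarith
    exact le_of_mul_le_mul_right h1 hlb
  have hkL : k ≤ L := by
    have h1 : (0:ℝ) ≤ 3 * k * A / ε := by positivity
    have h2 : (k:ℝ) ≤ L := by linarith
    exact_mod_cast h2
  obtain ⟨l, hl⟩ : ∃ l, l = L + 1 - k := ⟨_, rfl⟩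
  have hl1 : (l:ℝ) = L + 1 - k := by
    rw [hl, Nat.cast_sub (by omega)]; push_cast; ring
  have hlpos : 0 < l := by omega
  have hlposr : (0:ℝ) < l := by exact_mod_cast hlpos
  have hlk : 3 * k * A / ε ≤ l := by rw [hl1]; linarith
  have hlX' : (l:ℝ) ≤ ε / 3 * Real.log X := by
    have h1 : (L:ℝ) * Real.log 2 ≤ ε / 3 * Real.log 2 * Real.log X := by
      calc (L:ℝ) * Real.log 2 ≤ L * Real.log b := by gcongr
        _ ≤ γ1 * Real.log X := by linarith
        _ ≤ _ := by gcongr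
    have h2 : (L:ℝ) ≤ ε / 3 * Real.log X := by
      have : (L:ℝ) * Real.log 2 ≤ (ε / 3 * Real.log X) * Real.log 2 := by linarith
      exact le_of_mul_le_mul_right this hl2
    rw [hl1]; linarith
  -- the exceptional sets
  let E : ℕ → Finset ι := fun n => s.filter (fun i => ∃ w : Fin k → Fin b,
    ε1 * (L + 1 - k : ℕ) + k <
      |(occ b k w (v i) n (L + 1 - k) : ℝ) - (L + 1 - k : ℕ) / (b : ℝ) ^ k|)
  have hE : ∀ n : ℕ, (n:ℝ) ≤ A * Real.log X → (#(E n) : ℝ) ≤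
      12 * k * (b:ℝ)^k * Real.exp (-(ε1 ^ 2 / 4) * ((L + 1 - k) / k : ℕ)) * #s := by
    intro n hn
    exact good_freq s v b D n hb hD1 (hgood D hD1 (hD2.trans
      (Real.rpow_le_rpow_of_exponent_le hX1 hγ11)) n hn) k L hk hkL hL1 ε1 hε10 hε11 (E n)
      (fun i hi => by simpa [E] using hi)
  have hsub : T ⊆ (range (⌊A * Real.log X⌋₊ + 1)).biUnion E := by
    intro i hi
    obtain ⟨his, w, n, N, hnN, hlt⟩ := hT i hi
    by_contra hcon
    have hall : ∀ m ≤ ⌊A * Real.log X⌋₊, |(occ b k w (v i) m l : ℝ) - l / (b:ℝ)^k| ≤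
        ε1 * l + k := by
      intro m hm
      by_contra h1
      push Not at h1
      apply hcon
      rw [mem_biUnion]
      refine ⟨m, mem_range.2 (by omega), ?_⟩
      simp only [E, mem_filter]
      refine ⟨his, w, ?_⟩
      rw [← hl]
      exact h1
    have hnN' : n + N ≤ ⌊A * Real.log X⌋₊ := by
      apply Nat.le_floor; push_cast; exact hnN
    have h1 := tile b k hb w (v i) l (ε1 * l + k) ⌊A * Real.log X⌋₊ hall (N / l) n (N % l) (by
      have := Nat.mul_div_le N l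
      omega)
    rw [Nat.div_add_mod] at h1
    have h2 : ((N / l : ℕ) : ℝ) * (ε1 * l + k) + (N % l : ℕ) ≤ ε * Real.log X := by
      have h3 : ((N / l : ℕ) : ℝ) * l ≤ A * Real.log X := by
        have h4 : (((N / l) * l : ℕ) : ℝ) ≤ N := by exact_mod_cast Nat.div_mul_le_self N l
        push_cast at h4
        have h5 : (0:ℝ) ≤ n := Nat.cast_nonneg _
        linarith
      have h4 : ((N % l : ℕ) : ℝ) ≤ l := by exact_mod_cast (Nat.mod_lt N hlpos).le
      have h5 : ((N / l : ℕ) : ℝ) * (ε1 * l) ≤ ε / 3 * Real.log X := by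
        calc ((N / l : ℕ) : ℝ) * (ε1 * l) = ε1 * (((N / l : ℕ) : ℝ) * l) := by ring
          _ ≤ ε1 * (A * Real.log X) := by gcongr
          _ = ε1 * A * Real.log X := by ring
          _ ≤ _ := by gcongr
      have h6 : ((N / l : ℕ) : ℝ) * k ≤ ε / 3 * Real.log X := by
        have h7 : ((N / l : ℕ) : ℝ) ≤ A * Real.log X / l := by
          rw [le_div_iff₀ hlposr]; exact h3
        have h8 : A * Real.log X / l * k ≤ ε / 3 * Real.log X := by
          rw [div_mul_eq_mul_div, div_le_iff₀ hlposr]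
          have h9 : A * k ≤ ε / 3 * l := by
            rw [div_le_iff₀ hε] at hlk
            linarith
          calc A * Real.log X * k = A * k * Real.log X := by ring
            _ ≤ ε / 3 * l * Real.log X := by gcongr
            _ = _ := by ring
        calc ((N / l : ℕ) : ℝ) * k ≤ A * Real.log X / l * k := by gcongr
          _ ≤ _ := h8
      linarith
    linarith
  have h1 : (#T : ℝ) ≤ ∑ n ∈ range (⌊A * Real.log X⌋₊ + 1), (#(E n) : ℝ) := by
    exact_mod_cast (card_le_card hsub).trans card_biUnion_le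
  have h2 : ∀ n ∈ range (⌊A * Real.log X⌋₊ + 1), (#(E n) : ℝ) ≤
      12 * k * (b:ℝ)^k * Real.exp (-(ε1 ^ 2 / 4) * ((L + 1 - k) / k : ℕ)) * #s := by
    intro n hn
    apply hE
    rw [mem_range, Nat.lt_succ_iff] at hn
    have h3 : (n:ℝ) ≤ ⌊A * Real.log X⌋₊ := by exact_mod_cast hn
    exact h3.trans (Nat.floor_le (by positivity))
  have hexp : Real.exp (-(ε1 ^ 2 / 4) * ((L + 1 - k) / k : ℕ)) ≤
      Real.exp (ε1 ^ 2 / 4 * (Real.log 2 / (k * Real.log b) + 2)) * (X:ℝ)^(-c0) := by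
    rw [Real.rpow_def_of_pos hX0, ← Real.exp_add]
    apply Real.exp_le_exp.2
    have h3 : (l:ℝ) / k - 1 ≤ ((L + 1 - k) / k : ℕ) := by
      rw [← hl]
      have h4 : (l:ℝ) < ((l / k : ℕ) + 1) * k := by
        have h5 := Nat.lt_div_mul_add (a := l) (by omega : 0 < k)
        have h6 : (l:ℝ) < (l / k : ℕ) * k + k := by exact_mod_cast h5
        linarith
      rw [sub_le_iff_le_add, div_le_iff₀ (by linarith)]
      exact h4.le
    have h4 : (γ1 * Real.log X - Real.log 2) / (k * Real.log b) - 2 ≤ (l:ℝ) / k - 1 := by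
      rw [hl1]
      have h5 : (γ1 * Real.log X - Real.log 2) / (k * Real.log b) ≤ (L + 1) / k := by
        rw [div_le_div_iff₀ (by positivity) (by positivity)]
        have h6 : γ1 * Real.log X - Real.log 2 ≤ (L + 1) * Real.log b := by linarith
        calc (γ1 * Real.log X - Real.log 2) * k ≤ ((L + 1) * Real.log b) * k := by gcongr
          _ = _ := by ring
      have h6 : ((L:ℝ) + 1 - k) / k = (L + 1) / k - 1 := by field_simp
      rw [h6]; linarith
    have h5 : (γ1 * Real.log X - Real.log 2) / (k * Real.log b) - 2 ≤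
        ((L + 1 - k) / k : ℕ) := h4.trans h3
    have h6 : ε1 ^ 2 / 4 * ((γ1 * Real.log X - Real.log 2) / (k * Real.log b) - 2) ≤
        ε1 ^ 2 / 4 * ((L + 1 - k) / k : ℕ) := by gcongr
    have h7 : ε1 ^ 2 / 4 * ((γ1 * Real.log X - Real.log 2) / (k * Real.log b) - 2) =
        Real.log X * c0 - ε1 ^ 2 / 4 * (Real.log 2 / (k * Real.log b) + 2) := by
      rw [hc0]; field_simp; ring
    linarith
  calc (#T : ℝ) ≤ ∑ n ∈ range (⌊A * Real.log X⌋₊ + 1), (#(E n) : ℝ) := h1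
    _ ≤ ∑ n ∈ range (⌊A * Real.log X⌋₊ + 1),
        12 * k * (b:ℝ)^k * Real.exp (-(ε1 ^ 2 / 4) * ((L + 1 - k) / k : ℕ)) * #s := sum_le_sum h2
    _ = (⌊A * Real.log X⌋₊ + 1) *
        (12 * k * (b:ℝ)^k * Real.exp (-(ε1 ^ 2 / 4) * ((L + 1 - k) / k : ℕ)) * #s) := by
      rw [sum_const, card_range, nsmul_eq_mul]; push_cast; ring
    _ ≤ (A * Real.log X + 1) * (12 * k * (b:ℝ)^k *
        (Real.exp (ε1 ^ 2 / 4 * (Real.log 2 / (k * Real.log b) + 2)) * (X:ℝ)^(-c0)) * #s) := by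
      have : (⌊A * Real.log X⌋₊ : ℝ) ≤ A * Real.log X := Nat.floor_le (by positivity)
      gcongr
    _ = #s * ((K * (A * Real.log X + 1)) * (X:ℝ)^(-c0)) := by rw [hK]; ring
    _ ≤ #s * ((X:ℝ)^(c0/2) * (X:ℝ)^(-c0)) := by gcongr
    _ = #s * (X:ℝ)^(-(c0/2)) := by
      rw [← Real.rpow_add hX0]; congr 2; ring

end Pool.Agent.Q47.DG
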