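import Pool.Agent.H807R2.Dav1
import Mathlib.NumberTheory.DiophantineApproximation.Basic

set_option autoImplicit false

/-!
# Bilinear exponential sums over two arbitrary sets
-/

namespace Pool.Agent.Q47.DG

open Finset Pool.Agent.H807R2.Dav

lemma conj_ee (x : ℝ) : (starRingEnd ℂ) (ee x) = ee (-x) := by
  unfold ee
  rw [← Complex.exp_conj]
  congr 1
  have h2 : (starRingEnd ℂ) 2 = 2 := map_ofNat (starRingEnd ℂ) 2
  rw [map_mul, map_mul, map_mul, Complex.conj_I, Complex.conj_ofReal, Complex.conj_ofReal, h2]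
  push_cast; ring

/-- the second moment over `a` -/
lemma second_moment (B : Finset ℕ) (ψ : ℕ → ℂ) (hψ : ∀ c, ‖ψ c‖ ≤ 1) (M : ℕ) (α : ℝ) :
    ∑ a ∈ Ico 1 (M+1), ‖∑ c ∈ B, ψ c * ee ((a * c : ℕ) * α)‖ ^ 2 ≤
      ∑ c ∈ B, ∑ c' ∈ B, KK M (((c:ℝ) - c') * α) := by
  have h1 : ∀ a : ℕ, ((‖∑ c ∈ B, ψ c * ee ((a * c : ℕ) * α)‖ ^ 2 : ℝ) : ℂ) =
      ∑ c ∈ B, ∑ c' ∈ B, ψ c * (starRingEnd ℂ) (ψ c') * ee (a * (((c:ℝ) - c') * α)) := by
    intro a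
    rw [Complex.ofReal_pow, ← Complex.mul_conj', map_sum, Finset.sum_mul_sum]
    apply Finset.sum_congr rfl; intro c _
    apply Finset.sum_congr rfl; intro c' _
    rw [map_mul, conj_ee]
    have : ee (a * (((c:ℝ) - c') * α)) = ee ((a * c : ℕ) * α) * ee (-((a * c' : ℕ) * α)) := by
      rw [← ee_add]; congr 1; push_cast; ring
    rw [this]; ring
  have h2 : ((∑ a ∈ Ico 1 (M+1), ‖∑ c ∈ B, ψ c * ee ((a * c : ℕ) * α)‖ ^ 2 : ℝ) : ℂ) =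
      ∑ c ∈ B, ∑ c' ∈ B, ψ c * (starRingEnd ℂ) (ψ c') *
        ∑ a ∈ Ico 1 (M+1), ee (a * (((c:ℝ) - c') * α)) := by
    rw [Complex.ofReal_sum]
    simp_rw [h1]
    rw [Finset.sum_comm]
    apply Finset.sum_congr rfl; intro c _
    rw [Finset.sum_comm]
    apply Finset.sum_congr rfl; intro c' _
    rw [Finset.mul_sum]
  have h3 : ∑ a ∈ Ico 1 (M+1), ‖∑ c ∈ B, ψ c * ee ((a * c : ℕ) * α)‖ ^ 2 =
      ‖((∑ a ∈ Ico 1 (M+1), ‖∑ c ∈ B, ψ c * ee ((a * c : ℕ) * α)‖ ^ 2 : ℝ) : ℂ)‖ := by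
    rw [Complex.norm_real, Real.norm_of_nonneg (by positivity)]
  rw [h3, h2]
  refine (norm_sum_le _ _).trans (Finset.sum_le_sum fun c _ => ?_)
  refine (norm_sum_le _ _).trans (Finset.sum_le_sum fun c' _ => ?_)
  rw [norm_mul, norm_mul, RCLike.norm_conj]
  have h4 := geo_bound 1 (M+1) (by omega) (M := (M:ℝ)) (by push_cast; linarith)
    (((c:ℝ) - c') * α)
  have h5 := norm_nonneg (∑ m ∈ Ico 1 (M+1), ee (m * (((c:ℝ) - c') * α)))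
  calc ‖ψ c‖ * ‖ψ c'‖ * ‖∑ m ∈ Ico 1 (M+1), ee (m * (((c:ℝ) - c') * α))‖
      ≤ 1 * 1 * ‖∑ m ∈ Ico 1 (M+1), ee (m * (((c:ℝ) - c') * α))‖ := by
        have := hψ c; have := hψ c'
        gcongr
    _ ≤ _ := by rw [one_mul, one_mul]; exact h4

/-- the bilinear bound -/
theorem bilinear (A B : Finset ℕ) (M H : ℕ) (hA : ∀ a ∈ A, 1 ≤ a ∧ a ≤ M)
    (hB : ∀ c ∈ B, 1 ≤ c ∧ c ≤ H) (φ ψ : ℕ → ℂ) (hφ : ∀ a, ‖φ a‖ ≤ 1) (hψ : ∀ c, ‖ψ c‖ ≤ 1)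
    (α : ℝ) (q : ℕ) (hq : 1 ≤ q) (r : ℤ) (hcop : IsCoprime r (q:ℤ))
    (hα : |α - r / q| ≤ 1 / (q:ℝ)^2) :
    ‖∑ i ∈ A ×ˢ B, φ i.1 * ψ i.2 * ee ((i.1 * i.2 : ℕ) * α)‖ ^ 2 ≤
      #A * #B * ((2 * H / q + 1) * (39 * M + 3 * q * (1 + Real.log q))) := by
  have hM0 : (0:ℝ) ≤ M := Nat.cast_nonneg _
  have e1 : ∑ i ∈ A ×ˢ B, φ i.1 * ψ i.2 * ee ((i.1 * i.2 : ℕ) * α) =
      ∑ a ∈ A, φ a * ∑ c ∈ B, ψ c * ee ((a * c : ℕ) * α) := by
    rw [Finset.sum_product]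
    apply Finset.sum_congr rfl; intro a _
    rw [Finset.mul_sum]
    apply Finset.sum_congr rfl; intro c _
    ring
  rw [e1]
  have h1 : ‖∑ a ∈ A, φ a * ∑ c ∈ B, ψ c * ee ((a * c : ℕ) * α)‖ ≤
      ∑ a ∈ A, ‖∑ c ∈ B, ψ c * ee ((a * c : ℕ) * α)‖ := by
    refine (norm_sum_le _ _).trans (Finset.sum_le_sum fun a _ => ?_)
    rw [norm_mul]
    calc ‖φ a‖ * ‖∑ c ∈ B, ψ c * ee ((a * c : ℕ) * α)‖ ≤
        1 * ‖∑ c ∈ B, ψ c * ee ((a * c : ℕ) * α)‖ := by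
          have := hφ a; gcongr
      _ = _ := one_mul _
  have h2 : (∑ a ∈ A, ‖∑ c ∈ B, ψ c * ee ((a * c : ℕ) * α)‖) ^ 2 ≤
      #A * ∑ a ∈ A, ‖∑ c ∈ B, ψ c * ee ((a * c : ℕ) * α)‖ ^ 2 :=
    sq_sum_le_card_mul_sum_sq
  have h3 : ∑ a ∈ A, ‖∑ c ∈ B, ψ c * ee ((a * c : ℕ) * α)‖ ^ 2 ≤
      ∑ a ∈ Ico 1 (M+1), ‖∑ c ∈ B, ψ c * ee ((a * c : ℕ) * α)‖ ^ 2 := by
    apply Finset.sum_le_sum_of_subset_of_nonneg
    · intro a ha
      rw [mem_Ico]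
      have := hA a ha
      omega
    · intro a _ _; positivity
  have h4 := second_moment B ψ hψ M α
  have h5 : ∑ c ∈ B, ∑ c' ∈ B, KK M (((c:ℝ) - c') * α) ≤
      #B * ((2 * H / q + 1) * (39 * M + 3 * q * (1 + Real.log q))) := by
    rw [← nsmul_eq_mul]
    apply Finset.sum_le_card_nsmul
    intro c hc
    have h6 := vino hq hcop hα hM0 (-(H:ℝ) * α) (2 * H)
    have h7 : ∑ c' ∈ B, KK M (((c:ℝ) - c') * α) ≤
        ∑ j ∈ range (2 * H), KK M (-(H:ℝ) * α + j * α) := by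
      have h8 : ∑ c' ∈ B, KK M (((c:ℝ) - c') * α) =
          ∑ j ∈ B.image (fun c' => H + c - c'), KK M (-(H:ℝ) * α + j * α) := by
        rw [Finset.sum_image]
        · apply Finset.sum_congr rfl
          intro c' hc'
          have := hB c' hc'
          congr 1
          rw [Nat.cast_sub (by omega)]
          push_cast; ring
        · intro c1 h1 c2 h2 h12
          have := hB c1 h1
          have := hB c2 h2
          simp only at h12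
          omega
      rw [h8]
      apply Finset.sum_le_sum_of_subset_of_nonneg
      · intro j hj
        obtain ⟨c', hc', rfl⟩ := Finset.mem_image.1 hj
        rw [mem_range]
        have := hB c' hc'
        have := hB c hc
        omega
      · intro j _ _; exact KK_nonneg hM0 _
    refine h7.trans (h6.trans (le_of_eq ?_))
    push_cast; ring
  calc ‖∑ a ∈ A, φ a * ∑ c ∈ B, ψ c * ee ((a * c : ℕ) * α)‖ ^ 2 ≤
      (∑ a ∈ A, ‖∑ c ∈ B, ψ c * ee ((a * c : ℕ) * α)‖) ^ 2 := by gcongr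
    _ ≤ #A * ∑ a ∈ A, ‖∑ c ∈ B, ψ c * ee ((a * c : ℕ) * α)‖ ^ 2 := h2
    _ ≤ #A * (#B * ((2 * H / q + 1) * (39 * M + 3 * q * (1 + Real.log q)))) := by
        gcongr
        exact h3.trans (h4.trans h5)
    _ = _ := by ring

open Filter in
/-- **Products of two sets, minor arcs.** -/
theorem product_minor (δ : ℝ) (hδ : 0 < δ) : ∃ X0 : ℕ, ∀ X : ℕ, X0 ≤ X →
    ∀ A B : Finset ℕ, (∀ a ∈ A, 1 ≤ a ∧ a ≤ X) → (∀ c ∈ B, 1 ≤ c ∧ c ≤ X) →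
    (X:ℝ) ^ (1 + δ) ≤ #A * #B →
    ∀ φ ψ : ℕ → ℂ, (∀ a, ‖φ a‖ ≤ 1) → (∀ c, ‖ψ c‖ ≤ 1) → ∀ α : ℝ,
    (∀ u : ℕ, 1 ≤ u → (u:ℝ) ≤ (X:ℝ) ^ (1 - δ/4) → ∀ t : ℤ, 1 / (X:ℝ) ≤ |u * α - t|) →
    ‖∑ i ∈ A ×ˢ B, φ i.1 * ψ i.2 * ee ((i.1 * i.2 : ℕ) * α)‖ ≤
      #A * #B * (X:ℝ) ^ (-(δ/4)) := by
  have ev1 : ∀ᶠ x : ℝ in atTop, 3 * (42 + 3 * Real.log x) ≤ x ^ (δ/4) := by
    have h := (isLittleO_log_rpow_atTop (by positivity : (0:ℝ) < δ/4)).bound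
      (by norm_num : (0:ℝ) < 1/18)
    have h2 := (tendsto_rpow_atTop (by positivity : (0:ℝ) < δ/4)).eventually_ge_atTop 252
    filter_upwards [h, h2, eventually_ge_atTop 1] with x hx hx2 hx1
    have hl : 0 ≤ Real.log x := Real.log_nonneg hx1
    rw [Real.norm_of_nonneg hl, Real.norm_of_nonneg (by positivity)] at hx
    linarith
  obtain ⟨x0, hx0⟩ := eventually_atTop.1 (ev1.and (eventually_ge_atTop 4))
  refine ⟨⌈x0⌉₊, fun X hX A B hA hB hAB φ ψ hφ hψ α hα => ?_⟩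
  obtain ⟨g1, g2⟩ := hx0 X ((Nat.le_ceil x0).trans (by exact_mod_cast hX))
  have hX0 : (0:ℝ) < X := by linarith
  have hX1 : (1:ℝ) ≤ X := by linarith
  have hXn : 0 < X := by exact_mod_cast hX0
  have hlX : 0 ≤ Real.log X := Real.log_nonneg hX1
  obtain ⟨r, hr1, hr2⟩ := Real.exists_rat_abs_sub_le_and_den_le α hXn
  set q : ℕ := r.den with hq
  have hqpos : 0 < q := r.den_pos
  have hq1 : (1:ℝ) ≤ q := by exact_mod_cast hqpos
  have hq0 : (0:ℝ) < q := by linarith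
  have hrq : (r:ℝ) = (r.num : ℝ) / q := by
    rw [hq]; exact_mod_cast (Rat.num_div_den r).symm
  have hqX : (q:ℝ) ≤ X := by exact_mod_cast hr2
  rw [hrq] at hr1
  have hbig : (X:ℝ) ^ (1 - δ/4) < q := by
    by_contra hcon
    push Not at hcon
    have h1 := hα q hqpos hcon r.num
    have h2 : |(q:ℝ) * α - r.num| ≤ 1 / (X + 1) := by
      have e1 : (q:ℝ) * α - r.num = q * (α - r.num / q) := by field_simp
      rw [e1, abs_mul, abs_of_pos hq0]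
      calc (q:ℝ) * |α - r.num / q| ≤ q * (1 / ((X + 1) * q)) := by gcongr
        _ = 1 / (X + 1) := by field_simp
    have h3 : 1 / ((X:ℝ) + 1) < 1 / X := one_div_lt_one_div_of_lt (by linarith) (by linarith)
    linarith
  have hdir : |α - r.num / q| ≤ 1 / (q:ℝ)^2 := by
    refine hr1.trans ?_
    apply one_div_le_one_div_of_le (by positivity)
    rw [sq]; gcongr; linarith
  have hcop : IsCoprime r.num (q:ℤ) := by
    rw [Int.isCoprime_iff_nat_coprime]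
    simpa [hq] using r.reduced
  have h1 := bilinear A B X X hA hB φ ψ hφ hψ α q hqpos r.num hcop hdir
  have hU0 : 0 < (X:ℝ) ^ (1 - δ/4) := by positivity
  have h2 : (2 * (X:ℝ) / q + 1) * (39 * X + 3 * q * (1 + Real.log q)) ≤ (X:ℝ) ^ (1 + δ/2) := by
    have h3 : (X:ℝ) / q ≤ (X:ℝ)^(δ/4) := by
      rw [div_le_iff₀ hq0]
      calc (X:ℝ) = (X:ℝ)^(δ/4) * (X:ℝ)^(1 - δ/4) := by
            rw [← Real.rpow_add hX0]; simp
        _ ≤ (X:ℝ)^(δ/4) * q := by gcongr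
    have h4 : 1 ≤ (X:ℝ)^(δ/4) := Real.one_le_rpow hX1 (by positivity)
    have h5 : Real.log q ≤ Real.log X := Real.log_le_log hq0 hqX
    have h6 : 0 ≤ Real.log q := Real.log_nonneg hq1
    have h7 : 2 * (X:ℝ) / q + 1 ≤ 3 * (X:ℝ)^(δ/4) := by
      rw [mul_div_assoc]; linarith
    calc (2 * (X:ℝ) / q + 1) * (39 * X + 3 * q * (1 + Real.log q)) ≤
        (3 * (X:ℝ)^(δ/4)) * (39 * X + 3 * X * (1 + Real.log X)) := by gcongr
      _ = (X:ℝ)^(δ/4) * X * (3 * (42 + 3 * Real.log X)) := by ring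
      _ ≤ (X:ℝ)^(δ/4) * X * (X:ℝ)^(δ/4) := by gcongr
      _ = (X:ℝ) ^ (1 + δ/2) := by
        nth_rewrite 2 [← Real.rpow_one (X:ℝ)]
        rw [← Real.rpow_add hX0, ← Real.rpow_add hX0]
        congr 1; ring
  have hAB0 : 0 ≤ (#A:ℝ) * #B := by positivity
  have h3 : ‖∑ i ∈ A ×ˢ B, φ i.1 * ψ i.2 * ee ((i.1 * i.2 : ℕ) * α)‖ ^ 2 ≤
      (#A * #B * (X:ℝ) ^ (-(δ/4))) ^ 2 := by
    refine h1.trans ?_
    calc (#A:ℝ) * #B * ((2 * X / q + 1) * (39 * X + 3 * q * (1 + Real.log q)))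
        ≤ (#A:ℝ) * #B * (X:ℝ) ^ (1 + δ/2) := by gcongr
      _ = (#A:ℝ) * #B * ((X:ℝ) ^ (1 + δ) * (X:ℝ)^(-(δ/2))) := by
        rw [← Real.rpow_add hX0]; congr 2; ring
      _ ≤ (#A:ℝ) * #B * ((#A * #B) * (X:ℝ)^(-(δ/2))) := by gcongr
      _ = _ := by
        have : (X:ℝ)^(-(δ/2)) = ((X:ℝ) ^ (-(δ/4)))^2 := by
          rw [← Real.rpow_natCast, ← Real.rpow_mul hX0.le]; congr 1; push_cast; ring
        rw [this]; ring
  exact le_of_sq_le_sq h3 (by positivity)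

end Pool.Agent.Q47.DG
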