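import Pool.Agent.TH869.LPD.All

set_option autoImplicit false

/-!
# Digits of a finite family of real numbers with a good bound for exponential sums
-/

namespace Pool.Agent.Q47.DG

open Finset Pool.Agent.W226.MP Pool.Agent.TH869.LPD Pool.Agent.H332R2.Lit

/-- enumeration of a finite family -/
theorem enum {ι : Type} (s : Finset ι) (v : ι → ℝ) : ∃ z : ℕ → ℝ,
    ∀ (M : Type) [AddCommMonoid M] (F : ℝ → M), ∑ l ∈ range #s, F (z l) = ∑ i ∈ s, F (v i) := by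
  classical
  refine ⟨fun l => if h : l < #s then v (s.equivFin.symm ⟨l, h⟩) else 0, fun M _ F => ?_⟩
  rw [Finset.sum_range]
  rw [← Finset.sum_coe_sort s]
  apply Fintype.sum_equiv s.equivFin.symm
  intro x
  simp

/-- counting in an enumeration -/
theorem enum_card {ι : Type} (s : Finset ι) (v : ι → ℝ) (z : ℕ → ℝ)
    (hz : ∀ (M : Type) [AddCommMonoid M] (F : ℝ → M),
      ∑ l ∈ range #s, F (z l) = ∑ i ∈ s, F (v i)) (P : ℝ → Prop)
    {d1 : DecidablePred fun l => P (z l)} {d2 : DecidablePred fun i => P (v i)} :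
    #(@Finset.filter ℕ (fun l => P (z l)) d1 (range #s)) =
      #(@Finset.filter ι (fun i => P (v i)) d2 s) := by
  classical
  rw [Finset.card_filter, Finset.card_filter]
  have h := hz ℕ (fun t => if P t then 1 else 0)
  convert h

/-- the exponential sums of the family at the place `n` are small -/
def Good {ι : Type} (s : Finset ι) (v : ι → ℝ) (b D n : ℕ) : Prop :=
  ∀ h : ℤ, h ≠ 0 → |h| < ((D ^ 3 : ℕ) : ℤ) →
    ‖∑ i ∈ s, e (h * ((b:ℝ) ^ n * v i))‖ ≤ #s / (D:ℝ) ^ 4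

open Classical in
/-- discrepancy -/
theorem good_disc {ι : Type} (s : Finset ι) (v : ι → ℝ) (b D n : ℕ) (hD : 1 ≤ D)
    (hg : Good s v b D n) (α β : ℝ) (hα : 0 ≤ α) (hαβ : α ≤ β) (hβ : β ≤ 1) :
    |(#{i ∈ s | α ≤ Int.fract ((b:ℝ)^n * v i) ∧ Int.fract ((b:ℝ)^n * v i) < β} : ℝ) -
      (β - α) * #s| ≤ 5 * #s / D := by
  obtain ⟨z, hz⟩ := enum s v
  have hDr : (1:ℝ) ≤ D := by exact_mod_cast hD
  have h1 := disc D hD (fun l => (b:ℝ)^n * z l) #s (#s / (D:ℝ)^4) (by positivity) (by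
    intro h h0 hh
    have h2 := hz ℂ (fun t => e (h * ((b:ℝ)^n * t)))
    rw [h2]
    exact hg h h0 hh) α β hα hαβ hβ
  have h4 : 4 * (#s:ℝ) / D + (D:ℝ)^3 * (#s / (D:ℝ)^4) = 5 * #s / D := by
    field_simp; ring
  rw [h4] at h1
  rw [← enum_card s v z hz (fun t => α ≤ Int.fract ((b:ℝ)^n * t) ∧
    Int.fract ((b:ℝ)^n * t) < β)]
  exact h1

/-- the cells of the enumeration -/
theorem good_cell {ι : Type} (s : Finset ι) (v : ι → ℝ) (z : ℕ → ℝ)
    (hz : ∀ (M : Type) [AddCommMonoid M] (F : ℝ → M),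
      ∑ l ∈ range #s, F (z l) = ∑ i ∈ s, F (v i)) (b D n : ℕ) (hb : 2 ≤ b)
    (hD : 1 ≤ D) (hg : Good s v b D n) (L : ℕ) (hL : b ^ L ≤ D) :
    ∀ y < b ^ L, (((range #s).filter (fun m : ℕ =>
      ⌊Int.fract (z m * (b:ℝ)^n) * ((b ^ L : ℕ) : ℝ)⌋₊ = y)).card : ℝ) ≤ 6 * #s / (b:ℝ)^L := by
  classical
  have hDr : (1:ℝ) ≤ D := by exact_mod_cast hD
  have hbr : (2:ℝ) ≤ b := by exact_mod_cast hb
  have hbL : (0:ℝ) < (b:ℝ)^L := by positivity
  have hLr : (b:ℝ)^L ≤ D := by exact_mod_cast hL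
  intro y hy
  have hy' : (y:ℝ) + 1 ≤ (b:ℝ)^L := by exact_mod_cast hy
  rw [cell_arc #s b L n (by omega), cntArc_eq]
  have h1 := good_disc s v b D n hD hg (y / (b:ℝ)^L) ((y+1) / (b:ℝ)^L) (by positivity)
    (by gcongr; linarith) (by rw [div_le_one hbL]; exact hy')
  rw [← enum_card s v z hz (fun t => (y / (b:ℝ)^L) ≤ Int.fract ((b:ℝ)^n * t) ∧
    Int.fract ((b:ℝ)^n * t) < ((y+1) / (b:ℝ)^L))] at h1
  have h2 := (abs_le.1 h1).2
  have h4 : (((y:ℝ)+1) / (b:ℝ)^L - y / (b:ℝ)^L) * #s = #s / (b:ℝ)^L := by ring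
  rw [h4] at h2
  have h5 : 5 * (#s:ℝ) / D ≤ 5 * #s / (b:ℝ)^L := by gcongr
  have h6 : 6 * (#s:ℝ) / (b:ℝ)^L = #s / (b:ℝ)^L + 5 * #s / (b:ℝ)^L := by ring
  rw [h6]
  have h7 : (((range #s).filter (fun l : ℕ => (y / (b:ℝ)^L) ≤ Int.fract ((b:ℝ)^n * z l) ∧
    Int.fract ((b:ℝ)^n * z l) < ((y+1) / (b:ℝ)^L))).card : ℝ) ≤ #s / (b:ℝ)^L + 5 * #s / D := by
    linarith
  exact h7.trans (by linarith)

/-- words in a window -/
theorem good_freq {ι : Type} (s : Finset ι) (v : ι → ℝ) (b D n : ℕ) (hb : 2 ≤ b)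
    (hD : 1 ≤ D) (hg : Good s v b D n) (k L : ℕ) (hk : 1 ≤ k) (hkL : k ≤ L) (hL : b ^ L ≤ D)
    (ε : ℝ) (hε : 0 < ε) (hε1 : ε ≤ 1) (T : Finset ι) (hT : ∀ i ∈ T, i ∈ s ∧ ∃ w : Fin k → Fin b,
      ε * (L + 1 - k : ℕ) + k <
        |(occ b k w (v i) n (L + 1 - k) : ℝ) - (L + 1 - k : ℕ) / (b : ℝ) ^ k|) :
    (#T : ℝ) ≤ 12 * k * (b:ℝ)^k * Real.exp (-(ε ^ 2 / 4) * ((L + 1 - k) / k : ℕ)) * #s := by
  classical
  obtain ⟨z, hz⟩ := enum s v
  have hbr : (2:ℝ) ≤ b := by exact_mod_cast hb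
  have hbL : (0:ℝ) < (b:ℝ)^L := by positivity
  have hcell := good_cell s v z hz b D n hb hD hg L hL
  let P : ℝ → Prop := fun t => ∃ w : Fin k → Fin b, ε * (L + 1 - k : ℕ) + k <
        |(occ b k w t n (L + 1 - k) : ℝ) - (L + 1 - k : ℕ) / (b : ℝ) ^ k|
  have hTs : #T ≤ #{l ∈ range #s | P (z l)} := by
    rw [enum_card s v z hz P]
    apply card_le_card
    intro i hi
    exact mem_filter.2 (hT i hi)
  have h1 := freqG b k L hb hk hkL n #s z (6 * #s / (b:ℝ)^L) (by positivity) hcell ε hε hε1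
    ((range #s).filter (fun l : ℕ => P (z l))) (by
      intro m hm
      rw [Finset.mem_filter, Finset.mem_range] at hm
      obtain ⟨hmM, w, hw⟩ := hm
      refine ⟨hmM, ext b k w, ext_lt b k hb w, ?_⟩
      have e1 : ((range (L + 1 - k)).filter (fun j =>
          ∀ s' < k, ⌊(z m) * (b : ℝ) ^ (n + j + s' + 1)⌋ % (b : ℤ) = ext b k w s')).card
          = occ b k w (z m) n (L + 1 - k) := by
        unfold occ
        congr 1
        apply Finset.filter_congr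
        intro j _
        exact (occursAt_iff b k w (z m) (n + j)).symm
      rw [e1]
      exact hw)
  have h2 : (b : ℝ) ^ L * (6 * #s / (b:ℝ)^L) = 6 * #s := by field_simp
  rw [h2] at h1
  have h3 : (#T : ℝ) ≤ #{l ∈ range #s | P (z l)} := by exact_mod_cast hTs
  refine h3.trans (h1.trans (le_of_eq ?_))
  ring

/-- words which occur only finitely often -/
theorem good_inf {ι : Type} (s : Finset ι) (v : ι → ℝ) (b D : ℕ) (hb : 2 ≤ b)
    (hD : 1 ≤ D) (hg : ∀ S : ℕ, ∃ n : ℕ, S ≤ n ∧ Good s v b D n) (k : ℕ) (hk : 1 ≤ k)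
    (T : Finset ι) (hT : ∀ i ∈ T, i ∈ s ∧ ∃ w : Fin k → Fin b,
      {p : ℕ | OccursAt b k w (v i) p}.Finite) :
    (#T : ℝ) ≤ 12 * (b:ℝ)^k * #s * (D:ℝ) ^ (-(1 / (2 * k * (b:ℝ)^k * Real.log b))) := by
  classical
  have hbr : (2:ℝ) ≤ b := by exact_mod_cast hb
  have hDr : (1:ℝ) ≤ D := by exact_mod_cast hD
  have hkr : (1:ℝ) ≤ k := by exact_mod_cast hk
  have hlb : 0 < Real.log b := Real.log_pos (by linarith)
  have hlD : 0 ≤ Real.log D := Real.log_nonneg hDr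
  have hbk : (1:ℝ) ≤ (b:ℝ)^k := one_le_pow₀ (by linarith)
  set E : ℝ := 1 / (2 * k * (b:ℝ)^k * Real.log b) with hE
  set m : ℕ := ⌊Real.log D / (k * Real.log b)⌋₊ with hm
  have hm1 : (m:ℝ) ≤ Real.log D / (k * Real.log b) := Nat.floor_le (by positivity)
  have hm2 : Real.log D / (k * Real.log b) < m + 1 := Nat.lt_floor_add_one _
  have hL : b ^ (k * m) ≤ D := by
    have h1 : (b:ℝ) ^ (k*m) ≤ D := by
      rw [← Real.log_le_log_iff (by positivity) (by positivity), Real.log_pow]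
      rw [le_div_iff₀ (by positivity)] at hm1
      push_cast
      linarith
    exact_mod_cast h1
  have hexp : Real.exp (-(m / (2 * (b:ℝ) ^ k))) ≤ 2 * (D:ℝ)^(-E) := by
    have h5 : (D:ℝ)^(-E) = Real.exp (-(E * Real.log D)) := by
      rw [Real.rpow_def_of_pos (by positivity)]
      congr 1; ring
    have h6 : -(m / (2 * (b:ℝ) ^ k)) ≤ 1/2 + -(E * Real.log D) := by
      have h7 : E * Real.log D = Real.log D / (k * Real.log b) / (2 * (b:ℝ)^k) := by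
        rw [hE]; field_simp
      have h8 : Real.log D / (k * Real.log b) / (2 * (b:ℝ)^k) ≤ (m+1) / (2 * (b:ℝ)^k) := by
        gcongr
      have h9 : ((m:ℝ)+1) / (2 * (b:ℝ)^k) = m / (2 * (b:ℝ)^k) + 1 / (2 * (b:ℝ)^k) := by ring
      have h10 : 1 / (2 * (b:ℝ)^k) ≤ 1/2 := by
        rw [div_le_div_iff₀ (by positivity) (by norm_num)]
        linarith
      rw [h7]; linarith
    have h7 : Real.exp (1/2) ≤ 2 := by
      have h8 := Real.exp_one_lt_d9
      have h9 : Real.exp (1/2) * Real.exp (1/2) = Real.exp 1 := by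
        rw [← Real.exp_add]; norm_num
      nlinarith [Real.exp_pos (1/2)]
    calc Real.exp (-(m / (2 * (b:ℝ) ^ k))) ≤ Real.exp (1/2 + -(E * Real.log D)) :=
          Real.exp_le_exp.2 h6
      _ = Real.exp (1/2) * (D:ℝ)^(-E) := by rw [Real.exp_add, h5]
      _ ≤ 2 * (D:ℝ)^(-E) := by gcongr
  obtain ⟨z, hz⟩ := enum s v
  let P : (Fin k → Fin b) → ℝ → Prop := fun w t => {p : ℕ | OccursAt b k w t p}.Finite
  have hTw : ∀ w : Fin k → Fin b, (#{i ∈ s | P w (v i)} : ℝ) ≤ 12 * #s * (D:ℝ)^(-E) := by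
    intro w
    rw [← enum_card s v z hz (P w)]
    have h2 : ∀ l ∈ (range #s).filter (fun l => P w (z l)),
        ∃ n0 : ℕ, ∀ p : ℕ, n0 ≤ p → ¬ OccursAt b k w (z l) p := by
      intro l hl
      obtain ⟨n0, hn0⟩ := (mem_filter.1 hl).2.bddAbove
      refine ⟨n0 + 1, fun p hp hcon => ?_⟩
      have := hn0 hcon
      omega
    choose! n0 hn0 using h2
    obtain ⟨n, hn1, hn2⟩ := hg (((range #s).filter (fun l => P w (z l))).sup n0)
    have h1 := avoidG b k m hb hk n #s z (6 * #s / (b:ℝ)^(k*m)) (by positivity)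
      (good_cell s v z hz b D n hb hD hn2 (k*m) hL) w ((range #s).filter (fun l => P w (z l))) (by
        intro l hl
        refine ⟨Finset.mem_range.1 (mem_filter.1 hl).1, fun u _ => ?_⟩
        apply hn0 l hl
        have := Finset.le_sup (f := n0) hl
        omega)
    have h3 : (b : ℝ) ^ (k*m) * (6 * #s / (b:ℝ)^(k*m)) = 6 * #s := by field_simp
    rw [h3] at h1
    refine h1.trans ?_
    calc Real.exp (-(m / (2 * (b:ℝ) ^ k))) * (6 * #s) ≤ (2 * (D:ℝ)^(-E)) * (6 * #s) := by gcongr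
      _ = _ := by ring
  have h5 : #T ≤ ∑ w : Fin k → Fin b, #{i ∈ s | P w (v i)} := by
    refine (card_le_card ?_).trans card_biUnion_le
    intro i hi
    obtain ⟨hi1, w, hw⟩ := hT i hi
    rw [mem_biUnion]
    exact ⟨w, mem_univ _, mem_filter.2 ⟨hi1, hw⟩⟩
  have h6 : (#T : ℝ) ≤ ∑ w : Fin k → Fin b, (#{i ∈ s | P w (v i)} : ℝ) := by exact_mod_cast h5
  refine h6.trans ((sum_le_sum fun w _ => hTw w).trans ?_)
  rw [sum_const, card_univ, Fintype.card_fun, Fintype.card_fin, Fintype.card_fin, nsmul_eq_mul]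
  push_cast
  apply le_of_eq
  ring

/-- **Good places of multiples of a number with finite irrationality exponent.**
`s` a finite family of integers `a i` with small exponential sums on the minor arcs, `f` any
bounded twist. -/
theorem places {ι : Type} (s : Finset ι) (a : ι → ℤ) (y : ι → ℝ) (x κ c0 : ℝ) (hκ : 0 < κ)
    (hc0 : 0 < c0) (hx : ∀ q : ℕ, 1 ≤ q → ∀ p : ℤ, c0 ≤ (q : ℝ) ^ κ * |q * x - p|)
    (b : ℕ) (hb : 2 ≤ b) (D : ℕ) (hD : 1 ≤ D) (U τ : ℝ) (hU : 1 ≤ U) (hτ : 0 < τ)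
    (hb1 : (b + 1) * (U * (D:ℝ)^3) * τ ≤ 1)
    (hminor : ∀ h : ℤ, ∀ n : ℕ, ∀ α : ℝ,
      (∀ u : ℕ, 1 ≤ u → (u:ℝ) ≤ U → ∀ t : ℤ, τ ≤ |u * α - t|) →
      ‖∑ i ∈ s, e (h * ((b:ℝ)^n * y i) + a i * α)‖ ≤ #s / (D:ℝ)^4) (S : ℕ) :
    ∃ n : ℕ, S ≤ n ∧ (n:ℝ) ≤ (1 + κ) * S + κ * (Real.log (U * (D:ℝ)^3) / Real.log b) +
      (|Real.log c0| / Real.log 2 + 1) ∧ Good s (fun i => y i + a i * x) b D n := by
  have hDr : (1:ℝ) ≤ D := by exact_mod_cast hD
  have hD3 : (1:ℝ) ≤ (D:ℝ)^3 := one_le_pow₀ hDr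
  obtain ⟨n, h1, h2, h3⟩ := good_place x κ c0 hκ hc0 hx b hb 1 one_ne_zero (U * (D:ℝ)^3) τ
    (by nlinarith) hτ hb1 S
  refine ⟨n, h1, ?_, ?_⟩
  · simpa using h2
  · intro h h0 hh
    have h4 := hminor h n (h * (b:ℝ)^n * x) (by
      intro u hu1 hu2 t
      by_contra hcon
      push Not at hcon
      apply h3
      rcases lt_or_gt_of_ne h0 with hneg | hpos
      · refine ⟨u * h.natAbs, Nat.mul_pos hu1 (Int.natAbs_pos.2 h0), ?_, -t, ?_⟩
        · push_cast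
          have e1 : ((h.natAbs : ℕ):ℝ) = |(h:ℝ)| := by rw [Nat.cast_natAbs, Int.cast_abs]
          have e2 : |(h:ℝ)| ≤ (D:ℝ)^3 := by
            have : |h| ≤ ((D^3 : ℕ) : ℤ) := hh.le
            exact_mod_cast this
          try rw [e1]
          gcongr
        · have e1 : ((h.natAbs : ℕ):ℝ) = -(h:ℝ) := by
            rw [Nat.cast_natAbs, Int.cast_abs, abs_of_neg (by exact_mod_cast hneg)]
          have e2 : ((u * h.natAbs : ℕ):ℝ) * (b:ℝ)^n * (((1:ℤ):ℝ) * x) - ((-t : ℤ):ℝ) =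
              -((u:ℝ) * (h * (b:ℝ)^n * x) - t) := by
            rw [Nat.cast_mul, e1]; push_cast; ring
          rw [e2, abs_neg]
          exact hcon
      · refine ⟨u * h.natAbs, Nat.mul_pos hu1 (Int.natAbs_pos.2 h0), ?_, t, ?_⟩
        · push_cast
          have e1 : ((h.natAbs : ℕ):ℝ) = |(h:ℝ)| := by rw [Nat.cast_natAbs, Int.cast_abs]
          have e2 : |(h:ℝ)| ≤ (D:ℝ)^3 := by
            have : |h| ≤ ((D^3 : ℕ) : ℤ) := hh.le
            exact_mod_cast this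
          try rw [e1]
          gcongr
        · have e1 : ((h.natAbs : ℕ):ℝ) = (h:ℝ) := by
            rw [Nat.cast_natAbs, Int.cast_abs, abs_of_pos (by exact_mod_cast hpos)]
          have e2 : ((u * h.natAbs : ℕ):ℝ) * (b:ℝ)^n * (((1:ℤ):ℝ) * x) - ((t : ℤ):ℝ) =
              ((u:ℝ) * (h * (b:ℝ)^n * x) - t) := by
            rw [Nat.cast_mul, e1]; push_cast; ring
          rw [e2]
          exact hcon)
    refine le_trans (le_of_eq ?_) h4
    congr 1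
    apply Finset.sum_congr rfl
    intro i _
    congr 1
    ring

end Pool.Agent.Q47.DG
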