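import Pool.Agent.Q47.DG.Eng
import Pool.Agent.Q29.EqWeyl

set_option autoImplicit false

/-!
# Uniform distribution of `b x a ^ k c + R_c(a) + y_a` for two dense sets
-/

namespace Pool.Agent.Q47.DG

open Finset Filter Polynomial
open Pool.Agent.H469R2.NK (e norm_e e_add)

lemma conj_e (x : ℝ) : (starRingEnd ℂ) (e x) = e (-x) := by
  unfold e
  rw [← Complex.exp_conj, map_mul, Complex.conj_I, Complex.conj_ofReal]
  congr 1
  push_cast; ring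

/-- the square of a sum of characters -/
lemma sq_sum (B : Finset ℕ) (f : ℕ → ℝ) :
    ((‖∑ c ∈ B, e (f c)‖ ^ 2 : ℝ) : ℂ) = ∑ c ∈ B, ∑ c' ∈ B, e (f c - f c') := by
  rw [Complex.ofReal_pow, ← Complex.mul_conj', map_sum, Finset.sum_mul_sum]
  apply Finset.sum_congr rfl; intro c _
  apply Finset.sum_congr rfl; intro c' _
  rw [conj_e, ← e_add]
  congr 1

/-- second moments in short blocks -/
lemma block_moment (M : ℕ) (B : Finset ℕ) (F : ℕ → ℕ → ℝ) (E : ℝ)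
    (hE : ∀ c ∈ B, ∀ c' ∈ B, c ≠ c' → ‖∑ a ∈ range M, e (F a c - F a c')‖ ≤ E) (hE0 : 0 ≤ E) :
    ∑ a ∈ range M, ‖∑ c ∈ B, e (F a c)‖ ^ 2 ≤ #B * M + (#B : ℝ) ^ 2 * E := by
  have h2 : ((∑ a ∈ range M, ‖∑ c ∈ B, e (F a c)‖ ^ 2 : ℝ) : ℂ) =
      ∑ c ∈ B, ∑ c' ∈ B, ∑ a ∈ range M, e (F a c - F a c') := by
    rw [Complex.ofReal_sum]
    simp_rw [sq_sum]
    rw [Finset.sum_comm]
    apply Finset.sum_congr rfl; intro c _
    rw [Finset.sum_comm]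
  have h3 : ∑ a ∈ range M, ‖∑ c ∈ B, e (F a c)‖ ^ 2 =
      ‖((∑ a ∈ range M, ‖∑ c ∈ B, e (F a c)‖ ^ 2 : ℝ) : ℂ)‖ := by
    rw [Complex.norm_real, Real.norm_of_nonneg (by positivity)]
  rw [h3, h2]
  have h4 : ∀ c ∈ B, ‖∑ c' ∈ B, ∑ a ∈ range M, e (F a c - F a c')‖ ≤ M + #B * E := by
    intro c hc
    rw [← Finset.add_sum_erase B _ hc]
    refine (norm_add_le _ _).trans ?_
    apply add_le_add
    · refine (norm_sum_le _ _).trans ?_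
      simp [norm_e]
    · refine (norm_sum_le _ _).trans ?_
      refine (Finset.sum_le_card_nsmul _ _ E (fun c' hc' => ?_)).trans ?_
      · rw [mem_erase] at hc'
        exact hE c hc c' hc'.2 (Ne.symm hc'.1)
      · rw [nsmul_eq_mul]
        have : (#(B.erase c) : ℝ) ≤ #B := by exact_mod_cast card_le_card (erase_subset _ _)
        gcongr
  refine (norm_sum_le _ _).trans ((Finset.sum_le_card_nsmul _ _ _ h4).trans (le_of_eq ?_))
  rw [nsmul_eq_mul]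
  ring

/-- the bilinear bound, from the bound of the sums for short differences -/
theorem bilin (M H H0 : ℕ) (hH0 : 1 ≤ H0) (A B : Finset ℕ) (hA : ∀ a ∈ A, a < M) (hB : ∀ c ∈ B, c < H)
    (φ : ℕ → ℂ) (hφ : ∀ a, ‖φ a‖ ≤ 1) (F : ℕ → ℕ → ℝ) (E : ℝ) (hE0 : 0 ≤ E)
    (hE : ∀ c ∈ B, ∀ c' ∈ B, c ≠ c' → c / H0 = c' / H0 → ‖∑ a ∈ range M, e (F a c - F a c')‖ ≤ E) :
    ‖∑ i ∈ A ×ˢ B, φ i.1 * e (F i.1 i.2)‖ ^ 2 ≤ ((H / H0 + 1 : ℕ) : ℝ) * #A * (#B * (M + H0 * E)) := by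
  classical
  set J : ℕ := H / H0 + 1 with hJ
  have hmaps : ∀ c ∈ B, c / H0 ∈ range J := by
    intro c hc
    rw [mem_range, hJ]
    have := Nat.div_le_div_right (c := H0) (hB c hc).le
    omega
  set Bj : ℕ → Finset ℕ := fun j => B.filter (fun c => c / H0 = j) with hBj
  have e1 : ∑ i ∈ A ×ˢ B, φ i.1 * e (F i.1 i.2) =
      ∑ j ∈ range J, ∑ a ∈ A, φ a * ∑ c ∈ Bj j, e (F a c) := by
    rw [Finset.sum_product, Finset.sum_comm (s := range J)]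
    apply Finset.sum_congr rfl; intro a _
    simp only
    rw [← Finset.mul_sum, ← Finset.mul_sum]
    congr 1
    exact (Finset.sum_fiberwise_of_maps_to hmaps (fun c => e (F a c))).symm
  have e2 : ‖∑ i ∈ A ×ˢ B, φ i.1 * e (F i.1 i.2)‖ ≤
      ∑ i ∈ range J ×ˢ A, ‖∑ c ∈ Bj i.1, e (F i.2 c)‖ := by
    rw [e1, Finset.sum_product]
    refine (norm_sum_le _ _).trans (Finset.sum_le_sum fun j _ => ?_)
    refine (norm_sum_le _ _).trans (Finset.sum_le_sum fun a _ => ?_)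
    rw [norm_mul]
    calc ‖φ a‖ * ‖∑ c ∈ Bj j, e (F a c)‖ ≤ 1 * ‖∑ c ∈ Bj j, e (F a c)‖ := by
          have := hφ a; gcongr
      _ = _ := one_mul _
  have e3 : (∑ i ∈ range J ×ˢ A, ‖∑ c ∈ Bj i.1, e (F i.2 c)‖) ^ 2 ≤
      #(range J ×ˢ A) * ∑ i ∈ range J ×ˢ A, ‖∑ c ∈ Bj i.1, e (F i.2 c)‖ ^ 2 :=
    sq_sum_le_card_mul_sum_sq
  have e4 : ∑ i ∈ range J ×ˢ A, ‖∑ c ∈ Bj i.1, e (F i.2 c)‖ ^ 2 ≤ #B * (M + H0 * E) := by
    rw [Finset.sum_product]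
    have h1 : ∀ j ∈ range J, ∑ a ∈ A, ‖∑ c ∈ Bj j, e (F a c)‖ ^ 2 ≤ #(Bj j) * (M + H0 * E) := by
      intro j _
      have h2 : ∑ a ∈ A, ‖∑ c ∈ Bj j, e (F a c)‖ ^ 2 ≤ ∑ a ∈ range M, ‖∑ c ∈ Bj j, e (F a c)‖ ^ 2 := by
        apply Finset.sum_le_sum_of_subset_of_nonneg
        · intro a ha; rw [mem_range]; exact hA a ha
        · intro a _ _; positivity
      have h3 := block_moment M (Bj j) F E (fun c hc c' hc' hne => by
        rw [hBj, mem_filter] at hc hc'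
        exact hE c hc.1 c' hc'.1 hne (hc.2.trans hc'.2.symm)) hE0
      have h4 : (#(Bj j) : ℝ) ≤ H0 := by
        have : #(Bj j) ≤ H0 := by
          have h5 : Bj j ⊆ Ico (j * H0) (j * H0 + H0) := by
            intro c hc
            rw [hBj, mem_filter] at hc
            rw [mem_Ico]
            have h6 := Nat.div_add_mod c H0
            have h7 := Nat.mod_lt c (show H0 > 0 by omega)
            rw [hc.2] at h6
            rw [mul_comm] at h6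
            omega
          refine (card_le_card h5).trans ?_
          rw [Nat.card_Ico]; omega
        exact_mod_cast this
      refine h2.trans (h3.trans ?_)
      have h5 : (0:ℝ) ≤ #(Bj j) := Nat.cast_nonneg _
      calc (#(Bj j) : ℝ) * M + (#(Bj j) : ℝ) ^ 2 * E = #(Bj j) * (M + #(Bj j) * E) := by ring
        _ ≤ _ := by gcongr
    refine (Finset.sum_le_sum h1).trans (le_of_eq ?_)
    rw [← Finset.sum_mul]
    congr 1
    rw [← Nat.cast_sum, ← Finset.card_eq_sum_card_fiberwise hmaps]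
  calc ‖∑ i ∈ A ×ˢ B, φ i.1 * e (F i.1 i.2)‖ ^ 2 ≤
      (∑ i ∈ range J ×ˢ A, ‖∑ c ∈ Bj i.1, e (F i.2 c)‖) ^ 2 := by gcongr
    _ ≤ _ := e3
    _ ≤ #(range J ×ˢ A) * (#B * (M + H0 * E)) := by gcongr
    _ = _ := by rw [card_product, card_range]; push_cast; ring

/-- one degree -/
def PGood1 (k : ℕ) (η κ : ℝ) (M : ℕ) (x : ℝ) : Prop :=
  ∀ b : ℤ, b ≠ 0 → |(b : ℝ)| ≤ (M : ℝ) ^ κ → ∀ H : ℕ, (M : ℝ) ^ η ≤ H → ∀ A B : Finset ℕ,
    (∀ a ∈ A, a < M) → (∀ c ∈ B, c < H) → (M : ℝ) ^ (1 - κ) * H ≤ #A * #B →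
    ∀ (y : ℕ → ℝ) (R : ℕ → ℝ[X]), (∀ c, (R c).degree < k) → ∀ u v : ℝ, 0 ≤ u → u ≤ v → v ≤ 1 →
      |(#{i ∈ A ×ˢ B | u ≤ Int.fract (b * x * i.1 ^ k * i.2 + (R i.2).eval (i.1 : ℝ) + y i.1) ∧
          Int.fract (b * x * i.1 ^ k * i.2 + (R i.2).eval (i.1 : ℝ) + y i.1) < v} : ℝ) -
        (v - u) * (#A * #B)| ≤ #A * #B * (M : ℝ) ^ (-κ)

theorem PGood1.mono {k : ℕ} {η κ κ' : ℝ} {M : ℕ} {x : ℝ} (hM : 1 ≤ M) (hκ : κ' ≤ κ)
    (h : PGood1 k η κ M x) : PGood1 k η κ' M x := by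
  have hM1 : (1 : ℝ) ≤ M := by exact_mod_cast hM
  have h1 : (M : ℝ) ^ κ' ≤ (M : ℝ) ^ κ := Real.rpow_le_rpow_of_exponent_le hM1 hκ
  have h2 : (M : ℝ) ^ (-κ) ≤ (M : ℝ) ^ (-κ') :=
    Real.rpow_le_rpow_of_exponent_le hM1 (by linarith)
  have h3 : (M : ℝ) ^ (1-κ) ≤ (M : ℝ) ^ (1-κ') :=
    Real.rpow_le_rpow_of_exponent_le hM1 (by linarith)
  intro b hb hbM H hH A B hA hB hAB y R hR u v hu huv hv
  have hH0 : (0:ℝ) ≤ H := Nat.cast_nonneg _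
  refine (h b hb (hbM.trans h1) H hH A B hA hB ((mul_le_mul_of_nonneg_right h3 hH0).trans hAB)
    y R hR u v hu huv hv).trans ?_
  gcongr

theorem pgood1_engine (k : ℕ) (hk : 1 ≤ k) (η : ℝ) (hη : 0 < η) (δ : ℝ) (hδ : 0 < δ) :
    ∃ κ : ℝ, 0 < κ ∧ κ ≤ 1 ∧ ∃ M₀ : ℕ, 2 ≤ M₀ ∧
    ∀ M : ℕ, M₀ ≤ M → ∀ x : ℝ, ¬ Pool.Agent.Q29.Eqd.Res δ M x → PGood1 k η κ M x := by
  obtain ⟨κw, hκw, M₁, hM₁, hweyl⟩ := Pool.Agent.Q29.Eqd.weyl_one k hk δ hδ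
  obtain ⟨t, ht⟩ : ∃ t, t = min (min κw η) 1 := ⟨_, rfl⟩
  have ht0 : 0 < t := by rw [ht]; positivity
  have htw : t ≤ κw := by rw [ht]; exact (min_le_left _ _).trans (min_le_left _ _)
  have htη : t ≤ η := by rw [ht]; exact (min_le_left _ _).trans (min_le_right _ _)
  have ht1 : t ≤ 1 := by rw [ht]; exact min_le_right _ _
  have ev1 : ∀ᶠ x : ℝ in atTop, 10 ≤ x ^ (t/64) :=
    (tendsto_rpow_atTop (by positivity : (0:ℝ) < t/64)).eventually_ge_atTop _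
  obtain ⟨x0, hx0⟩ := eventually_atTop.1 (ev1.and (eventually_ge_atTop 4))
  refine ⟨t/64, by positivity, by linarith, max (max M₁ ⌈x0⌉₊) 2, le_max_right _ _,
    fun M hM x hres => ?_⟩
  have hMX : M₁ ≤ M := (le_max_left _ _).trans ((le_max_left _ _).trans hM)
  have hMx : ⌈x0⌉₊ ≤ M := (le_max_right _ _).trans ((le_max_left _ _).trans hM)
  obtain ⟨g1, g2⟩ := hx0 M ((Nat.le_ceil x0).trans (by exact_mod_cast hMx))
  have hM0 : (0:ℝ) < M := by linarith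
  have hM1 : (1:ℝ) ≤ M := by linarith
  intro b hb hbM H hH A B hA hB hAB y R hR u v hu huv hv
  obtain ⟨D, hD⟩ : ∃ D : ℕ, D = ⌊(M:ℝ)^(t/32)⌋₊ := ⟨_, rfl⟩
  have hMk : (M:ℝ)^(t/64) * (M:ℝ)^(t/64) = (M:ℝ)^(t/32) := by
    rw [← Real.rpow_add hM0]; congr 1; ring
  have hMk2 : 100 ≤ (M:ℝ)^(t/32) := by rw [← hMk]; nlinarith
  have hDle : (D:ℝ) ≤ (M:ℝ)^(t/32) := by rw [hD]; exact Nat.floor_le (by positivity)
  have hDgt : (M:ℝ)^(t/32) < D + 1 := by rw [hD]; exact Nat.lt_floor_add_one _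
  have hD1 : (1:ℝ) ≤ D := by linarith
  have hD1n : 1 ≤ D := by exact_mod_cast hD1
  have hD3 : (D:ℝ)^3 ≤ (M:ℝ)^(3*t/32) := by
    calc (D:ℝ)^3 ≤ ((M:ℝ)^(t/32))^3 := by gcongr
      _ = _ := by rw [← Real.rpow_natCast, ← Real.rpow_mul hM0.le]; congr 1; push_cast; ring
  have hD4 : (D:ℝ)^4 ≤ (M:ℝ)^(t/8) := by
    calc (D:ℝ)^4 ≤ ((M:ℝ)^(t/32))^4 := by gcongr
      _ = _ := by rw [← Real.rpow_natCast, ← Real.rpow_mul hM0.le]; congr 1; push_cast; ring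
  -- the length of the blocks
  obtain ⟨H0, hH0E⟩ : ∃ H0 : ℕ, H0 = ⌊(M:ℝ)^(t/2)⌋₊ := ⟨_, rfl⟩
  have hMt2 : 100 ≤ (M:ℝ)^(t/2) := hMk2.trans (Real.rpow_le_rpow_of_exponent_le hM1 (by linarith))
  have hH0le : (H0:ℝ) ≤ (M:ℝ)^(t/2) := by rw [hH0E]; exact Nat.floor_le (by positivity)
  have hH0gt : (M:ℝ)^(t/2) < H0 + 1 := by rw [hH0E]; exact Nat.lt_floor_add_one _
  have hH01 : (99:ℝ) ≤ H0 := by linarith
  have hH01n : 1 ≤ H0 := by
    have : (1:ℝ) ≤ H0 := by linarith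
    exact_mod_cast this
  have hH0half : (M:ℝ)^(t/2) / 2 ≤ H0 := by linarith
  have hHM : (M:ℝ)^t ≤ H := (Real.rpow_le_rpow_of_exponent_le hM1 htη).trans hH
  have hHpos : (0:ℝ) < H := lt_of_lt_of_le (by positivity) hHM
  have hH0H : (H0:ℝ) ≤ H := hH0le.trans ((Real.rpow_le_rpow_of_exponent_le hM1 (by linarith)).trans hHM)
  have hAB' : (M:ℝ) ^ (1 - t/8) * H ≤ #A * #B := by
    refine le_trans ?_ hAB
    gcongr ?_ * _
    exact Real.rpow_le_rpow_of_exponent_le hM1 (by linarith)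
  have hgood : Good (A ×ˢ B)
      (fun i : ℕ × ℕ => b * x * i.1 ^ k * i.2 + (R i.2).eval (i.1 : ℝ) + y i.1) 2 D 0 := by
    intro h h0 hh
    have hhD : |(h:ℝ)| ≤ (D:ℝ)^3 := by
      have : |h| ≤ ((D^3 : ℕ) : ℤ) := hh.le
      exact_mod_cast this
    obtain ⟨F, hF⟩ : ∃ F : ℕ → ℕ → ℝ, F = fun (a c : ℕ) => h * (b * x * (a:ℝ) ^ k * c + (R c).eval (a : ℝ)) :=
      ⟨_, rfl⟩
    have hsum : ∀ c ∈ B, ∀ c' ∈ B, c ≠ c' → c / H0 = c' / H0 →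
        ‖∑ a ∈ range M, e (F a c - F a c')‖ ≤ (M:ℝ)^(1 - κw) := by
      intro c hc c' hc' hne hcc
      have h1 : (h * b * ((c:ℤ) - c') : ℤ) ≠ 0 := by
        refine mul_ne_zero (mul_ne_zero h0 hb) ?_
        intro h2
        apply hne
        omega
      have h2 : |((h * b * ((c:ℤ) - c') : ℤ) : ℝ)| ≤ (M:ℝ)^κw := by
        have h3 : |((c:ℤ) - c' : ℤ)| ≤ (H0:ℤ) := by
          have e1 := Nat.div_add_mod c H0
          have e2 := Nat.div_add_mod c' H0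
          have e3 := Nat.mod_lt c (show H0 > 0 by omega)
          have e4 := Nat.mod_lt c' (show H0 > 0 by omega)
          rw [hcc] at e1
          rw [abs_le]
          constructor <;> omega
        have h4 : |((c:ℝ) - c')| ≤ H0 := by exact_mod_cast h3
        push_cast
        rw [abs_mul, abs_mul]
        calc |(h:ℝ)| * |(b:ℝ)| * |(c:ℝ) - c'| ≤ (M:ℝ)^(3*t/32) * (M:ℝ)^(t/64) * (M:ℝ)^(t/2) := by
              have := hhD.trans hD3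
              have := h4.trans hH0le
              gcongr
          _ = (M:ℝ)^(3*t/32 + t/64 + t/2) := by rw [← Real.rpow_add hM0, ← Real.rpow_add hM0]
          _ ≤ _ := Real.rpow_le_rpow_of_exponent_le hM1 (by linarith)
      have h3 := hweyl M hMX x hres (h * b * ((c:ℤ) - c')) h1 h2
        (C (h:ℝ) * (R c - R c')) (by
          refine lt_of_le_of_lt (degree_mul_le _ _) ?_
          have h4 : (R c - R c').degree < k := lt_of_le_of_lt (degree_sub_le _ _) (max_lt (hR c) (hR c'))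
          refine lt_of_le_of_lt ?_ h4
          calc (C (h:ℝ)).degree + (R c - R c').degree ≤ 0 + (R c - R c').degree := by
                gcongr; exact degree_C_le
            _ = _ := zero_add _)
      refine le_trans (le_of_eq ?_) h3
      congr 1
      apply Finset.sum_congr rfl
      intro a _
      congr 1
      rw [hF]
      simp only [eval_mul, eval_C, eval_sub]
      push_cast; ring
    have h1 := bilin M H H0 hH01n A B hA hB (fun a => e (h * y a)) (fun a => (norm_e _).le) F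
      ((M:ℝ)^(1 - κw)) (by positivity) hsum
    have h2 : ∑ i ∈ A ×ˢ B, Pool.Agent.H332R2.Lit.e (h * (((2:ℕ):ℝ) ^ 0 *
        (b * x * i.1 ^ k * i.2 + (R i.2).eval (i.1 : ℝ) + y i.1))) =
        ∑ i ∈ A ×ˢ B, e (h * y i.1) * e (F i.1 i.2) := by
      apply Finset.sum_congr rfl
      intro i _
      rw [← e_add]
      have e_ee' : ∀ t : ℝ, Pool.Agent.H332R2.Lit.e t = e t := by
        intro t; unfold Pool.Agent.H332R2.Lit.e e; congr 1; push_cast; ring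
      rw [e_ee']
      congr 1
      rw [hF]
      push_cast; ring
    rw [h2]
    -- the final bound
    have h3 : ((H / H0 + 1 : ℕ) : ℝ) ≤ 2 * (H / H0) := by
      push_cast
      have h4 : ((H / H0 : ℕ) : ℝ) ≤ (H:ℝ) / H0 := Nat.cast_div_le
      have h5 : (1:ℝ) ≤ (H:ℝ) / H0 := by rw [le_div_iff₀ (by linarith)]; linarith
      linarith
    have h4 : (M:ℝ) + H0 * (M:ℝ)^(1 - κw) ≤ H0 * (3 * (M:ℝ)^(1 - t/2)) := by
      have h5 : (M:ℝ) ≤ H0 * (2 * (M:ℝ)^(1 - t/2)) := by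
        calc (M:ℝ) = ((M:ℝ)^(t/2) / 2) * (2 * (M:ℝ)^(1 - t/2)) := by
              have : (M:ℝ)^(t/2) * (M:ℝ)^(1 - t/2) = M := by
                rw [← Real.rpow_add hM0]; simp
              linear_combination -this
          _ ≤ _ := by gcongr
      have h6 : (M:ℝ)^(1 - κw) ≤ (M:ℝ)^(1 - t/2) :=
        Real.rpow_le_rpow_of_exponent_le hM1 (by linarith)
      have h7 : (H0:ℝ) * (M:ℝ)^(1 - κw) ≤ H0 * (M:ℝ)^(1 - t/2) := by gcongr
      linarith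
    have h5 : ‖∑ i ∈ A ×ˢ B, e (h * y i.1) * e (F i.1 i.2)‖ ^ 2 ≤
        (#A * #B * (M:ℝ)^(-(t/8))) ^ 2 := by
      refine h1.trans ?_
      calc ((H / H0 + 1 : ℕ) : ℝ) * #A * (#B * (M + H0 * (M:ℝ)^(1 - κw))) ≤
          (2 * (H / H0)) * #A * (#B * (H0 * (3 * (M:ℝ)^(1 - t/2)))) := by gcongr
        _ = (#A * #B) * (6 * ((M:ℝ)^(1 - t/2) * H)) := by
          have : (H0:ℝ) ≠ 0 := by linarith
          field_simp; ring
        _ ≤ (#A * #B) * ((M:ℝ)^(t/8) * ((M:ℝ)^(1 - t/2) * H)) := by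
          have : 6 ≤ (M:ℝ)^(t/8) := by
            have := hMk2.trans (Real.rpow_le_rpow_of_exponent_le hM1 (by linarith : t/32 ≤ t/8))
            linarith
          gcongr
        _ = (#A * #B) * (((M:ℝ)^(1 - t/8) * H) * (M:ℝ)^(-(t/4))) := by
          have e1 : (M:ℝ)^(t/8) * (M:ℝ)^(1 - t/2) = (M:ℝ)^(1 - t/8) * (M:ℝ)^(-(t/4)) := by
            rw [← Real.rpow_add hM0, ← Real.rpow_add hM0]; congr 1; ring
          linear_combination (#A * #B * H) * e1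
        _ ≤ (#A * #B) * ((#A * #B) * (M:ℝ)^(-(t/4))) := by gcongr
        _ = _ := by
          have : (M:ℝ)^(-(t/4)) = ((M:ℝ) ^ (-(t/8)))^2 := by
            rw [← Real.rpow_natCast, ← Real.rpow_mul hM0.le]; congr 1; push_cast; ring
          rw [this]; ring
    have h6 := le_of_sq_le_sq h5 (by positivity)
    refine h6.trans ?_
    have h7 : (M:ℝ)^(-(t/8)) ≤ ((D:ℝ)^4)⁻¹ := by
      rw [Real.rpow_neg hM0.le]; exact inv_anti₀ (by positivity) hD4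
    rw [card_product]
    push_cast
    calc (#A:ℝ) * #B * (M:ℝ)^(-(t/8)) ≤ (#A:ℝ) * #B * ((D:ℝ)^4)⁻¹ := by gcongr
      _ = _ := by rw [← div_eq_mul_inv]
  have h1 := good_disc (A ×ˢ B)
    (fun i : ℕ × ℕ => b * x * i.1 ^ k * i.2 + (R i.2).eval (i.1 : ℝ) + y i.1) 2 D 0
    hD1n hgood u v hu huv hv
  simp only [pow_zero, one_mul] at h1
  rw [card_product] at h1
  push_cast at h1 ⊢
  have h3 : 5 * ((#A:ℝ) * #B) / D ≤ #A * #B * (M : ℝ) ^ (-(t/64)) := by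
    rw [div_le_iff₀ (by linarith)]
    have h4 : 5 ≤ (M : ℝ) ^ (-(t/64)) * D := by
      have h5 : (M : ℝ) ^ (-(t/64)) * (M:ℝ)^(t/32) = (M:ℝ)^(t/64) := by
        rw [← Real.rpow_add hM0]; congr 1; ring
      have h6 : (M:ℝ)^(t/32) / 2 ≤ D := by linarith
      calc (5:ℝ) ≤ (M:ℝ)^(t/64) / 2 := by linarith
        _ = (M : ℝ) ^ (-(t/64)) * ((M:ℝ)^(t/32) / 2) := by rw [← h5]; ring
        _ ≤ _ := by gcongr
    calc 5 * ((#A:ℝ) * #B) = #A * #B * 5 := by ring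
      _ ≤ #A * #B * ((M : ℝ) ^ (-(t/64)) * D) := by gcongr
      _ = _ := by ring
  refine le_trans (le_of_eq ?_) (h1.trans h3)
  congr 3

/-- **all degrees up to `K`** -/
def PGood (K : ℕ) (η κ : ℝ) (M : ℕ) (x : ℝ) : Prop :=
  ∀ b : ℤ, b ≠ 0 → |(b : ℝ)| ≤ (M : ℝ) ^ κ → ∀ k : ℕ, 1 ≤ k → k ≤ K → ∀ H : ℕ, (M : ℝ) ^ η ≤ H →
    ∀ A B : Finset ℕ, (∀ a ∈ A, a < M) → (∀ c ∈ B, c < H) → (M : ℝ) ^ (1 - κ) * H ≤ #A * #B →
    ∀ (y : ℕ → ℝ) (R : ℕ → ℝ[X]), (∀ c, (R c).degree < k) → ∀ u v : ℝ, 0 ≤ u → u ≤ v → v ≤ 1 →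
      |(#{i ∈ A ×ˢ B | u ≤ Int.fract (b * x * i.1 ^ k * i.2 + (R i.2).eval (i.1 : ℝ) + y i.1) ∧
          Int.fract (b * x * i.1 ^ k * i.2 + (R i.2).eval (i.1 : ℝ) + y i.1) < v} : ℝ) -
        (v - u) * (#A * #B)| ≤ #A * #B * (M : ℝ) ^ (-κ)

theorem pgood_iff (K : ℕ) (η κ : ℝ) (M : ℕ) (x : ℝ) :
    PGood K η κ M x ↔ ∀ k : ℕ, 1 ≤ k → k ≤ K → PGood1 k η κ M x :=
  ⟨fun h k hk hkK b hb hbM => h b hb hbM k hk hkK, fun h b hb hbM k hk hkK => h k hk hkK b hb hbM⟩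

theorem PGood.mono {K : ℕ} {η κ κ' : ℝ} {M : ℕ} {x : ℝ} (hM : 1 ≤ M) (hκ : κ' ≤ κ)
    (h : PGood K η κ M x) : PGood K η κ' M x := by
  rw [pgood_iff] at h ⊢
  exact fun k hk hkK => (h k hk hkK).mono hM hκ

theorem pgood_engine (K : ℕ) (η : ℝ) (hη : 0 < η) (δ : ℝ) (hδ : 0 < δ) :
    ∃ κ : ℝ, 0 < κ ∧ κ ≤ 1 ∧ ∃ M₀ : ℕ, 2 ≤ M₀ ∧
    ∀ M : ℕ, M₀ ≤ M → ∀ x : ℝ, ¬ Pool.Agent.Q29.Eqd.Res δ M x → PGood K η κ M x := by
  induction K with
  | zero => exact ⟨1, one_pos, le_rfl, 2, le_rfl, fun M hM x hx b hb hbM k hk hk0 => absurd hk (by omega)⟩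
  | succ K ih =>
    obtain ⟨κ₁, hκ₁, hκ₁1, M₁, hM₁1, h1⟩ := ih
    obtain ⟨κ₂, hκ₂, hκ₂1, M₂, hM₂1, h2⟩ := pgood1_engine (K + 1) (by omega) η hη δ hδ
    refine ⟨min κ₁ κ₂, lt_min hκ₁ hκ₂, (min_le_left _ _).trans hκ₁1, max M₁ M₂, hM₁1.trans (le_max_left _ _),
      fun M hM x hx => ?_⟩
    have hMpos : 1 ≤ M := by have := (hM₁1.trans (le_max_left M₁ M₂)).trans hM; omega
    have h3 := (h1 M ((le_max_left _ _).trans hM) x hx).mono hMpos (min_le_left κ₁ κ₂)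
    have h4 := (h2 M ((le_max_right _ _).trans hM) x hx).mono hMpos (min_le_right κ₁ κ₂)
    rw [pgood_iff] at h3 ⊢
    intro k hk hkK
    rcases Nat.lt_or_ge k (K + 1) with hlt | hge
    · exact h3 k hk (by omega)
    · obtain rfl : k = K + 1 := by omega
      exact h4

end Pool.Agent.Q47.DG
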