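import Pool.Agent.Y883.T3.Vin
import Mathlib.NumberTheory.Chebyshev
import Mathlib.NumberTheory.DiophantineApproximation.Basic

set_option autoImplicit false

/-!
# Exponential sums over primes with a power saving, from Vinogradov's bound
-/

namespace Pool.Agent.Q47.DG

open Finset Pool.Agent.H807R2.Dav

/-- Abel summation with the weight `1 / log` -/
lemma abel_log (f : ℕ → ℂ) (hf1 : f 1 = 0) (B : ℝ) (hB0 : 0 ≤ B) (X : ℕ) (hX : 2 ≤ X)
    (hB : ∀ n ≤ X, ‖∑ m ∈ Icc 1 n, f m‖ ≤ B) :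
    ‖∑ m ∈ Icc 2 X, f m * ((1 / Real.log m : ℝ) : ℂ)‖ ≤ 2 * B := by
  have hw : ∀ m : ℕ, 2 ≤ m → 0 < Real.log m := fun m hm =>
    Real.log_pos (by exact_mod_cast (by omega : 1 < m))
  have key : ∀ n : ℕ, 2 ≤ n → n ≤ X →
      ‖∑ m ∈ Icc 2 n, f m * ((1 / Real.log m : ℝ) : ℂ) -
        (∑ m ∈ Icc 1 n, f m) * ((1 / Real.log n : ℝ) : ℂ)‖ ≤
      B * (1 / Real.log (2:ℕ) - 1 / Real.log n) := by
    intro n hn
    induction n, hn using Nat.le_induction with
    | base =>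
      intro _
      have e1 : ∑ m ∈ Icc 1 2, f m = f 2 := by
        rw [show (Icc 1 2 : Finset ℕ) = {1, 2} by decide, Finset.sum_pair (by norm_num), hf1,
          zero_add]
      rw [e1]
      simp
    | succ n hn ih =>
      intro hnX
      have ih' := ih (by omega)
      have e1 : ∑ m ∈ Icc 2 (n+1), f m * ((1 / Real.log m : ℝ) : ℂ) =
          ∑ m ∈ Icc 2 n, f m * ((1 / Real.log m : ℝ) : ℂ) +
            f (n+1) * ((1 / Real.log (n+1 : ℕ) : ℝ) : ℂ) :=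
        Finset.sum_Icc_succ_top (by omega) _
      have e2 : ∑ m ∈ Icc 1 (n+1), f m = ∑ m ∈ Icc 1 n, f m + f (n+1) :=
        Finset.sum_Icc_succ_top (by omega) _
      rw [e1, e2]
      have e3 : ∑ m ∈ Icc 2 n, f m * ((1 / Real.log m : ℝ) : ℂ) +
            f (n+1) * ((1 / Real.log (n+1 : ℕ) : ℝ) : ℂ) -
            (∑ m ∈ Icc 1 n, f m + f (n+1)) * ((1 / Real.log (n+1 : ℕ) : ℝ) : ℂ) =
          (∑ m ∈ Icc 2 n, f m * ((1 / Real.log m : ℝ) : ℂ) -
            (∑ m ∈ Icc 1 n, f m) * ((1 / Real.log n : ℝ) : ℂ)) +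
          (∑ m ∈ Icc 1 n, f m) * ((1 / Real.log n - 1 / Real.log (n+1 : ℕ) : ℝ) : ℂ) := by
        push_cast; ring
      rw [e3]
      refine (norm_add_le _ _).trans ?_
      have h1 := hw n hn
      have h2 := hw (n+1) (by omega)
      have h3 : 1 / Real.log (n+1 : ℕ) ≤ 1 / Real.log n := by
        apply one_div_le_one_div_of_le h1
        apply Real.log_le_log (by exact_mod_cast (by omega : 0 < n))
        push_cast; linarith
      rw [norm_mul, Complex.norm_real, Real.norm_of_nonneg (by linarith)]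
      have h4 := hB n (by omega)
      have h5 : ‖∑ m ∈ Icc 1 n, f m‖ * (1 / Real.log n - 1 / Real.log (n+1 : ℕ)) ≤
          B * (1 / Real.log n - 1 / Real.log (n+1 : ℕ)) :=
        mul_le_mul_of_nonneg_right h4 (by linarith)
      linarith
  have h1 := key X hX le_rfl
  have h2 := hB X le_rfl
  have h3 := hw X hX
  have h4 : ‖(∑ m ∈ Icc 1 X, f m) * ((1 / Real.log X : ℝ) : ℂ)‖ ≤ B * (1 / Real.log X) := by
    rw [norm_mul, Complex.norm_real, Real.norm_of_nonneg (by positivity)]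
    exact mul_le_mul_of_nonneg_right h2 (by positivity)
  have h5 : ‖∑ m ∈ Icc 2 X, f m * ((1 / Real.log m : ℝ) : ℂ)‖ ≤ B * (1 / Real.log (2:ℕ)) := by
    have := norm_add_le (∑ m ∈ Icc 2 X, f m * ((1 / Real.log m : ℝ) : ℂ) -
        (∑ m ∈ Icc 1 X, f m) * ((1 / Real.log X : ℝ) : ℂ))
        ((∑ m ∈ Icc 1 X, f m) * ((1 / Real.log X : ℝ) : ℂ))
    rw [sub_add_cancel] at this
    linarith
  have h6 : 1 / Real.log (2:ℕ) ≤ 2 := by
    have := Real.log_two_gt_d9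
    rw [div_le_iff₀ (by push_cast; linarith)]
    push_cast; linarith
  nlinarith

/-- from von Mangoldt sums to prime sums -/
lemma prime_of_lambda (α B : ℝ) (hB0 : 0 ≤ B) (X : ℕ) (hX : 2 ≤ X)
    (hB : ∀ n ≤ X,
      ‖∑ m ∈ Icc 1 n, ((ArithmeticFunction.vonMangoldt m : ℝ) : ℂ) * ee ((m:ℝ) * α)‖ ≤ B) :
    ‖∑ p ∈ Icc 1 X with p.Prime, ee ((p:ℝ) * α)‖ ≤ 2 * (B + 2 * √X * Real.log X) := by
  classical
  set f : ℕ → ℂ := fun m => if m.Prime then ((Real.log m : ℝ) : ℂ) * ee ((m:ℝ) * α) else 0 with hf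
  have hXr : (2:ℝ) ≤ X := by exact_mod_cast hX
  have hlX : 0 ≤ Real.log X := Real.log_nonneg (by linarith)
  have h1 := abel_log f (by simp [hf, Nat.not_prime_one]) (B + 2 * √X * Real.log X)
    (by positivity) X hX (by
      intro n hn
      have e1 : ∑ m ∈ Icc 1 n, f m =
          ∑ m ∈ Icc 1 n, ((ArithmeticFunction.vonMangoldt m : ℝ) : ℂ) * ee ((m:ℝ) * α) -
          ∑ m ∈ Icc 1 n with ¬ m.Prime,
            ((ArithmeticFunction.vonMangoldt m : ℝ) : ℂ) * ee ((m:ℝ) * α) := by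
        rw [eq_sub_iff_add_eq, Finset.sum_filter, ← Finset.sum_add_distrib]
        apply Finset.sum_congr rfl
        intro m _
        by_cases hm : m.Prime
        · simp [hf, hm, ArithmeticFunction.vonMangoldt_apply_prime hm]
        · simp [hf, hm]
      rw [e1]
      refine (norm_sub_le _ _).trans (add_le_add (hB n hn) ?_)
      refine (norm_sum_le _ _).trans ?_
      rcases Nat.eq_zero_or_pos n with hn0 | hn0
      · subst hn0; simp; positivity
      have hnr : (1:ℝ) ≤ n := by exact_mod_cast hn0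
      have h2 : ∑ m ∈ Icc 1 n with ¬ m.Prime,
          ‖((ArithmeticFunction.vonMangoldt m : ℝ) : ℂ) * ee ((m:ℝ) * α)‖ =
          Chebyshev.psi n - Chebyshev.theta n := by
        rw [Chebyshev.psi_sub_theta_eq_sum_not_prime, Nat.floor_natCast]
        apply Finset.sum_congr
        · ext m; simp [Nat.succ_le_iff]
        · intro m _
          rw [norm_mul, norm_ee, mul_one, Complex.norm_real,
            Real.norm_of_nonneg ArithmeticFunction.vonMangoldt_nonneg]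
      rw [h2]
      refine (Chebyshev.psi_sub_theta_le hnr).trans ?_
      have hnX : (n:ℝ) ≤ X := by exact_mod_cast hn
      have := Real.log_nonneg hnr
      gcongr)
  refine le_trans (le_of_eq ?_) h1
  congr 1
  rw [Finset.sum_filter]
  have e2 : Icc 1 X = insert 1 (Icc 2 X) := by
    ext m; simp; omega
  rw [e2, Finset.sum_insert (by simp)]
  simp only [Nat.not_prime_one, if_false, zero_add]
  apply Finset.sum_congr rfl
  intro m hm
  rw [Finset.mem_Icc] at hm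
  by_cases hmp : m.Prime
  · have h3 : Real.log m ≠ 0 := (Real.log_pos (by exact_mod_cast (by omega : 1 < m))).ne'
    have h4 : ((Real.log m : ℝ) : ℂ) ≠ 0 := by exact_mod_cast h3
    have h5 : ((Real.log m : ℝ) : ℂ) * ee ((m:ℝ) * α) * ((1 / Real.log m : ℝ) : ℂ) =
        ee ((m:ℝ) * α) := by
      rw [Complex.ofReal_div, Complex.ofReal_one, mul_right_comm, mul_one_div_cancel h4, one_mul]
    simp only [hf, hmp, if_true]
    exact h5.symm
  · simp [hf, hmp]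

open Filter in
/-- **Prime sums, minor arcs.** -/
theorem prime_minor : ∃ X0 : ℕ, ∀ X : ℕ, X0 ≤ X → ∀ α : ℝ,
    (∀ u : ℕ, 1 ≤ u → (u:ℝ) ≤ (X:ℝ) ^ (1/5 : ℝ) → ∀ t : ℤ, (X:ℝ) ^ (-(1/2) : ℝ) ≤ |u * α - t|) →
    ‖∑ p ∈ Icc 1 X with p.Prime, ee ((p:ℝ) * α)‖ ≤
      #{p ∈ Icc 1 X | p.Prime} * (X:ℝ) ^ (-(1/40) : ℝ) := by
  obtain ⟨N0, hvin⟩ := Pool.Agent.Y883.T3.vin_pow
  have ev1 : ∀ᶠ x : ℝ in atTop, Real.log x ^ 16 ≤ x ^ (1/10 : ℝ) := by
    have h := (isLittleO_log_rpow_atTop (by norm_num : (0:ℝ) < 1/160)).bound one_pos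
    filter_upwards [h, eventually_ge_atTop 1] with x hx hx1
    have hl : 0 ≤ Real.log x := Real.log_nonneg hx1
    rw [Real.norm_of_nonneg hl, Real.norm_of_nonneg (by positivity), one_mul] at hx
    calc Real.log x ^ 16 ≤ (x ^ (1/160 : ℝ)) ^ 16 := by gcongr
      _ = x ^ (1/10 : ℝ) := by
        rw [← Real.rpow_natCast, ← Real.rpow_mul (by linarith)]; norm_num
  have ev2 : ∀ᶠ x : ℝ in atTop, 16 * Real.log x ≤ x ^ (1/40 : ℝ) := by
    have h := (isLittleO_log_rpow_atTop (by norm_num : (0:ℝ) < 1/40)).bound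
      (by norm_num : (0:ℝ) < 1/16)
    filter_upwards [h, eventually_ge_atTop 1] with x hx hx1
    have hl : 0 ≤ Real.log x := Real.log_nonneg hx1
    rw [Real.norm_of_nonneg hl, Real.norm_of_nonneg (by positivity)] at hx
    linarith
  have ev3 : ∀ᶠ x : ℝ in atTop, 16 ≤ x ^ (1/20 : ℝ) :=
    (tendsto_rpow_atTop (by norm_num : (0:ℝ) < 1/20)).eventually_ge_atTop 16
  have ev4 : ∀ᶠ x : ℝ in atTop, (N0:ℝ) + 1 ≤ x ^ (9/10 : ℝ) :=
    (tendsto_rpow_atTop (by norm_num : (0:ℝ) < 9/10)).eventually_ge_atTop _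
  obtain ⟨x0, hx0⟩ := eventually_atTop.1 (((ev1.and ev2).and (ev3.and ev4)).and
    (eventually_ge_atTop 100))
  refine ⟨⌈x0⌉₊, fun X hX α hα => ?_⟩
  obtain ⟨⟨⟨g1, g2⟩, g3, g4⟩, g5⟩ := hx0 X ((Nat.le_ceil x0).trans (by exact_mod_cast hX))
  have hX0 : (0:ℝ) < X := by linarith
  have hX1 : (1:ℝ) ≤ X := by linarith
  have hlX : 0 ≤ Real.log X := Real.log_nonneg hX1
  have hXn : 100 ≤ X := by exact_mod_cast g5
  -- Dirichlet
  set n' : ℕ := ⌊√(X:ℝ)⌋₊ with hn'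
  have hs10 : (10:ℝ) ≤ √(X:ℝ) := by
    rw [show (10:ℝ) = √100 by rw [show (100:ℝ) = 10^2 by norm_num, Real.sqrt_sq (by norm_num)]]
    exact Real.sqrt_le_sqrt g5
  have hn'pos : 0 < n' := Nat.floor_pos.2 (by linarith)
  have hn'1 : √(X:ℝ) < n' + 1 := Nat.lt_floor_add_one _
  have hn'2 : (n':ℝ) ≤ √(X:ℝ) := Nat.floor_le (by positivity)
  obtain ⟨r, hr1, hr2⟩ := Real.exists_rat_abs_sub_le_and_den_le α hn'pos
  set q : ℕ := r.den with hq
  have hqpos : 0 < q := r.den_pos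
  have hq1 : (1:ℝ) ≤ q := by exact_mod_cast hqpos
  have hq0 : (0:ℝ) < q := by linarith
  have hrq : (r:ℝ) = (r.num : ℝ) / q := by
    rw [hq]; exact_mod_cast (Rat.num_div_den r).symm
  have hqn' : (q:ℝ) ≤ n' := by exact_mod_cast hr2
  rw [hrq] at hr1
  have hbig : (X:ℝ) ^ (1/5:ℝ) < q := by
    by_contra hcon
    push Not at hcon
    have h1 := hα q hqpos hcon r.num
    have h2 : |(q:ℝ) * α - r.num| ≤ 1 / (n' + 1) := by
      have e1 : (q:ℝ) * α - r.num = q * (α - r.num / q) := by field_simp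
      rw [e1, abs_mul, abs_of_pos hq0]
      calc (q:ℝ) * |α - r.num / q| ≤ q * (1 / ((n' + 1) * q)) := by gcongr
        _ = 1 / (n' + 1) := by field_simp
    have h3 : 1 / ((n':ℝ) + 1) < 1 / √(X:ℝ) :=
      one_div_lt_one_div_of_lt (by linarith) hn'1
    have h4 : (X:ℝ) ^ (-(1/2) : ℝ) = 1 / √(X:ℝ) := by
      rw [Real.rpow_neg hX0.le, Real.sqrt_eq_rpow]
      exact (one_div _).symm
    rw [h4] at h1
    linarith
  have hdir : |α - r.num / q| ≤ 1 / (q:ℝ)^2 := by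
    refine hr1.trans ?_
    apply one_div_le_one_div_of_le (by positivity)
    rw [sq]; gcongr; linarith
  have hcop : IsCoprime r.num (q:ℤ) := by
    rw [Int.isCoprime_iff_nat_coprime]
    simpa [hq] using r.reduced
  -- the bound for all partial sums
  have hpart : ∀ n ≤ X,
      ‖∑ m ∈ Icc 1 n, ((ArithmeticFunction.vonMangoldt m : ℝ) : ℂ) * ee ((m:ℝ) * α)‖ ≤
        (X:ℝ) ^ (19/20 : ℝ) := by
    intro n hn
    have hnX : (n:ℝ) ≤ X := by exact_mod_cast hn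
    rcases le_or_gt (n:ℝ) ((X:ℝ)^(9/10:ℝ)) with h | h
    · refine (norm_sum_le _ _).trans ?_
      have h2 : ∑ m ∈ Icc 1 n,
          ‖((ArithmeticFunction.vonMangoldt m : ℝ) : ℂ) * ee ((m:ℝ) * α)‖ = Chebyshev.psi n := by
        rw [Chebyshev.psi, Nat.floor_natCast]
        apply Finset.sum_congr
        · ext m; simp [Nat.succ_le_iff]
        · intro m _
          rw [norm_mul, norm_ee, mul_one, Complex.norm_real,
            Real.norm_of_nonneg ArithmeticFunction.vonMangoldt_nonneg]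
      rw [h2]
      have h3 := Chebyshev.psi_le_const_mul_self (x := (n:ℝ)) (by positivity)
      have h4 : Real.log 4 ≤ 2 := by
        rw [show (4:ℝ) = 2^2 by norm_num, Real.log_pow]
        have := Real.log_two_lt_d9
        push_cast; linarith
      have h5 : (X:ℝ)^(19/20:ℝ) = (X:ℝ)^(9/10:ℝ) * (X:ℝ)^(1/20:ℝ) := by
        rw [← Real.rpow_add hX0]; norm_num
      rw [h5]
      have h6 : 0 ≤ (X:ℝ)^(9/10:ℝ) := by positivity
      have hn0 : (0:ℝ) ≤ n := Nat.cast_nonneg n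
      nlinarith
    · have hN0 : N0 ≤ n := by
        have : (N0:ℝ) ≤ n := by linarith
        exact_mod_cast this
      have hn1 : (1:ℝ) ≤ n := by
        have : (1:ℝ) ≤ (X:ℝ)^(9/10:ℝ) := Real.one_le_rpow hX1 (by norm_num)
        linarith
      have hln : Real.log n ≤ Real.log X := Real.log_le_log (by linarith) hnX
      have hln0 : 0 ≤ Real.log n := Real.log_nonneg hn1
      have hK1 : 1 ≤ (X:ℝ)^(1/20:ℝ) := Real.one_le_rpow hX1 (by norm_num)
      have hK2 : (X:ℝ)^(1/20:ℝ) ≤ (n:ℝ)^(9/50:ℝ) := by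
        calc (X:ℝ)^(1/20:ℝ) ≤ (X:ℝ)^(9/10*(9/50):ℝ) :=
              Real.rpow_le_rpow_of_exponent_le hX1 (by norm_num)
          _ = ((X:ℝ)^(9/10:ℝ))^(9/50:ℝ) := by rw [← Real.rpow_mul hX0.le]
          _ ≤ _ := Real.rpow_le_rpow (by positivity) h.le (by norm_num)
      have hKL : ((X:ℝ)^(1/20:ℝ))^2 * Real.log n ^ 16 ≤ (X:ℝ)^(1/5:ℝ) := by
        have e1 : ((X:ℝ)^(1/20:ℝ))^2 = (X:ℝ)^(1/10:ℝ) := by
          rw [← Real.rpow_natCast, ← Real.rpow_mul hX0.le]; norm_num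
        rw [e1]
        calc (X:ℝ)^(1/10:ℝ) * Real.log n ^ 16 ≤ (X:ℝ)^(1/10:ℝ) * Real.log X ^ 16 := by gcongr
          _ ≤ (X:ℝ)^(1/10:ℝ) * (X:ℝ)^(1/10:ℝ) := by gcongr
          _ = _ := by rw [← Real.rpow_add hX0]; norm_num
      have hx15 : (X:ℝ)^(1/5:ℝ) * (X:ℝ)^(1/2:ℝ) ≤ n := by
        calc (X:ℝ)^(1/5:ℝ) * (X:ℝ)^(1/2:ℝ) = (X:ℝ)^(7/10:ℝ) := by
              rw [← Real.rpow_add hX0]; norm_num
          _ ≤ (X:ℝ)^(9/10:ℝ) := Real.rpow_le_rpow_of_exponent_le hX1 (by norm_num)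
          _ ≤ n := h.le
      have hlnpos : 0 < Real.log n := by
        apply Real.log_pos
        have : (16:ℝ) ≤ (X:ℝ)^(9/10:ℝ) := g3.trans
          (Real.rpow_le_rpow_of_exponent_le hX1 (by norm_num))
        linarith
      have hq2 : (q:ℝ) ≤ n / (((X:ℝ)^(1/20:ℝ))^2 * Real.log n ^ 16) := by
        rw [le_div_iff₀ (by positivity)]
        have : (q:ℝ) ≤ (X:ℝ)^(1/2:ℝ) := by
          rw [← Real.sqrt_eq_rpow]; linarith
        calc (q:ℝ) * (((X:ℝ)^(1/20:ℝ))^2 * Real.log n ^ 16) ≤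
              (X:ℝ)^(1/2:ℝ) * (X:ℝ)^(1/5:ℝ) := by gcongr
          _ ≤ n := by linarith [mul_comm ((X:ℝ)^(1/2:ℝ)) ((X:ℝ)^(1/5:ℝ))]
      have h1 := hvin n hN0 ((X:ℝ)^(1/20:ℝ)) hK1 hK2 q (hKL.trans hbig.le) hq2 r.num hcop α hdir
      refine h1.trans ?_
      calc (n:ℝ) / (X:ℝ)^(1/20:ℝ) ≤ X / (X:ℝ)^(1/20:ℝ) := by gcongr
        _ = (X:ℝ)^(19/20:ℝ) := by
          rw [div_eq_iff (by positivity), ← Real.rpow_add hX0]
          norm_num
  have h1 := prime_of_lambda α _ (by positivity) X (by omega) hpart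
  refine h1.trans ?_
  have h2 : 2 * √(X:ℝ) * Real.log X ≤ (X:ℝ)^(19/20:ℝ) := by
    have e1 : √(X:ℝ) = (X:ℝ)^(1/2:ℝ) := Real.sqrt_eq_rpow _
    have e2 : (X:ℝ)^(1/2:ℝ) * (X:ℝ)^(1/40:ℝ) ≤ (X:ℝ)^(19/20:ℝ) := by
      rw [← Real.rpow_add hX0]
      exact Real.rpow_le_rpow_of_exponent_le hX1 (by norm_num)
    rw [e1]
    have e3 : 0 ≤ (X:ℝ)^(1/2:ℝ) := by positivity
    nlinarith
  have h3 : (X:ℝ) / (2 * Real.log X) ≤ #{p ∈ Icc 1 X | p.Prime} := by
    have h4 := Chebyshev.pi_ge X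
    have h5 : ((Nat.primeCounting X : ℕ):ℝ) = #{p ∈ Icc 1 X | p.Prime} := by
      rw [← Nat.primesLE_card_eq_primeCounting]
      congr 2
      ext p
      simp only [Nat.mem_primesLE, mem_filter, mem_Icc]
      constructor
      · rintro ⟨h1, h2⟩; exact ⟨⟨h2.one_le, h1⟩, h2⟩
      · rintro ⟨⟨_, h1⟩, h2⟩; exact ⟨h1, h2⟩
    rw [← h5]
    refine le_trans ?_ h4
    have hlpos : 0 < Real.log X := Real.log_pos (by linarith)
    rw [div_le_div_iff₀ (by positivity) hlpos]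
    have h6 : Real.log ((X:ℝ) + 1) ≤ Real.log 2 + Real.log X := by
      rw [← Real.log_mul (by norm_num) hX0.ne']
      exact Real.log_le_log (by linarith) (by linarith)
    have h7 := Real.log_two_gt_d9
    have h8 := Real.log_two_lt_d9
    have h9 : 16 * Real.log X ≤ X := g2.trans (by
      calc (X:ℝ)^(1/40:ℝ) ≤ (X:ℝ)^(1:ℝ) := Real.rpow_le_rpow_of_exponent_le hX1 (by norm_num)
        _ = X := Real.rpow_one _)
    have h10 : (X:ℝ) * 0.69 ≤ X * Real.log 2 := mul_le_mul_of_nonneg_left (by linarith) hX0.le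
    have h11 : (X:ℝ) ≤ 2 * (X * Real.log 2 - Real.log (X + 1)) := by linarith
    calc (X:ℝ) * Real.log X ≤ 2 * (X * Real.log 2 - Real.log (X + 1)) * Real.log X := by gcongr
      _ = _ := by ring
  have hlpos : 0 < Real.log X := Real.log_pos (by linarith)
  calc 2 * ((X:ℝ)^(19/20:ℝ) + 2 * √(X:ℝ) * Real.log X) ≤ 4 * (X:ℝ)^(19/20:ℝ) := by linarith
    _ ≤ (X:ℝ) / (2 * Real.log X) * (X:ℝ)^(-(1/40):ℝ) := by
      rw [div_mul_eq_mul_div, le_div_iff₀ (by positivity)]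
      have e1 : (X:ℝ) * (X:ℝ)^(-(1/40):ℝ) = (X:ℝ)^(19/20:ℝ) * (X:ℝ)^(1/40:ℝ) := by
        rw [← Real.rpow_add hX0]
        nth_rewrite 1 [← Real.rpow_one (X:ℝ)]
        rw [← Real.rpow_add hX0]
        norm_num
      rw [e1]
      have : 0 ≤ (X:ℝ)^(19/20:ℝ) := by positivity
      nlinarith
    _ ≤ _ := by gcongr

end Pool.Agent.Q47.DG
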