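import Pool.Agent.Q47.DG.Eng
import Pool.Agent.Q47.DG.Pr

set_option autoImplicit false

/-!
# The prime multiples of a number with finite irrationality exponent
-/

namespace Pool.Agent.Q47.DG

open Finset Pool.Agent.W226.MP Pool.Agent.TH869.LPD Pool.Agent.H332R2.Lit Pool.Agent.H807R2.Dav

lemma e_eq_ee (t : ℝ) : e t = ee t := by
  unfold e ee; congr 1; ring

/-- the precision `D` and its size -/
lemma floorD (Y : ℝ) (hY : 1 ≤ Y) : ∃ D : ℕ, 1 ≤ D ∧ (D:ℝ) ≤ Y ∧ Y ≤ 2 * D ∧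
    ∀ n : ℕ, (n:ℝ) ≤ Y → n ≤ D := by
  refine ⟨⌊Y⌋₊, Nat.floor_pos.2 hY, Nat.floor_le (by linarith), ?_, fun n hn => Nat.le_floor hn⟩
  have h1 := Nat.lt_floor_add_one Y
  have h2 : (1:ℝ) ≤ ⌊Y⌋₊ := by exact_mod_cast Nat.floor_pos.2 hY
  linarith

/-- simplify the bound for words which occur only finitely often -/
lemma D_rpow (Y : ℝ) (hY : 1 ≤ Y) (D : ℕ) (hD : 1 ≤ D) (hD2 : Y ≤ 2 * D) (b k : ℕ) (hb : 2 ≤ b)
    (hk : 1 ≤ k) :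
    (D:ℝ) ^ (-(1 / (2 * k * (b:ℝ)^k * Real.log b))) ≤
      2 * Y ^ (-(1 / (2 * k * (b:ℝ)^k * Real.log b))) := by
  have hbr : (2:ℝ) ≤ b := by exact_mod_cast hb
  have hkr : (1:ℝ) ≤ k := by exact_mod_cast hk
  have hDr : (1:ℝ) ≤ D := by exact_mod_cast hD
  have hl : (1:ℝ)/2 ≤ Real.log b := by
    have := Real.log_two_gt_d9
    have := Real.log_le_log (by norm_num) hbr
    linarith
  have hbk : (2:ℝ) ≤ (b:ℝ)^k := by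
    calc (2:ℝ) ≤ b := hbr
      _ = (b:ℝ)^1 := (pow_one _).symm
      _ ≤ (b:ℝ)^k := pow_le_pow_right₀ (by linarith) hk
  set E : ℝ := 1 / (2 * k * (b:ℝ)^k * Real.log b) with hE
  have hden : 1 ≤ 2 * k * (b:ℝ)^k * Real.log b := by
    calc (1:ℝ) ≤ 2 * 1 * 2 * (1/2) := by norm_num
      _ ≤ 2 * k * (b:ℝ)^k * Real.log b := by gcongr
  have hE0 : 0 < E := by positivity
  have hE1 : E ≤ 1 := by
    rw [hE, div_le_one (by positivity)]; exact hden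
  have h1 : Y / 2 ≤ D := by linarith
  have h2 : (D:ℝ)^(-E) ≤ (Y/2)^(-E) :=
    Real.rpow_le_rpow_of_nonpos (by positivity) h1 (by linarith)
  refine h2.trans ?_
  rw [Real.div_rpow (by positivity) (by norm_num), div_eq_mul_inv, mul_comm,
    Real.rpow_neg (by norm_num : (0:ℝ) ≤ 2), inv_inv]
  have h3 : (2:ℝ)^E ≤ 2 := by
    calc (2:ℝ)^E ≤ (2:ℝ)^(1:ℝ) := Real.rpow_le_rpow_of_exponent_le (by norm_num) hE1
      _ = 2 := Real.rpow_one _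
  gcongr

lemma ncard_mem {ι : Type} (s : Finset ι) (Q : ι → Prop) :
    ∃ T : Finset ι, (∀ i, i ∈ T ↔ i ∈ s ∧ Q i) ∧ {i : ι | i ∈ s ∧ Q i}.ncard = #T := by
  classical
  refine ⟨s.filter Q, fun i => by simp, ?_⟩
  rw [← Set.ncard_coe_finset]
  congr 1
  ext i; simp

/-- discrepancy, with sets -/
theorem disc_ncard {ι : Type} (s : Finset ι) (v : ι → ℝ) (b D n : ℕ) (hD : 1 ≤ D)
    (hg : Good s v b D n) (α β : ℝ) (hα : 0 ≤ α) (hαβ : α ≤ β) (hβ : β ≤ 1) :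
    |({i : ι | i ∈ s ∧ α ≤ Int.fract ((b:ℝ)^n * v i) ∧
      Int.fract ((b:ℝ)^n * v i) < β}.ncard : ℝ) - (β - α) * #s| ≤ 5 * #s / D := by
  classical
  obtain ⟨T, hT1, hT2⟩ := ncard_mem s (fun i => α ≤ Int.fract ((b:ℝ)^n * v i) ∧
      Int.fract ((b:ℝ)^n * v i) < β)
  rw [hT2]
  have h1 := good_disc s v b D n hD hg α β hα hαβ hβ
  have h2 : T = Finset.filter (fun i => α ≤ Int.fract ((b:ℝ)^n * v i) ∧
      Int.fract ((b:ℝ)^n * v i) < β) s := by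
    ext i; simp only [hT1, mem_filter]
  rw [h2]
  convert h1

/-- frequencies, with sets -/
theorem freq_ncard {ι : Type} (s : Finset ι) (v : ι → ℝ) (b D n : ℕ) (hb : 2 ≤ b)
    (hD : 1 ≤ D) (hg : Good s v b D n) (k L : ℕ) (hk : 1 ≤ k) (hkL : k ≤ L) (hL : b ^ L ≤ D)
    (ε : ℝ) (hε : 0 < ε) (hε1 : ε ≤ 1) :
    ({i : ι | i ∈ s ∧ ∃ w : Fin k → Fin b, ε * (L + 1 - k : ℕ) + k <
        |(occ b k w (v i) n (L + 1 - k) : ℝ) - (L + 1 - k : ℕ) / (b : ℝ) ^ k|}.ncard : ℝ) ≤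
      12 * k * (b:ℝ)^k * Real.exp (-(ε ^ 2 / 4) * ((L + 1 - k) / k : ℕ)) * #s := by
  obtain ⟨T, hT1, hT2⟩ := ncard_mem s (fun i => ∃ w : Fin k → Fin b, ε * (L + 1 - k : ℕ) + k <
        |(occ b k w (v i) n (L + 1 - k) : ℝ) - (L + 1 - k : ℕ) / (b : ℝ) ^ k|)
  rw [hT2]
  exact good_freq s v b D n hb hD hg k L hk hkL hL ε hε hε1 T (fun i hi => (hT1 i).1 hi)

/-- words which occur only finitely often, with sets -/
theorem inf_ncard {ι : Type} (s : Finset ι) (v : ι → ℝ) (b D : ℕ) (hb : 2 ≤ b)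
    (hD : 1 ≤ D) (hg : ∀ S : ℕ, ∃ n : ℕ, S ≤ n ∧ Good s v b D n) (k : ℕ) (hk : 1 ≤ k) :
    ({i : ι | i ∈ s ∧ ∃ w : Fin k → Fin b, {p : ℕ | OccursAt b k w (v i) p}.Finite}.ncard : ℝ) ≤
      12 * (b:ℝ)^k * #s * (D:ℝ) ^ (-(1 / (2 * k * (b:ℝ)^k * Real.log b))) := by
  obtain ⟨T, hT1, hT2⟩ := ncard_mem s (fun i => ∃ w : Fin k → Fin b,
    {p : ℕ | OccursAt b k w (v i) p}.Finite)
  rw [hT2]
  exact good_inf s v b D hb hD hg k hk T (fun i hi => (hT1 i).1 hi)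

open Filter in
/-- **Prime multiples.** -/
theorem prime_family : ∃ X0 : ℕ, ∀ X : ℕ, X0 ≤ X → ∀ b : ℕ, 2 ≤ b → b ^ 5 ≤ X →
    ∀ ξ κ c0 : ℝ, 0 < κ → 0 < c0 →
    (∀ q : ℕ, 1 ≤ q → ∀ p : ℤ, c0 ≤ (q : ℝ) ^ κ * |q * ξ - p|) → ∀ x : ℝ,
    ∀ D : ℕ, 1 ≤ D → (D:ℝ) ≤ (X:ℝ)^(1/160:ℝ) → ∀ S : ℕ, ∃ n : ℕ, S ≤ n ∧
      (n:ℝ) ≤ (1 + κ) * S + κ * (Real.log X / Real.log b) + (|Real.log c0| / Real.log 2 + 1) ∧
      Good {p ∈ Icc 1 X | p.Prime} (fun p : ℕ => x + ((p:ℤ):ℝ) * ξ) b D n := by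
  obtain ⟨X1, h1⟩ := prime_minor
  have ev : ∀ᶠ x : ℝ in atTop, 2 ≤ x ^ (1/20 : ℝ) :=
    (tendsto_rpow_atTop (by norm_num : (0:ℝ) < 1/20)).eventually_ge_atTop 2
  obtain ⟨x0, hx0⟩ := eventually_atTop.1 (ev.and (eventually_ge_atTop 2))
  refine ⟨max X1 ⌈x0⌉₊, fun X hX b hb hbX ξ κ c0 hκ hc0 hξ x D hD hDX S => ?_⟩
  obtain ⟨g1, g2⟩ := hx0 X ((Nat.le_ceil x0).trans (by exact_mod_cast (le_max_right _ _).trans hX))
  have hX0 : (0:ℝ) < X := by linarith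
  have hX1 : (1:ℝ) ≤ X := by linarith
  have hDr : (1:ℝ) ≤ D := by exact_mod_cast hD
  have hbr : (2:ℝ) ≤ b := by exact_mod_cast hb
  have hbX' : (b:ℝ) ≤ (X:ℝ)^(1/5:ℝ) := by
    have h2 : ((b:ℝ)^5) ≤ X := by exact_mod_cast hbX
    calc (b:ℝ) = ((b:ℝ)^5)^(1/5:ℝ) := by
          rw [← Real.rpow_natCast, ← Real.rpow_mul (by positivity)]; norm_num
      _ ≤ _ := Real.rpow_le_rpow (by positivity) h2 (by norm_num)
  have hD3 : (D:ℝ)^3 ≤ (X:ℝ)^(3/160:ℝ) := by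
    calc (D:ℝ)^3 ≤ ((X:ℝ)^(1/160:ℝ))^3 := by gcongr
      _ = _ := by rw [← Real.rpow_natCast, ← Real.rpow_mul hX0.le]; norm_num
  have hD4 : (D:ℝ)^4 ≤ (X:ℝ)^(1/40:ℝ) := by
    calc (D:ℝ)^4 ≤ ((X:ℝ)^(1/160:ℝ))^4 := by gcongr
      _ = _ := by rw [← Real.rpow_natCast, ← Real.rpow_mul hX0.le]; norm_num
  have hU : 1 ≤ (X:ℝ)^(1/5:ℝ) := Real.one_le_rpow hX1 (by norm_num)
  have hlb : 0 < Real.log b := Real.log_pos (by linarith)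
  obtain ⟨n, hn1, hn2, hn3⟩ := places {p ∈ Icc 1 X | p.Prime} (fun p : ℕ => (p:ℤ)) (fun _ => x)
    ξ κ c0 hκ hc0 hξ b hb D hD ((X:ℝ)^(1/5:ℝ)) ((X:ℝ)^(-(1/2):ℝ)) hU (by positivity) (by
      have h3 : (b:ℝ) + 1 ≤ (X:ℝ)^(1/20:ℝ) * (X:ℝ)^(1/5:ℝ) := by nlinarith
      calc ((b:ℝ) + 1) * ((X:ℝ)^(1/5:ℝ) * (D:ℝ)^3) * (X:ℝ)^(-(1/2):ℝ) ≤
          ((X:ℝ)^(1/20:ℝ) * (X:ℝ)^(1/5:ℝ)) * ((X:ℝ)^(1/5:ℝ) * (X:ℝ)^(3/160:ℝ)) *
            (X:ℝ)^(-(1/2):ℝ) := by gcongr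
        _ = (X:ℝ)^(-(1/32):ℝ) := by
            rw [← Real.rpow_add hX0, ← Real.rpow_add hX0, ← Real.rpow_add hX0,
              ← Real.rpow_add hX0]
            norm_num
        _ ≤ 1 := Real.rpow_le_one_of_one_le_of_nonpos hX1 (by norm_num)) (by
      intro h n α hα
      have h3 := h1 X ((le_max_left _ _).trans hX) α hα
      have e1 : ∑ p ∈ Icc 1 X with p.Prime, e (h * ((b:ℝ)^n * x) + ((p:ℤ):ℝ) * α) =
          ee (h * ((b:ℝ)^n * x)) * ∑ p ∈ Icc 1 X with p.Prime, ee ((p:ℝ) * α) := by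
        rw [Finset.mul_sum]
        apply Finset.sum_congr rfl
        intro p _
        rw [e_eq_ee, ee_add]
        push_cast; rfl
      rw [e1, norm_mul, norm_ee, one_mul]
      refine h3.trans ?_
      rw [div_eq_mul_inv]
      apply mul_le_mul_of_nonneg_left _ (Nat.cast_nonneg _)
      rw [Real.rpow_neg hX0.le]
      exact inv_anti₀ (by positivity) hD4) S
  refine ⟨n, hn1, hn2.trans ?_, hn3⟩
  have h4 : Real.log ((X:ℝ)^(1/5:ℝ) * (D:ℝ)^3) ≤ Real.log X := by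
    apply Real.log_le_log (by positivity)
    calc (X:ℝ)^(1/5:ℝ) * (D:ℝ)^3 ≤ (X:ℝ)^(1/5:ℝ) * (X:ℝ)^(3/160:ℝ) := by gcongr
      _ = (X:ℝ)^(7/32:ℝ) := by rw [← Real.rpow_add hX0]; norm_num
      _ ≤ (X:ℝ)^(1:ℝ) := Real.rpow_le_rpow_of_exponent_le hX1 (by norm_num)
      _ = X := Real.rpow_one _
  gcongr

end Pool.Agent.Q47.DG
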