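import Pool.Agent.Q47.DG.Pr
import Pool.Agent.Q47.DG.Bil

set_option autoImplicit false

/-!
# Exponential sums over primes and over products, only small denominators excluded
-/

namespace Pool.Agent.Q47.DG

open Finset Pool.Agent.H807R2.Dav

open Filter in
/-- **Prime sums, minor arcs.** -/
theorem prime_minor_k (κ : ℝ) (hκ : 0 < κ) (hκ1 : κ ≤ 1/5) : ∃ X0 : ℕ, ∀ X : ℕ, X0 ≤ X → ∀ α : ℝ,
    (∀ u : ℕ, 1 ≤ u → (u:ℝ) ≤ (X:ℝ) ^ κ → ∀ t : ℤ, (X:ℝ) ^ (-(1/2) : ℝ) ≤ |u * α - t|) →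
    ‖∑ p ∈ Icc 1 X with p.Prime, ee ((p:ℝ) * α)‖ ≤
      #{p ∈ Icc 1 X | p.Prime} * (X:ℝ) ^ (-(κ/8)) := by
  obtain ⟨N0, hvin⟩ := Pool.Agent.Y883.T3.vin_pow
  have ev1 : ∀ᶠ x : ℝ in atTop, Real.log x ^ 16 ≤ x ^ (κ/2) := by
    have h := (isLittleO_log_rpow_atTop (by positivity : (0:ℝ) < κ/32)).bound one_pos
    filter_upwards [h, eventually_ge_atTop 1] with x hx hx1
    have hl : 0 ≤ Real.log x := Real.log_nonneg hx1
    rw [Real.norm_of_nonneg hl, Real.norm_of_nonneg (by positivity), one_mul] at hx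
    calc Real.log x ^ 16 ≤ (x ^ (κ/32)) ^ 16 := by gcongr
      _ = x ^ (κ/2) := by
        rw [← Real.rpow_natCast, ← Real.rpow_mul (by linarith)]; congr 1; push_cast; ring
  have ev2 : ∀ᶠ x : ℝ in atTop, 16 * Real.log x ≤ x ^ (κ/8) := by
    have h := (isLittleO_log_rpow_atTop (by positivity : (0:ℝ) < κ/8)).bound
      (by norm_num : (0:ℝ) < 1/16)
    filter_upwards [h, eventually_ge_atTop 1] with x hx hx1
    have hl : 0 ≤ Real.log x := Real.log_nonneg hx1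
    rw [Real.norm_of_nonneg hl, Real.norm_of_nonneg (by positivity)] at hx
    linarith
  have ev3 : ∀ᶠ x : ℝ in atTop, 16 ≤ x ^ (1/20 : ℝ) :=
    (tendsto_rpow_atTop (by norm_num : (0:ℝ) < 1/20)).eventually_ge_atTop 16
  have ev4 : ∀ᶠ x : ℝ in atTop, (N0:ℝ) + 1 ≤ x ^ (9/10 : ℝ) :=
    (tendsto_rpow_atTop (by norm_num : (0:ℝ) < 9/10)).eventually_ge_atTop _
  obtain ⟨x0, hx0⟩ := eventually_atTop.1 (((ev1.and ev2).and (ev3.and ev4)).and
    (eventually_ge_atTop 100))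
  refine ⟨⌈x0⌉₊, fun X hX α hα => ?_⟩
  obtain ⟨⟨⟨g1, g2⟩, g3, g4⟩, g5⟩ := hx0 X ((Nat.le_ceil x0).trans (by exact_mod_cast hX))
  have hX0 : (0:ℝ) < X := by linarith
  have hX1 : (1:ℝ) ≤ X := by linarith
  have hlX : 0 ≤ Real.log X := Real.log_nonneg hX1
  have hXn : 100 ≤ X := by exact_mod_cast g5
  -- Dirichlet
  set n' : ℕ := ⌊√(X:ℝ)⌋₊ with hn'
  have hs10 : (10:ℝ) ≤ √(X:ℝ) := by
    rw [show (10:ℝ) = √100 by rw [show (100:ℝ) = 10^2 by norm_num, Real.sqrt_sq (by norm_num)]]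
    exact Real.sqrt_le_sqrt g5
  have hn'pos : 0 < n' := Nat.floor_pos.2 (by linarith)
  have hn'1 : √(X:ℝ) < n' + 1 := Nat.lt_floor_add_one _
  have hn'2 : (n':ℝ) ≤ √(X:ℝ) := Nat.floor_le (by positivity)
  obtain ⟨r, hr1, hr2⟩ := Real.exists_rat_abs_sub_le_and_den_le α hn'pos
  set q : ℕ := r.den with hq
  have hqpos : 0 < q := r.den_pos
  have hq1 : (1:ℝ) ≤ q := by exact_mod_cast hqpos
  have hq0 : (0:ℝ) < q := by linarith
  have hrq : (r:ℝ) = (r.num : ℝ) / q := by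
    rw [hq]; exact_mod_cast (Rat.num_div_den r).symm
  have hqn' : (q:ℝ) ≤ n' := by exact_mod_cast hr2
  rw [hrq] at hr1
  have hbig : (X:ℝ) ^ κ < q := by
    by_contra hcon
    push Not at hcon
    have h1 := hα q hqpos hcon r.num
    have h2 : |(q:ℝ) * α - r.num| ≤ 1 / (n' + 1) := by
      have e1 : (q:ℝ) * α - r.num = q * (α - r.num / q) := by field_simp
      rw [e1, abs_mul, abs_of_pos hq0]
      calc (q:ℝ) * |α - r.num / q| ≤ q * (1 / ((n' + 1) * q)) := by gcongr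
        _ = 1 / (n' + 1) := by field_simp
    have h3 : 1 / ((n':ℝ) + 1) < 1 / √(X:ℝ) :=
      one_div_lt_one_div_of_lt (by linarith) hn'1
    have h4 : (X:ℝ) ^ (-(1/2) : ℝ) = 1 / √(X:ℝ) := by
      rw [Real.rpow_neg hX0.le, Real.sqrt_eq_rpow]
      exact (one_div _).symm
    rw [h4] at h1
    linarith
  have hdir : |α - r.num / q| ≤ 1 / (q:ℝ)^2 := by
    refine hr1.trans ?_
    apply one_div_le_one_div_of_le (by positivity)
    rw [sq]; gcongr; linarith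
  have hcop : IsCoprime r.num (q:ℤ) := by
    rw [Int.isCoprime_iff_nat_coprime]
    simpa [hq] using r.reduced
  -- the bound for all partial sums
  have hpart : ∀ n ≤ X,
      ‖∑ m ∈ Icc 1 n, ((ArithmeticFunction.vonMangoldt m : ℝ) : ℂ) * ee ((m:ℝ) * α)‖ ≤
        (X:ℝ) ^ (1 - κ/4) := by
    intro n hn
    have hnX : (n:ℝ) ≤ X := by exact_mod_cast hn
    rcases le_or_gt (n:ℝ) ((X:ℝ)^(9/10:ℝ)) with h | h
    · refine (norm_sum_le _ _).trans ?_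
      have h2 : ∑ m ∈ Icc 1 n,
          ‖((ArithmeticFunction.vonMangoldt m : ℝ) : ℂ) * ee ((m:ℝ) * α)‖ = Chebyshev.psi n := by
        rw [Chebyshev.psi, Nat.floor_natCast]
        apply Finset.sum_congr
        · ext m; simp [Nat.succ_le_iff]
        · intro m _
          rw [norm_mul, norm_ee, mul_one, Complex.norm_real,
            Real.norm_of_nonneg ArithmeticFunction.vonMangoldt_nonneg]
      rw [h2]
      have h3 := Chebyshev.psi_le_const_mul_self (x := (n:ℝ)) (by positivity)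
      have h4 : Real.log 4 ≤ 2 := by
        rw [show (4:ℝ) = 2^2 by norm_num, Real.log_pow]
        have := Real.log_two_lt_d9
        push_cast; linarith
      have h5 : (X:ℝ)^(9/10:ℝ) * (X:ℝ)^(1/20:ℝ) ≤ (X:ℝ)^(1 - κ/4) := by
        rw [← Real.rpow_add hX0]
        exact Real.rpow_le_rpow_of_exponent_le hX1 (by linarith)
      refine le_trans ?_ h5
      have h6 : 0 ≤ (X:ℝ)^(9/10:ℝ) := by positivity
      have hn0 : (0:ℝ) ≤ n := Nat.cast_nonneg n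
      nlinarith
    · have hN0 : N0 ≤ n := by
        have : (N0:ℝ) ≤ n := by linarith
        exact_mod_cast this
      have hn1 : (1:ℝ) ≤ n := by
        have : (1:ℝ) ≤ (X:ℝ)^(9/10:ℝ) := Real.one_le_rpow hX1 (by norm_num)
        linarith
      have hln : Real.log n ≤ Real.log X := Real.log_le_log (by linarith) hnX
      have hln0 : 0 ≤ Real.log n := Real.log_nonneg hn1
      have hK1 : 1 ≤ (X:ℝ)^(κ/4) := Real.one_le_rpow hX1 (by positivity)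
      have hK2 : (X:ℝ)^(κ/4) ≤ (n:ℝ)^(9/50:ℝ) := by
        calc (X:ℝ)^(κ/4) ≤ (X:ℝ)^(9/10*(9/50):ℝ) :=
              Real.rpow_le_rpow_of_exponent_le hX1 (by linarith)
          _ = ((X:ℝ)^(9/10:ℝ))^(9/50:ℝ) := by rw [← Real.rpow_mul hX0.le]
          _ ≤ _ := Real.rpow_le_rpow (by positivity) h.le (by norm_num)
      have hKL : ((X:ℝ)^(κ/4))^2 * Real.log n ^ 16 ≤ (X:ℝ)^κ := by
        have e1 : ((X:ℝ)^(κ/4))^2 = (X:ℝ)^(κ/2) := by
          rw [← Real.rpow_natCast, ← Real.rpow_mul hX0.le]; congr 1; push_cast; ring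
        rw [e1]
        calc (X:ℝ)^(κ/2) * Real.log n ^ 16 ≤ (X:ℝ)^(κ/2) * Real.log X ^ 16 := by gcongr
          _ ≤ (X:ℝ)^(κ/2) * (X:ℝ)^(κ/2) := by gcongr
          _ = _ := by rw [← Real.rpow_add hX0]; congr 1; ring
      have hκ5 : (X:ℝ)^κ ≤ (X:ℝ)^(1/5:ℝ) := Real.rpow_le_rpow_of_exponent_le hX1 hκ1
      have hx15 : (X:ℝ)^(1/5:ℝ) * (X:ℝ)^(1/2:ℝ) ≤ n := by
        calc (X:ℝ)^(1/5:ℝ) * (X:ℝ)^(1/2:ℝ) = (X:ℝ)^(7/10:ℝ) := by
              rw [← Real.rpow_add hX0]; norm_num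
          _ ≤ (X:ℝ)^(9/10:ℝ) := Real.rpow_le_rpow_of_exponent_le hX1 (by norm_num)
          _ ≤ n := h.le
      have hlnpos : 0 < Real.log n := by
        apply Real.log_pos
        have : (16:ℝ) ≤ (X:ℝ)^(9/10:ℝ) := g3.trans
          (Real.rpow_le_rpow_of_exponent_le hX1 (by norm_num))
        linarith
      have hq2 : (q:ℝ) ≤ n / (((X:ℝ)^(κ/4))^2 * Real.log n ^ 16) := by
        rw [le_div_iff₀ (by positivity)]
        have : (q:ℝ) ≤ (X:ℝ)^(1/2:ℝ) := by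
          rw [← Real.sqrt_eq_rpow]; linarith
        calc (q:ℝ) * (((X:ℝ)^(κ/4))^2 * Real.log n ^ 16) ≤
              (X:ℝ)^(1/2:ℝ) * (X:ℝ)^(1/5:ℝ) := by
                have := hKL.trans hκ5
                gcongr
          _ ≤ n := by linarith [mul_comm ((X:ℝ)^(1/2:ℝ)) ((X:ℝ)^(1/5:ℝ))]
      have h1 := hvin n hN0 ((X:ℝ)^(κ/4)) hK1 hK2 q (hKL.trans hbig.le) hq2 r.num hcop α hdir
      refine h1.trans ?_
      calc (n:ℝ) / (X:ℝ)^(κ/4) ≤ X / (X:ℝ)^(κ/4) := by gcongr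
        _ = (X:ℝ)^(1 - κ/4) := by
          rw [div_eq_iff (by positivity), ← Real.rpow_add hX0]
          simp
  have h1 := prime_of_lambda α _ (by positivity) X (by omega) hpart
  refine h1.trans ?_
  have h2 : 2 * √(X:ℝ) * Real.log X ≤ (X:ℝ)^(1 - κ/4) := by
    have e1 : √(X:ℝ) = (X:ℝ)^(1/2:ℝ) := Real.sqrt_eq_rpow _
    have e2 : (X:ℝ)^(1/2:ℝ) * (X:ℝ)^(κ/8) ≤ (X:ℝ)^(1 - κ/4) := by
      rw [← Real.rpow_add hX0]
      exact Real.rpow_le_rpow_of_exponent_le hX1 (by linarith)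
    rw [e1]
    have e3 : 0 ≤ (X:ℝ)^(1/2:ℝ) := by positivity
    nlinarith
  have h3 : (X:ℝ) / (2 * Real.log X) ≤ #{p ∈ Icc 1 X | p.Prime} := by
    have h4 := Chebyshev.pi_ge X
    have h5 : ((Nat.primeCounting X : ℕ):ℝ) = #{p ∈ Icc 1 X | p.Prime} := by
      rw [← Nat.primesLE_card_eq_primeCounting]
      congr 2
      ext p
      simp only [Nat.mem_primesLE, mem_filter, mem_Icc]
      constructor
      · rintro ⟨h1, h2⟩; exact ⟨⟨h2.one_le, h1⟩, h2⟩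
      · rintro ⟨⟨_, h1⟩, h2⟩; exact ⟨h1, h2⟩
    rw [← h5]
    refine le_trans ?_ h4
    have hlpos : 0 < Real.log X := Real.log_pos (by linarith)
    rw [div_le_div_iff₀ (by positivity) hlpos]
    have h6 : Real.log ((X:ℝ) + 1) ≤ Real.log 2 + Real.log X := by
      rw [← Real.log_mul (by norm_num) hX0.ne']
      exact Real.log_le_log (by linarith) (by linarith)
    have h7 := Real.log_two_gt_d9
    have h8 := Real.log_two_lt_d9
    have h9 : 16 * Real.log X ≤ X := g2.trans (by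
      calc (X:ℝ)^(κ/8) ≤ (X:ℝ)^(1:ℝ) := Real.rpow_le_rpow_of_exponent_le hX1 (by linarith)
        _ = X := Real.rpow_one _)
    have h10 : (X:ℝ) * 0.69 ≤ X * Real.log 2 := mul_le_mul_of_nonneg_left (by linarith) hX0.le
    have h11 : (X:ℝ) ≤ 2 * (X * Real.log 2 - Real.log (X + 1)) := by linarith
    calc (X:ℝ) * Real.log X ≤ 2 * (X * Real.log 2 - Real.log (X + 1)) * Real.log X := by gcongr
      _ = _ := by ring
  have hlpos : 0 < Real.log X := Real.log_pos (by linarith)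
  calc 2 * ((X:ℝ)^(1 - κ/4) + 2 * √(X:ℝ) * Real.log X) ≤ 4 * (X:ℝ)^(1 - κ/4) := by linarith
    _ ≤ (X:ℝ) / (2 * Real.log X) * (X:ℝ)^(-(κ/8)) := by
      rw [div_mul_eq_mul_div, le_div_iff₀ (by positivity)]
      have e1 : (X:ℝ) * (X:ℝ)^(-(κ/8)) = (X:ℝ)^(1 - κ/4) * (X:ℝ)^(κ/8) := by
        rw [← Real.rpow_add hX0]
        nth_rewrite 1 [← Real.rpow_one (X:ℝ)]
        rw [← Real.rpow_add hX0]
        congr 1; ring
      rw [e1]
      have : 0 ≤ (X:ℝ)^(1 - κ/4) := by positivity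
      nlinarith
    _ ≤ _ := by gcongr



open Filter in
/-- **Products of two dense sets.** -/
theorem product_minor_k (κ : ℝ) (hκ : 0 < κ) (hκ1 : κ ≤ 1/5) : ∃ X0 : ℕ, ∀ X : ℕ, X0 ≤ X →
    ∀ A B : Finset ℕ, (∀ a ∈ A, 1 ≤ a ∧ a ≤ X) → (∀ c ∈ B, 1 ≤ c ∧ c ≤ X) →
    (X:ℝ) ^ (2 - κ/4) ≤ #A * #B →
    ∀ φ ψ : ℕ → ℂ, (∀ a, ‖φ a‖ ≤ 1) → (∀ c, ‖ψ c‖ ≤ 1) → ∀ α : ℝ,
    (∀ u : ℕ, 1 ≤ u → (u:ℝ) ≤ (X:ℝ) ^ κ → ∀ t : ℤ, (X:ℝ) ^ (-(1/2) : ℝ) ≤ |u * α - t|) →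
    ‖∑ i ∈ A ×ˢ B, φ i.1 * ψ i.2 * ee ((i.1 * i.2 : ℕ) * α)‖ ≤
      #A * #B * (X:ℝ) ^ (-(κ/8)) := by
  have ev1 : ∀ᶠ x : ℝ in atTop, 3 * (42 + 3 * Real.log x) ≤ x ^ (κ/2) := by
    have h := (isLittleO_log_rpow_atTop (by positivity : (0:ℝ) < κ/2)).bound
      (by norm_num : (0:ℝ) < 1/18)
    have h2 := (tendsto_rpow_atTop (by positivity : (0:ℝ) < κ/2)).eventually_ge_atTop 252
    filter_upwards [h, h2, eventually_ge_atTop 1] with x hx hx2 hx1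
    have hl : 0 ≤ Real.log x := Real.log_nonneg hx1
    rw [Real.norm_of_nonneg hl, Real.norm_of_nonneg (by positivity)] at hx
    linarith
  obtain ⟨x0, hx0⟩ := eventually_atTop.1 (ev1.and (eventually_ge_atTop 4))
  refine ⟨⌈x0⌉₊, fun X hX A B hA hB hAB φ ψ hφ hψ α hα => ?_⟩
  obtain ⟨g1, g2⟩ := hx0 X ((Nat.le_ceil x0).trans (by exact_mod_cast hX))
  have hX0 : (0:ℝ) < X := by linarith
  have hX1 : (1:ℝ) ≤ X := by linarith
  have hXn : 0 < X := by exact_mod_cast hX0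
  have hlX : 0 ≤ Real.log X := Real.log_nonneg hX1
  obtain ⟨r, hr1, hr2⟩ := Real.exists_rat_abs_sub_le_and_den_le α hXn
  set q : ℕ := r.den with hq
  have hqpos : 0 < q := r.den_pos
  have hq1 : (1:ℝ) ≤ q := by exact_mod_cast hqpos
  have hq0 : (0:ℝ) < q := by linarith
  have hrq : (r:ℝ) = (r.num : ℝ) / q := by
    rw [hq]; exact_mod_cast (Rat.num_div_den r).symm
  have hqX : (q:ℝ) ≤ X := by exact_mod_cast hr2
  rw [hrq] at hr1
  have hbig : (X:ℝ) ^ κ < q := by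
    by_contra hcon
    push Not at hcon
    have h1 := hα q hqpos hcon r.num
    have h2 : |(q:ℝ) * α - r.num| ≤ 1 / (X + 1) := by
      have e1 : (q:ℝ) * α - r.num = q * (α - r.num / q) := by field_simp
      rw [e1, abs_mul, abs_of_pos hq0]
      calc (q:ℝ) * |α - r.num / q| ≤ q * (1 / ((X + 1) * q)) := by gcongr
        _ = 1 / (X + 1) := by field_simp
    have h3 : 1 / ((X:ℝ) + 1) < 1 / X := one_div_lt_one_div_of_lt (by linarith) (by linarith)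
    have h4 : 1 / (X:ℝ) ≤ (X:ℝ) ^ (-(1/2) : ℝ) := by
      rw [one_div, ← Real.rpow_neg_one]
      exact Real.rpow_le_rpow_of_exponent_le hX1 (by norm_num)
    linarith
  have hdir : |α - r.num / q| ≤ 1 / (q:ℝ)^2 := by
    refine hr1.trans ?_
    apply one_div_le_one_div_of_le (by positivity)
    rw [sq]; gcongr; linarith
  have hcop : IsCoprime r.num (q:ℤ) := by
    rw [Int.isCoprime_iff_nat_coprime]
    simpa [hq] using r.reduced
  have h1 := bilinear A B X X hA hB φ ψ hφ hψ α q hqpos r.num hcop hdir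
  have h2 : (2 * (X:ℝ) / q + 1) * (39 * X + 3 * q * (1 + Real.log q)) ≤ (X:ℝ) ^ (2 - κ/2) := by
    have h3 : (X:ℝ) / q ≤ (X:ℝ)^(1 - κ) := by
      rw [div_le_iff₀ hq0]
      calc (X:ℝ) = (X:ℝ)^(1 - κ) * (X:ℝ)^κ := by
            rw [← Real.rpow_add hX0]; simp
        _ ≤ (X:ℝ)^(1 - κ) * q := by gcongr
    have h4 : 1 ≤ (X:ℝ)^(1 - κ) := Real.one_le_rpow hX1 (by linarith)
    have h5 : Real.log q ≤ Real.log X := Real.log_le_log hq0 hqX
    have h6 : 0 ≤ Real.log q := Real.log_nonneg hq1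
    have h7 : 2 * (X:ℝ) / q + 1 ≤ 3 * (X:ℝ)^(1 - κ) := by
      rw [mul_div_assoc]; linarith
    calc (2 * (X:ℝ) / q + 1) * (39 * X + 3 * q * (1 + Real.log q)) ≤
        (3 * (X:ℝ)^(1 - κ)) * (39 * X + 3 * X * (1 + Real.log X)) := by gcongr
      _ = (X:ℝ)^(1 - κ) * X * (3 * (42 + 3 * Real.log X)) := by ring
      _ ≤ (X:ℝ)^(1 - κ) * X * (X:ℝ)^(κ/2) := by gcongr
      _ = (X:ℝ) ^ (2 - κ/2) := by
        nth_rewrite 2 [← Real.rpow_one (X:ℝ)]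
        rw [← Real.rpow_add hX0, ← Real.rpow_add hX0]
        congr 1; ring
  have h3 : ‖∑ i ∈ A ×ˢ B, φ i.1 * ψ i.2 * ee ((i.1 * i.2 : ℕ) * α)‖ ^ 2 ≤
      (#A * #B * (X:ℝ) ^ (-(κ/8))) ^ 2 := by
    refine h1.trans ?_
    calc (#A:ℝ) * #B * ((2 * X / q + 1) * (39 * X + 3 * q * (1 + Real.log q)))
        ≤ (#A:ℝ) * #B * (X:ℝ) ^ (2 - κ/2) := by gcongr
      _ = (#A:ℝ) * #B * ((X:ℝ) ^ (2 - κ/4) * (X:ℝ)^(-(κ/4))) := by
        rw [← Real.rpow_add hX0]; congr 2; ring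
      _ ≤ (#A:ℝ) * #B * ((#A * #B) * (X:ℝ)^(-(κ/4))) := by gcongr
      _ = _ := by
        have : (X:ℝ)^(-(κ/4)) = ((X:ℝ) ^ (-(κ/8)))^2 := by
          rw [← Real.rpow_natCast, ← Real.rpow_mul hX0.le]; congr 1; push_cast; ring
        rw [this]; ring
  exact le_of_sq_le_sq h3 (by positivity)

end Pool.Agent.Q47.DG
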