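import Pool.Agent.Q47.DG.All
import Pool.Agent.Q47.DG.Bil
import Pool.Agent.TH629.RidM

set_option autoImplicit false

/-!
# All places up to a multiple of `log X` are good for the products of two sets
-/

namespace Pool.Agent.Q47.DG

open Finset Pool.Agent.W226.MP Pool.Agent.TH869.LPD Filter Pool.Agent.H332R2.Lit
  Pool.Agent.H807R2.Dav

lemma e_ee (t : ℝ) : e t = ee t := by
  unfold e ee; congr 1; ring

/-- **Products of two sets.** -/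
theorem prod_good (ξ : ℝ) (halg : IsAlgebraic ℚ ξ) (hirr : Irrational ξ) (b : ℕ) (hb : 2 ≤ b)
    (δ : ℝ) (hδ : 0 < δ) (hδ1 : δ ≤ 1) (A : ℝ) (hA : 0 < A) :
    ∃ X0 : ℕ, ∀ X : ℕ, X0 ≤ X → ∀ P Q : Finset ℕ, (∀ a ∈ P, 1 ≤ a ∧ a ≤ X) →
      (∀ c ∈ Q, 1 ≤ c ∧ c ≤ X) → (X:ℝ) ^ (1 + δ) ≤ #P * #Q → ∀ u v : ℕ → ℝ,
      ∀ D : ℕ, 1 ≤ D → (D:ℝ) ≤ (X:ℝ)^(δ/16) → ∀ n : ℕ, (n:ℝ) ≤ A * Real.log X →
      Good (P ×ˢ Q) (fun i : ℕ × ℕ => u i.1 + v i.2 + ((i.1 * i.2 : ℕ) : ℝ) * ξ) b D n := by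
  have hbr : (2:ℝ) ≤ b := by exact_mod_cast hb
  have hlb : 0 < Real.log b := Real.log_pos (by linarith)
  obtain ⟨X1, hminor⟩ := product_minor δ hδ
  obtain ⟨e0, he0⟩ : ∃ e0, e0 = δ / (32 * (1 + A * Real.log b)) := ⟨_, rfl⟩
  have he00 : 0 < e0 := by rw [he0]; positivity
  have he01 : e0 * (1 + A * Real.log b) = δ / 32 := by rw [he0]; field_simp
  obtain ⟨c, hc, hrid⟩ := Pool.Agent.TH629.RidM.ridout_meas ξ halg hirr b.primeFactors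
    (fun ℓ hℓ => Nat.prime_of_mem_primeFactors hℓ) e0 he00
  have ev : ∀ᶠ x : ℝ in atTop, 1 / c ≤ x ^ (δ/32) :=
    (tendsto_rpow_atTop (by positivity : (0:ℝ) < δ/32)).eventually_ge_atTop _
  obtain ⟨x0, hx0⟩ := eventually_atTop.1 (ev.and (eventually_ge_atTop 2))
  refine ⟨max X1 ⌈x0⌉₊, fun X hX P Q hP hQ hPQ u v D hD hDX n hn => ?_⟩
  obtain ⟨g1, g2⟩ := hx0 X ((Nat.le_ceil x0).trans (by exact_mod_cast (le_max_right _ _).trans hX))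
  have hX0 : (0:ℝ) < X := by linarith
  have hX1 : (1:ℝ) ≤ X := by linarith
  have hlX : 0 < Real.log X := Real.log_pos (by linarith)
  have hDr : (1:ℝ) ≤ D := by exact_mod_cast hD
  have hD3 : (D:ℝ)^3 ≤ (X:ℝ)^(3*δ/16) := by
    calc (D:ℝ)^3 ≤ ((X:ℝ)^(δ/16))^3 := by gcongr
      _ = _ := by rw [← Real.rpow_natCast, ← Real.rpow_mul hX0.le]; congr 1; push_cast; ring
  have hD4 : (D:ℝ)^4 ≤ (X:ℝ)^(δ/4) := by
    calc (D:ℝ)^4 ≤ ((X:ℝ)^(δ/16))^4 := by gcongr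
      _ = _ := by rw [← Real.rpow_natCast, ← Real.rpow_mul hX0.le]; congr 1; push_cast; ring
  have hbn : (b:ℝ)^n ≤ (X:ℝ)^(A * Real.log b) := by
    rw [← Real.log_le_log_iff (by positivity) (by positivity), Real.log_pow, Real.log_rpow hX0]
    calc n * Real.log b ≤ A * Real.log X * Real.log b := by gcongr
      _ = _ := by ring
  intro h h0 hh
  have habs : 1 ≤ h.natAbs := Int.natAbs_pos.2 h0
  have habs' : ((h.natAbs : ℕ):ℝ) = |(h:ℝ)| := by rw [Nat.cast_natAbs, Int.cast_abs]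
  have hhD : |(h:ℝ)| ≤ (D:ℝ)^3 := by
    have : |h| ≤ ((D^3 : ℕ) : ℤ) := hh.le
    exact_mod_cast this
  have hkey : ∀ w : ℕ, 1 ≤ w → (w:ℝ) ≤ (X:ℝ) ^ (1 - δ/4) → ∀ t : ℤ,
      1 / (X:ℝ) ≤ |w * (h * ((b:ℝ)^n * ξ)) - t| := by
    intro w hw1 hw2 t
    have hw1r : (1:ℝ) ≤ w := by exact_mod_cast hw1
    have hq1 : 1 ≤ w * h.natAbs * b^n :=
      Nat.mul_pos (Nat.mul_pos hw1 habs) (pow_pos (by omega) _)
    have h1 := hrid (w * h.natAbs * b^n) hq1 (b^n) (Dvd.intro_left _ rfl) (by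
      intro ℓ hℓ hd
      exact Nat.mem_primeFactors.2 ⟨hℓ, hℓ.dvd_of_dvd_pow hd, by omega⟩) (t * h.sign)
    obtain ⟨m, hm⟩ : ∃ m : ℝ, m = w * |(h:ℝ)| := ⟨_, rfl⟩
    have hm1 : 1 ≤ m := by
      rw [hm, ← habs']
      have : (1:ℝ) ≤ (h.natAbs : ℕ) := by exact_mod_cast habs
      nlinarith
    have hm2 : m ≤ (X:ℝ)^(1 - δ/16) := by
      calc m = w * |(h:ℝ)| := hm
        _ ≤ (X:ℝ) ^ (1 - δ/4) * (X:ℝ)^(3*δ/16) := by
          gcongr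
          exact hhD.trans hD3
        _ = _ := by rw [← Real.rpow_add hX0]; congr 1; ring
    have e1 : ((w * h.natAbs * b^n : ℕ) : ℝ) = m * (b:ℝ)^n := by
      rw [hm]; push_cast; rw [← habs']
    have e2 : |((w * h.natAbs * b^n : ℕ) : ℝ) * ξ - ((t * h.sign : ℤ) : ℝ)| =
        |w * (h * ((b:ℝ)^n * ξ)) - t| := by
      rw [e1, hm]
      rcases lt_or_gt_of_ne h0 with hneg | hpos
      · have h3 : |(h:ℝ)| = -(h:ℝ) := abs_of_neg (by exact_mod_cast hneg)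
        rw [h3, Int.sign_eq_neg_one_of_neg hneg]
        have : (w:ℝ) * -(h:ℝ) * (b:ℝ)^n * ξ - ((t * -1 : ℤ) : ℝ) =
            -(w * (h * ((b:ℝ)^n * ξ)) - t) := by push_cast; ring
        rw [this, abs_neg]
      · have h3 : |(h:ℝ)| = (h:ℝ) := abs_of_pos (by exact_mod_cast hpos)
        rw [h3, Int.sign_eq_one_of_pos hpos]
        congr 1
        push_cast; ring
    rw [e2, e1] at h1
    obtain ⟨r, hr⟩ : ∃ r, r = |(w:ℝ) * (h * ((b:ℝ)^n * ξ)) - t| := ⟨_, rfl⟩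
    rw [← hr] at h1 ⊢
    have hr0 : 0 ≤ r := by rw [hr]; exact abs_nonneg _
    have hbn0 : (0:ℝ) < (b:ℝ)^n := by positivity
    have hbn1 : (1:ℝ) ≤ (b:ℝ)^n := one_le_pow₀ (by linarith)
    push_cast at h1
    -- c b^n ≤ (m b^n)^(1+e0) r
    have h2 : c ≤ m ^ (1 + e0) * ((b:ℝ)^n)^e0 * r := by
      have h3 : (m * (b:ℝ)^n)^(1+e0) = m^(1+e0) * (((b:ℝ)^n)^e0 * (b:ℝ)^n) := by
        rw [Real.mul_rpow (by linarith) hbn0.le, Real.rpow_add hbn0 1 e0, Real.rpow_one]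
        ring
      rw [h3] at h1
      have h4 : c * (b:ℝ)^n ≤ (m ^ (1 + e0) * ((b:ℝ)^n)^e0 * r) * (b:ℝ)^n := by
        calc c * (b:ℝ)^n ≤ m^(1+e0) * (((b:ℝ)^n)^e0 * (b:ℝ)^n) * r := h1
          _ = _ := by ring
      exact le_of_mul_le_mul_right h4 hbn0
    have h3 : m ^ (1 + e0) * ((b:ℝ)^n)^e0 ≤ (X:ℝ)^(1 - δ/32) := by
      calc m ^ (1 + e0) * ((b:ℝ)^n)^e0 ≤
          ((X:ℝ)^(1 - δ/16)) ^ (1 + e0) * ((X:ℝ)^(A * Real.log b))^e0 := by gcongr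
        _ = (X:ℝ)^((1 - δ/16) * (1 + e0) + A * Real.log b * e0) := by
          rw [← Real.rpow_mul hX0.le, ← Real.rpow_mul hX0.le, ← Real.rpow_add hX0]
        _ ≤ (X:ℝ)^(1 - δ/32) := by
          apply Real.rpow_le_rpow_of_exponent_le hX1
          have : (1 - δ/16) * (1 + e0) + A * Real.log b * e0 ≤
              1 - δ/16 + e0 * (1 + A * Real.log b) := by
            have : 0 ≤ δ/16 * e0 := by positivity
            nlinarith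
          rw [he01] at this
          linarith
    have h4 : c ≤ (X:ℝ)^(1 - δ/32) * r := h2.trans (by gcongr)
    rw [div_le_iff₀ hX0]
    have h5 : (X:ℝ)^(1 - δ/32) * (X:ℝ)^(δ/32) = X := by
      rw [← Real.rpow_add hX0]; simp
    have h6 : 1 ≤ c * (X:ℝ)^(δ/32) := by
      rw [div_le_iff₀ hc] at g1
      linarith
    calc 1 ≤ c * (X:ℝ)^(δ/32) := h6
      _ ≤ (X:ℝ)^(1 - δ/32) * r * (X:ℝ)^(δ/32) := by gcongr
      _ = r * ((X:ℝ)^(1 - δ/32) * (X:ℝ)^(δ/32)) := by ring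
      _ = r * X := by rw [h5]
  have h1 := hminor X ((le_max_left _ _).trans hX) P Q hP hQ hPQ
    (fun a => ee (h * ((b:ℝ)^n * u a))) (fun a => ee (h * ((b:ℝ)^n * v a)))
    (fun a => (norm_ee _).le) (fun a => (norm_ee _).le) (h * ((b:ℝ)^n * ξ)) hkey
  have e1 : ∑ i ∈ P ×ˢ Q, e (h * ((b:ℝ)^n * (u i.1 + v i.2 + ((i.1 * i.2 : ℕ) : ℝ) * ξ))) =
      ∑ i ∈ P ×ˢ Q, ee (h * ((b:ℝ)^n * u i.1)) * ee (h * ((b:ℝ)^n * v i.2)) *
        ee ((i.1 * i.2 : ℕ) * (h * ((b:ℝ)^n * ξ))) := by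
    apply Finset.sum_congr rfl
    intro i _
    rw [e_ee, ← ee_add, ← ee_add]
    congr 1
    ring
  rw [e1]
  refine h1.trans ?_
  rw [card_product, Nat.cast_mul, div_eq_mul_inv]
  apply mul_le_mul_of_nonneg_left _ (by positivity)
  rw [Real.rpow_neg hX0.le]
  exact inv_anti₀ (by positivity) hD4

/-- **Products of two sets, places beyond every bound.** -/
theorem prod_places (b : ℕ) (hb : 2 ≤ b) (δ : ℝ) (hδ : 0 < δ) (hδ1 : δ ≤ 1) :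
    ∃ X0 : ℕ, ∀ X : ℕ, X0 ≤ X → ∀ P Q : Finset ℕ, (∀ a ∈ P, 1 ≤ a ∧ a ≤ X) →
      (∀ c ∈ Q, 1 ≤ c ∧ c ≤ X) → (X:ℝ) ^ (1 + δ) ≤ #P * #Q → ∀ u v : ℕ → ℝ,
      ∀ ξ κ c0 : ℝ, 0 < κ → 0 < c0 →
      (∀ q : ℕ, 1 ≤ q → ∀ p : ℤ, c0 ≤ (q : ℝ) ^ κ * |q * ξ - p|) →
      ∀ D : ℕ, 1 ≤ D → (D:ℝ) ≤ (X:ℝ)^(δ/16) → ∀ S : ℕ, ∃ n : ℕ, S ≤ n ∧
      (n:ℝ) ≤ (1 + κ) * S + κ * (Real.log X / Real.log b) + (|Real.log c0| / Real.log 2 + 1) ∧
      Good (P ×ˢ Q) (fun i : ℕ × ℕ => u i.1 + v i.2 + ((i.1 * i.2 : ℕ) : ℝ) * ξ) b D n := by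
  have hbr : (2:ℝ) ≤ b := by exact_mod_cast hb
  have hlb : 0 < Real.log b := Real.log_pos (by linarith)
  obtain ⟨X1, hminor⟩ := product_minor δ hδ
  have ev : ∀ᶠ x : ℝ in atTop, (b:ℝ) + 1 ≤ x ^ (δ/16) :=
    (tendsto_rpow_atTop (by positivity : (0:ℝ) < δ/16)).eventually_ge_atTop _
  obtain ⟨x0, hx0⟩ := eventually_atTop.1 (ev.and (eventually_ge_atTop 2))
  refine ⟨max X1 ⌈x0⌉₊, fun X hX P Q hP hQ hPQ u v ξ κ c0 hκ hc0 hξ D hD hDX S => ?_⟩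
  obtain ⟨g1, g2⟩ := hx0 X ((Nat.le_ceil x0).trans (by exact_mod_cast (le_max_right _ _).trans hX))
  have hX0 : (0:ℝ) < X := by linarith
  have hX1 : (1:ℝ) ≤ X := by linarith
  have hDr : (1:ℝ) ≤ D := by exact_mod_cast hD
  have hD3 : (D:ℝ)^3 ≤ (X:ℝ)^(3*δ/16) := by
    calc (D:ℝ)^3 ≤ ((X:ℝ)^(δ/16))^3 := by gcongr
      _ = _ := by rw [← Real.rpow_natCast, ← Real.rpow_mul hX0.le]; congr 1; push_cast; ring
  have hD4 : (D:ℝ)^4 ≤ (X:ℝ)^(δ/4) := by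
    calc (D:ℝ)^4 ≤ ((X:ℝ)^(δ/16))^4 := by gcongr
      _ = _ := by rw [← Real.rpow_natCast, ← Real.rpow_mul hX0.le]; congr 1; push_cast; ring
  have hU : 1 ≤ (X:ℝ)^(1 - δ/4) := Real.one_le_rpow hX1 (by linarith)
  obtain ⟨n, hn1, hn2, hn3⟩ := places (P ×ˢ Q) (fun i : ℕ × ℕ => ((i.1 * i.2 : ℕ) : ℤ))
    (fun i => u i.1 + v i.2) ξ κ c0 hκ hc0 hξ b hb D hD ((X:ℝ)^(1 - δ/4)) (1 / X) hU
    (by positivity) (by
      calc ((b:ℝ) + 1) * ((X:ℝ)^(1 - δ/4) * (D:ℝ)^3) * (1 / X) ≤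
          (X:ℝ)^(δ/16) * ((X:ℝ)^(1 - δ/4) * (X:ℝ)^(3*δ/16)) * (1 / X) := by gcongr
        _ = 1 := by
          rw [← Real.rpow_add hX0, ← Real.rpow_add hX0]
          have : δ/16 + (1 - δ/4 + 3*δ/16) = 1 := by ring
          rw [this, Real.rpow_one]
          field_simp
        _ ≤ 1 := le_rfl) (by
      intro h n α hα
      have h1 := hminor X ((le_max_left _ _).trans hX) P Q hP hQ hPQ
        (fun a => ee (h * ((b:ℝ)^n * u a))) (fun a => ee (h * ((b:ℝ)^n * v a)))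
        (fun a => (norm_ee _).le) (fun a => (norm_ee _).le) α hα
      have e1 : ∑ i ∈ P ×ˢ Q, e (h * ((b:ℝ)^n * (u i.1 + v i.2)) +
          (((i.1 * i.2 : ℕ) : ℤ) : ℝ) * α) =
          ∑ i ∈ P ×ˢ Q, ee (h * ((b:ℝ)^n * u i.1)) * ee (h * ((b:ℝ)^n * v i.2)) *
            ee ((i.1 * i.2 : ℕ) * α) := by
        apply Finset.sum_congr rfl
        intro i _
        rw [e_ee, ← ee_add, ← ee_add]
        congr 1
        push_cast
        ring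
      rw [e1]
      refine h1.trans ?_
      rw [card_product, Nat.cast_mul, div_eq_mul_inv]
      apply mul_le_mul_of_nonneg_left _ (by positivity)
      rw [Real.rpow_neg hX0.le]
      exact inv_anti₀ (by positivity) hD4) S
  refine ⟨n, hn1, hn2.trans ?_, ?_⟩
  · have h4 : Real.log ((X:ℝ)^(1 - δ/4) * (D:ℝ)^3) ≤ Real.log X := by
      apply Real.log_le_log (by positivity)
      calc (X:ℝ)^(1 - δ/4) * (D:ℝ)^3 ≤ (X:ℝ)^(1 - δ/4) * (X:ℝ)^(3*δ/16) := by gcongr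
        _ = (X:ℝ)^(1 - δ/16) := by rw [← Real.rpow_add hX0]; congr 1; ring
        _ ≤ (X:ℝ)^(1:ℝ) := Real.rpow_le_rpow_of_exponent_le hX1 (by linarith)
        _ = X := Real.rpow_one _
    gcongr
  · intro h h0 hh
    have := hn3 h h0 hh
    push_cast at this ⊢
    exact this

/-- `√2` is badly approximable -/
theorem sqrt_two_measure : ∀ q : ℕ, 1 ≤ q → ∀ p : ℤ,
    (1/4 : ℝ) ≤ (q : ℝ) ^ (1:ℝ) * |q * √2 - p| := by
  intro q hq p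
  have hqr : (1:ℝ) ≤ q := by exact_mod_cast hq
  have hq0 : (0:ℝ) < q := by linarith
  rw [Real.rpow_one]
  have hs1 : √2 ≤ 1.5 := by
    rw [show (1.5:ℝ) = √(1.5^2) by rw [Real.sqrt_sq (by norm_num)]]
    exact Real.sqrt_le_sqrt (by norm_num)
  have hs0 : 0 < √2 := by positivity
  rcases le_or_gt (1/4) |(q:ℝ) * √2 - p| with h | h
  · nlinarith
  · have h1 : 1 ≤ |2 * (q:ℝ)^2 - (p:ℝ)^2| := by
      have h2 : (2 * (q:ℤ)^2 - p^2) ≠ 0 := by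
        intro h3
        have h4 : ((p:ℝ))^2 = 2 * (q:ℝ)^2 := by
          have : (p:ℤ)^2 = 2 * (q:ℤ)^2 := by linarith
          exact_mod_cast this
        have h5 : ((p:ℚ) / q)^2 = 2 := by
          have h6 : (p:ℚ)^2 = 2 * (q:ℚ)^2 := by exact_mod_cast (by linarith : (p:ℤ)^2 = 2 * (q:ℤ)^2)
          rw [div_pow, h6]
          have : (q:ℚ) ≠ 0 := by exact_mod_cast (by omega : q ≠ 0)
          field_simp
        have h6 : IsSquare (2:ℚ) := ⟨(p:ℚ)/q, by rw [← h5]; ring⟩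
        have h7 := irrational_sqrt_two
        apply h7
        refine ⟨|(p:ℚ)/q|, ?_⟩
        have h8 : (|(p:ℚ)/q| : ℚ)^2 = 2 := by rw [sq_abs]; exact h5
        have h9 : ((|(p:ℚ)/q| : ℚ) : ℝ)^2 = 2 := by exact_mod_cast h8
        rw [← h9, Real.sqrt_sq (by exact_mod_cast abs_nonneg _)]
      have h3 : (1:ℤ) ≤ |2 * (q:ℤ)^2 - p^2| := Int.one_le_abs h2
      exact_mod_cast h3
    have h2 : 2 * (q:ℝ)^2 - (p:ℝ)^2 = (q * √2 - p) * (q * √2 + p) := by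
      have : √2 * √2 = 2 := Real.mul_self_sqrt (by norm_num)
      nlinarith
    rw [h2, abs_mul] at h1
    have h3 : |(q:ℝ) * √2 + p| ≤ 4 * q := by
      have h4 : (q:ℝ) * √2 + p = 2 * (q * √2) - (q * √2 - p) := by ring
      rw [h4]
      refine (abs_sub _ _).trans ?_
      rw [abs_of_pos (by positivity)]
      have : (q:ℝ) * √2 ≤ q * 1.5 := by gcongr
      linarith
    have h4 : 1 ≤ |(q:ℝ) * √2 - p| * (4 * q) := h1.trans (by gcongr)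
    linarith

end Pool.Agent.Q47.DG
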